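import Mathlib
import Pool.Graph.R_seed8.H524R3.Closed

/-!
# The sums of the two cases with a logarithm in the leading term
-/

set_option autoImplicit false

open Finset

namespace Pool.Agent.H905.WG

open H524R3

theorem sm_pos (r n : ℕ) (h0 : 1 ≤ n) (h1 : n < r) : 0 < sm r 1 n := by
  have h1' : (1 : ℝ) ≤ n := by exact_mod_cast h0
  have h2 : (n : ℝ) < r := by exact_mod_cast h1
  unfold sm
  have hr' : (0 : ℝ) < r := by linarith
  refine mul_pos (Real.sqrt_pos.mpr (by positivity)) (Real.sin_pos_of_pos_of_lt_pi ?_ ?_)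
  · push_cast; positivity
  · push_cast
    rw [one_mul]
    have : (n : ℝ) / r < 1 := by rw [div_lt_one hr']; exact h2
    nlinarith [Real.pi_pos]

/-- One crosscap and one pair of exceptional fibres. -/
noncomputable def Zs (n : ℤ) (r : ℕ) : ℂ :=
  ∑ u ∈ Icc 1 (r - 1), twist r u ^ n * (((-1 : ℝ) ^ (u + 1) * wv r u : ℝ) : ℂ)

/-- Three crosscaps. -/
noncomputable def Zt (n : ℤ) (r : ℕ) : ℂ :=
  ∑ u ∈ Icc 1 (r - 1), twist r u ^ n * ((((-1 : ℝ) ^ (u + 1)) ^ 3 / sm r 1 u : ℝ) : ℂ)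

end Pool.Agent.H905.WG
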