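import Mathlib
import Pool.Graph.R_seed8.H524R3.Asym
import Pool.Agent.H905.WR.Low
import Pool.Agent.H905.WG.Base

/-!
# Growth of the invariants of the first family
-/

set_option autoImplicit false

open Finset Filter Topology

namespace Pool.Agent.H905.WG

open H524R3 Pool.Agent.H905.WR

theorem norm_sum_E_natAbs (n : ℤ) (a y : ℕ → ℝ) (A : Finset ℕ) :
    ‖∑ i ∈ A, (a i : ℂ) * E (n * y i)‖ = ‖∑ i ∈ A, (a i : ℂ) * E (n.natAbs * y i)‖ := by
  rcases le_total 0 n with h | h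
  · have e : ((n.natAbs : ℕ) : ℝ) = (n : ℝ) := by
      rw [Nat.cast_natAbs, abs_of_nonneg h]
    rw [e]
  · have e : (n : ℝ) = -((n.natAbs : ℕ) : ℝ) := by
      rw [Nat.cast_natAbs, abs_of_nonpos h]
      push_cast
      ring
    rw [e, ← RCLike.norm_conj (∑ i ∈ A, (a i : ℂ) * E (n.natAbs * y i)), map_sum]
    congr 1
    refine sum_congr rfl fun i _ => ?_
    rw [map_mul, Complex.conj_ofReal, E_conj]
    congr 2
    ring

theorem approx_int (s : ℕ) (n : ℤ) (r N : ℕ) (hs1 : 1 ≤ s) (hs2 : s ≤ 2) (hn : n ≠ 0) (hr : 1 ≤ r)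
    (hN : Nat.sqrt r < N) (hNr : N ≤ r) (a : ℕ → ℝ) (h0 : ∀ i < N, 0 ≤ a i)
    (hanti : ∀ i, i + 1 < N → a (i + 1) ≤ a i) (hK : ∀ i < N, a i ≤ r / (i + 1)) :
    |‖∑ i ∈ range N, (a i : ℂ) * E (n / (2 * r) * jj s i ^ 2)‖ - ∑ i ∈ range (Nat.sqrt r), a i| ≤
      15 * |(n : ℝ)| * r := by
  have e1 : ∀ i ∈ range N, (a i : ℂ) * E (n / (2 * r) * jj s i ^ 2) =
      (a i : ℂ) * E (n * (jj s i ^ 2 / (2 * r))) := by
    intro i _
    congr 2
    ring
  rw [sum_congr rfl e1, norm_sum_E_natAbs]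
  have hn' : 1 ≤ n.natAbs := Nat.one_le_iff_ne_zero.2 (Int.natAbs_ne_zero.2 hn)
  have h := approx s n.natAbs r N hs1 hs2 hn' hr hN hNr a h0 hanti hK
  have e2 : |(n : ℝ)| = ((n.natAbs : ℕ) : ℝ) := by
    rw [Nat.cast_natAbs, Int.cast_abs]
  have e3 : ∀ i ∈ range N, (a i : ℂ) * E ((n.natAbs : ℕ) * (jj s i ^ 2 / (2 * r))) =
      (a i : ℂ) * E ((n.natAbs : ℕ) / (2 * r) * jj s i ^ 2) := by
    intro i _
    congr 2
    ring
  rw [sum_congr rfl e3, e2]
  have h4 := abs_norm_sub_norm_le (∑ i ∈ range N, (a i : ℂ) * E ((n.natAbs : ℕ) / (2 * r) * jj s i ^ 2))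
    ((∑ i ∈ range (Nat.sqrt r), a i : ℝ) : ℂ)
  have h5 : ‖((∑ i ∈ range (Nat.sqrt r), a i : ℝ) : ℂ)‖ = ∑ i ∈ range (Nat.sqrt r), a i := by
    rw [Complex.norm_real, Real.norm_eq_abs, abs_of_nonneg]
    exact sum_nonneg fun i hi => h0 i (by rw [mem_range] at hi; omega)
  rw [h5] at h4
  exact h4.trans h

/-- The cotangents. -/
noncomputable def aa (r i : ℕ) : ℝ := (Real.tan (Real.pi * ((2 * i + 1) / (2 * r))))⁻¹

theorem aa_arg (r i : ℕ) (hi : i < r / 2) : 0 < Real.pi * ((2 * (i : ℝ) + 1) / (2 * r)) ∧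
    Real.pi * ((2 * (i : ℝ) + 1) / (2 * r)) < Real.pi / 2 := by
  have h1 : 2 * i + 1 < r := by omega
  have h2 : 2 * (i : ℝ) + 1 < r := by exact_mod_cast h1
  have hi0 : (0 : ℝ) ≤ i := Nat.cast_nonneg i
  have hr : (0 : ℝ) < r := by linarith
  have hpi := Real.pi_pos
  constructor
  · positivity
  · have : (2 * (i : ℝ) + 1) / (2 * r) < 1 / 2 := by
      rw [div_lt_div_iff₀ (by positivity) (by norm_num)]; linarith
    nlinarith

theorem aa_nonneg (r i : ℕ) (hi : i < r / 2) : 0 ≤ aa r i := by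
  obtain ⟨h1, h2⟩ := aa_arg r i hi
  exact inv_nonneg.2 (Real.tan_pos_of_pos_of_lt_pi_div_two h1 h2).le

theorem aa_anti (r i : ℕ) (hi : i + 1 < r / 2) : aa r (i + 1) ≤ aa r i := by
  obtain ⟨h1, h2⟩ := aa_arg r i (by omega)
  obtain ⟨h3, h4⟩ := aa_arg r (i + 1) hi
  unfold aa
  apply inv_anti₀ (Real.tan_pos_of_pos_of_lt_pi_div_two h1 h2)
  have h5 : (0 : ℝ) < r := by
    have : 0 < r := by omega
    exact_mod_cast this
  have hpi := Real.pi_pos
  have hlt : Real.pi * ((2 * (i : ℝ) + 1) / (2 * r)) < Real.pi * ((2 * ((i + 1 : ℕ) : ℝ) + 1) / (2 * r)) := by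
    apply mul_lt_mul_of_pos_left _ hpi
    apply div_lt_div_of_pos_right _ (by positivity)
    push_cast
    linarith
  exact (Real.tan_lt_tan_of_nonneg_of_lt_pi_div_two h1.le h4 hlt).le

theorem aa_le (r i : ℕ) (hi : i < r / 2) : aa r i ≤ r / (i + 1) := by
  obtain ⟨h1, h2⟩ := aa_arg r i hi
  refine (inv_tan_le _ h1 h2).trans ?_
  have hi0 : (0 : ℝ) ≤ i := Nat.cast_nonneg i
  have h5 : (0 : ℝ) < r := by
    have : 0 < r := by omega
    exact_mod_cast this
  have hpi := Real.pi_gt_three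
  have e : 1 / (Real.pi * ((2 * (i : ℝ) + 1) / (2 * r))) = 2 * r / (Real.pi * (2 * i + 1)) := by
    field_simp
  rw [e, div_le_div_iff₀ (by positivity) (by positivity)]
  have h6 : 2 * ((i : ℝ) + 1) ≤ Real.pi * (2 * i + 1) := by nlinarith
  have h7 := mul_le_mul_of_nonneg_left h6 h5.le
  linarith

theorem le_aa (r i : ℕ) (hi : i < r / 2) : 2 * r / Real.pi * (1 / (2 * (i : ℝ) + 1)) - 1 ≤ aa r i := by
  obtain ⟨h1, h2⟩ := aa_arg r i hi
  refine le_trans ?_ (le_inv_tan _ h1 h2)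
  have hi0 : (0 : ℝ) ≤ i := Nat.cast_nonneg i
  have h5 : (0 : ℝ) < r := by
    have : 0 < r := by omega
    exact_mod_cast this
  have h3 : 1 / (Real.pi * ((2 * (i : ℝ) + 1) / (2 * r))) =
      2 * r / Real.pi * (1 / (2 * (i : ℝ) + 1)) := by
    field_simp
  rw [h3]
  have h4 : Real.pi * ((2 * (i : ℝ) + 1) / (2 * r)) / 2 ≤ 1 := by
    linarith [Real.pi_lt_four]
  linarith

theorem log_sqrt (r : ℕ) (hr : 1 ≤ r) : Real.log r / 2 ≤ Real.log ((Nat.sqrt r : ℕ) + 1) := by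
  have hr' : (0 : ℝ) < r := by exact_mod_cast hr
  have h1 : (r : ℝ) ≤ (((Nat.sqrt r : ℕ) : ℝ) + 1) ^ 2 := by
    have : r < (Nat.sqrt r + 1) * (Nat.sqrt r + 1) := Nat.lt_succ_sqrt r
    have h3 : (r : ℝ) < ((Nat.sqrt r : ℕ) + 1) * ((Nat.sqrt r : ℕ) + 1) := by exact_mod_cast this
    nlinarith
  have h2 := Real.log_le_log hr' h1
  rw [Real.log_pow] at h2
  push_cast at h2
  linarith

theorem sqrt_lt_half (r : ℕ) (hr : 6 ≤ r) : Nat.sqrt r < r / 2 := by
  rw [Nat.sqrt_lt]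
  have h : r ≤ 2 * (r / 2) + 1 := by omega
  have h2 : 3 ≤ r / 2 := by omega
  nlinarith

theorem sum_aa_ge (r : ℕ) (hr : 6 ≤ r) :
    r / (2 * Real.pi) * Real.log r - r ≤ ∑ i ∈ range (Nat.sqrt r), aa r i := by
  have hr' : (0 : ℝ) < r := by
    have : 0 < r := by omega
    exact_mod_cast this
  have hI := sqrt_lt_half r hr
  have h1 : ∑ i ∈ range (Nat.sqrt r), (2 * r / Real.pi * (1 / (2 * (i : ℝ) + 1)) - 1) ≤
      ∑ i ∈ range (Nat.sqrt r), aa r i :=
    sum_le_sum fun i hi => le_aa r i (by rw [mem_range] at hi; omega)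
  refine le_trans ?_ h1
  rw [sum_sub_distrib, ← mul_sum]
  simp only [sum_const, card_range, nsmul_eq_mul, mul_one]
  have h2 := sum_odd_ge (Nat.sqrt r)
  have h3 := log_sqrt r (by omega)
  have h4 : ((Nat.sqrt r : ℕ) : ℝ) ≤ r := by exact_mod_cast Nat.sqrt_le_self r
  have hpi := Real.pi_pos
  have h5 : r / (2 * Real.pi) * Real.log r = 2 * r / Real.pi * (Real.log r / 2 / 2) := by
    field_simp
  rw [h5]
  have h6 : 2 * r / Real.pi * (Real.log r / 2 / 2) ≤
      2 * r / Real.pi * ∑ i ∈ range (Nat.sqrt r), 1 / (2 * (i : ℝ) + 1) := by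
    apply mul_le_mul_of_nonneg_left _ (by positivity)
    linarith
  linarith

theorem semi_sum (n : ℤ) (r : ℕ) (hr : 2 ≤ r) :
    Zs n r = ((-1) ^ r * E (n * r / 2 - n / (2 * r) - n)) *
      ((Real.sqrt (2 / r) : ℝ) : ℂ) *
        ∑ i ∈ range (r / 2), (aa r i : ℂ) * E (n / (2 * r) * jj 2 i ^ 2) := by
  unfold Zs
  rw [mul_sum]
  have h0 : ∑ u ∈ Icc 1 (r - 1), twist r u ^ n * (((-1 : ℝ) ^ (u + 1) * wv r u : ℝ) : ℂ) =
      ∑ u ∈ (Icc 1 (r - 1)).filter (fun u => Odd (u + r)),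
        twist r u ^ n * (((-1 : ℝ) ^ (u + 1) * wv r u : ℝ) : ℂ) := by
    rw [sum_filter]
    refine sum_congr rfl fun u _ => ?_
    by_cases h : Odd (u + r)
    · rw [if_pos h]
    · rw [if_neg h]
      unfold wv
      rw [if_neg h]
      simp
  rw [h0]
  symm
  refine Finset.sum_nbij' (fun j => r - (2 * j + 1)) (fun u => (r - u) / 2) ?_ ?_ ?_ ?_ ?_
  · intro j hj
    rw [Finset.mem_range] at hj
    rw [Finset.mem_filter, Finset.mem_Icc]
    refine ⟨⟨by omega, by omega⟩, ⟨r - j - 1, by omega⟩⟩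
  · intro u hu
    rw [Finset.mem_filter, Finset.mem_Icc] at hu
    rw [Finset.mem_range]
    obtain ⟨⟨h1, h2⟩, ⟨k, hk⟩⟩ := hu
    omega
  · intro j hj
    rw [Finset.mem_range] at hj
    show (r - (r - (2 * j + 1))) / 2 = j
    omega
  · intro u hu
    rw [Finset.mem_filter, Finset.mem_Icc] at hu
    obtain ⟨⟨h1, h2⟩, ⟨k, hk⟩⟩ := hu
    show r - (2 * ((r - u) / 2) + 1) = u
    omega
  · intro j hj
    rw [Finset.mem_range] at hj
    have hle : 2 * j + 1 ≤ r := by omega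
    have hr' : (r : ℝ) ≠ 0 := by
      have : 0 < r := by omega
      exact_mod_cast this.ne'
    have ho : Odd (r - (2 * j + 1) + r) := ⟨r - j - 1, by omega⟩
    show _ = twist r (r - (2 * j + 1)) ^ n *
      (((-1 : ℝ) ^ (r - (2 * j + 1) + 1) * wv r (r - (2 * j + 1)) : ℝ) : ℂ)
    have h1 : wv r (r - (2 * j + 1)) = Real.sqrt (2 / r) * aa r j := by
      unfold wv aa
      rw [if_pos ho, ← Real.tan_pi_div_two_sub]
      congr 2
      rw [Nat.cast_sub hle]
      push_cast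
      field_simp
    have h2 : (-1 : ℝ) ^ (r - (2 * j + 1) + 1) = (-1) ^ r := by
      have e : (r - (2 * j + 1) + 1) + 2 * j = r := by omega
      calc (-1 : ℝ) ^ (r - (2 * j + 1) + 1) = (-1) ^ (r - (2 * j + 1) + 1) * ((-1) ^ 2) ^ j := by
            norm_num
        _ = (-1) ^ r := by rw [← pow_mul, ← pow_add, e]
    have h3 : twist r (r - (2 * j + 1)) ^ n =
        E (n * r / 2 - n / (2 * r) - n) * E (n / (2 * r) * jj 2 j ^ 2) := by
      rw [twist_zpow, Nat.cast_sub hle, ← E_add]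
      have e : (n : ℝ) * ((((r : ℝ) - ((2 * j + 1 : ℕ) : ℝ)) ^ 2 - 1) / (2 * r)) =
          (n * r / 2 - n / (2 * r) - n + n / (2 * r) * jj 2 j ^ 2) + ((2 * (-(n * j)) : ℤ) : ℝ) := by
        unfold jj
        push_cast
        field_simp
        ring
      rw [e, E_add, E_even _ (even_two_mul _), mul_one]
    rw [h1, h2, h3]
    push_cast
    ring

theorem norm_semi (n : ℤ) (r : ℕ) (hr : 2 ≤ r) :
    ‖Zs n r‖ = Real.sqrt (2 / r) *
      ‖∑ i ∈ range (r / 2), (aa r i : ℂ) * E (n / (2 * r) * jj 2 i ^ 2)‖ := by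
  rw [semi_sum n r hr, norm_mul, norm_mul, norm_mul, norm_pow, norm_neg, norm_one, one_pow, one_mul,
    E_norm, one_mul, Complex.norm_real, Real.norm_eq_abs, abs_of_nonneg (Real.sqrt_nonneg _)]

theorem aa_le' (r i : ℕ) (hi : i < r / 2) : aa r i ≤ 2 * r / Real.pi * (1 / (2 * (i : ℝ) + 1)) := by
  obtain ⟨h1, h2⟩ := aa_arg r i hi
  refine (inv_tan_le _ h1 h2).trans (le_of_eq ?_)
  have hi0 : (0 : ℝ) ≤ i := Nat.cast_nonneg i
  have h5 : (0 : ℝ) < r := by
    have : 0 < r := by omega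
    exact_mod_cast this
  field_simp

theorem sum_odd_le' (I : ℕ) (hI : 1 ≤ I) :
    ∑ j ∈ range I, 1 / (2 * (j : ℝ) + 1) ≤ 2 + Real.log I / 2 := by
  obtain ⟨J, rfl⟩ : ∃ J, I = J + 1 := ⟨I - 1, by omega⟩
  rw [sum_range_succ']
  have h1 : ∑ j ∈ range J, 1 / (2 * ((j + 1 : ℕ) : ℝ) + 1) ≤ ∑ j ∈ range J, (1 / ((j : ℝ) + 1)) / 2 := by
    refine sum_le_sum fun j _ => ?_
    rw [div_div]
    apply div_le_div_of_nonneg_left (by norm_num) (by positivity)
    push_cast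
    linarith
  have h2 := harmonic_le_one_add_log J
  have h3 : ((harmonic J : ℚ) : ℝ) = ∑ j ∈ range J, 1 / ((j : ℝ) + 1) := by
    unfold harmonic; push_cast; simp
  rw [h3] at h2
  rw [← sum_div] at h1
  have h4 : Real.log (J : ℝ) ≤ Real.log ((J + 1 : ℕ) : ℝ) := by
    rcases Nat.eq_zero_or_pos J with h | h
    · rw [h]; simp
    · apply Real.log_le_log (by exact_mod_cast h)
      push_cast; linarith
  have h5 : (1 : ℝ) / (2 * ((0 : ℕ) : ℝ) + 1) = 1 := by norm_num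
  rw [h5]
  linarith

theorem log_sqrt_le (r : ℕ) (hr : 1 ≤ r) : Real.log (Nat.sqrt r : ℕ) ≤ Real.log r / 2 := by
  have hI1 : 1 ≤ Nat.sqrt r := Nat.sqrt_pos.2 hr
  have h0 : (0 : ℝ) < (Nat.sqrt r : ℕ) := by exact_mod_cast hI1
  have h1 : ((Nat.sqrt r : ℕ) : ℝ) ^ 2 ≤ r := by exact_mod_cast Nat.sqrt_le' r
  have h2 := Real.log_le_log (by positivity) h1
  rw [Real.log_pow] at h2
  push_cast at h2
  linarith

theorem sum_aa_le (r : ℕ) (hr : 6 ≤ r) :
    ∑ i ∈ range (Nat.sqrt r), aa r i ≤ r / (2 * Real.pi) * Real.log r + 2 * r := by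
  have hr' : (0 : ℝ) < r := by
    have : 0 < r := by omega
    exact_mod_cast this
  have hI := sqrt_lt_half r hr
  have h1 : ∑ i ∈ range (Nat.sqrt r), aa r i ≤
      ∑ i ∈ range (Nat.sqrt r), 2 * r / Real.pi * (1 / (2 * (i : ℝ) + 1)) :=
    sum_le_sum fun i hi => aa_le' r i (by rw [mem_range] at hi; omega)
  refine h1.trans ?_
  rw [← mul_sum]
  have h2 := sum_odd_le' (Nat.sqrt r) (Nat.sqrt_pos.2 (by omega))
  have h3 := log_sqrt_le r (by omega)
  have hpi := Real.pi_gt_three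
  have h6 : 2 * r / Real.pi * ∑ i ∈ range (Nat.sqrt r), 1 / (2 * (i : ℝ) + 1) ≤
      2 * r / Real.pi * (2 + Real.log r / 2 / 2) := by
    apply mul_le_mul_of_nonneg_left _ (by positivity)
    linarith
  have h7 : 2 * r / Real.pi * (2 + Real.log r / 2 / 2) =
      r / (2 * Real.pi) * Real.log r + (4 / Real.pi) * r := by
    field_simp
    ring
  have h8 : 4 / Real.pi ≤ 2 := by
    rw [div_le_iff₀ (by linarith)]; linarith
  have h9 : 4 / Real.pi * r ≤ 2 * r := mul_le_mul_of_nonneg_right h8 hr'.le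
  linarith

theorem sum_aa_all_ge (r : ℕ) (hr : 6 ≤ r) :
    r / Real.pi * Real.log r - 2 * r ≤ ∑ i ∈ range (r / 2), aa r i := by
  have hr' : (6 : ℝ) ≤ r := by exact_mod_cast hr
  have h := (tsum_bounds r (by omega)).1
  rw [tsum_eq r (by omega)] at h
  refine le_trans ?_ h
  have hpi := Real.pi_gt_three
  rw [Real.log_div (by linarith) (by norm_num)]
  have h2 : Real.log 2 ≤ 1 := by linarith [Real.log_two_lt_d9]
  have h3 : r / Real.pi * Real.log 2 ≤ r := by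
    have h4 : (r : ℝ) / Real.pi ≤ r := div_le_self (by linarith) (by linarith)
    have h5 : 0 ≤ Real.log 2 := Real.log_nonneg (by norm_num)
    have h6 : 0 ≤ r / Real.pi := by positivity
    nlinarith
  have h4 : r / Real.pi * (Real.log r - Real.log 2) = r / Real.pi * Real.log r - r / Real.pi * Real.log 2 := by
    ring
  rw [h4]
  linarith

theorem sum_aa_all_le (r : ℕ) (hr : 6 ≤ r) :
    ∑ i ∈ range (r / 2), aa r i ≤ r / Real.pi * Real.log r + 2 * r := by
  have hr' : (0 : ℝ) < r := by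
    have : 0 < r := by omega
    exact_mod_cast this
  have h1 : ∑ i ∈ range (r / 2), aa r i ≤
      ∑ i ∈ range (r / 2), 2 * r / Real.pi * (1 / (2 * (i : ℝ) + 1)) :=
    sum_le_sum fun i hi => aa_le' r i (mem_range.1 hi)
  refine h1.trans ?_
  rw [← mul_sum]
  have h2 := sum_odd_le' (r / 2) (by omega)
  have h3 : Real.log ((r / 2 : ℕ) : ℝ) ≤ Real.log r := by
    apply Real.log_le_log
    · have : 0 < r / 2 := by omega
      exact_mod_cast this
    · have : r / 2 ≤ r := by omega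
      exact_mod_cast this
  have hpi := Real.pi_gt_three
  have h6 : 2 * r / Real.pi * ∑ i ∈ range (r / 2), 1 / (2 * (i : ℝ) + 1) ≤
      2 * r / Real.pi * (2 + Real.log r / 2) := by
    apply mul_le_mul_of_nonneg_left _ (by positivity)
    linarith
  have h7 : 2 * r / Real.pi * (2 + Real.log r / 2) =
      r / Real.pi * Real.log r + (4 / Real.pi) * r := by
    field_simp
    ring
  have h8 : 4 / Real.pi ≤ 2 := by
    rw [div_le_iff₀ (by linarith)]; linarith
  have h9 : 4 / Real.pi * r ≤ 2 * r := mul_le_mul_of_nonneg_right h8 hr'.le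
  linarith

theorem sqrt_two_div (r : ℕ) (hr : 1 ≤ r) (x : ℝ) :
    Real.sqrt (2 / r) * (r * x) = Real.sqrt 2 * (Real.sqrt r * x) := by
  have hr' : (0 : ℝ) < r := by exact_mod_cast hr
  rw [Real.sqrt_div (by norm_num)]
  have h3 : Real.sqrt r * Real.sqrt r = r := Real.mul_self_sqrt hr'.le
  have h4 : 0 < Real.sqrt r := Real.sqrt_pos.mpr hr'
  rw [div_mul_eq_mul_div, div_eq_iff h4.ne']
  linear_combination (-(Real.sqrt 2 * x)) * h3

/-- Asymptotics of the first family, nonzero Euler number. -/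
theorem semi_asym (n : ℤ) (hn : n ≠ 0) (r : ℕ) (hr : 6 ≤ r) :
    |‖Zs n r‖ - Real.sqrt 2 / (2 * Real.pi) * (Real.sqrt r * Real.log r)| ≤
      Real.sqrt 2 * (15 * |(n : ℝ)| + 2) * Real.sqrt r := by
  have hr' : (0 : ℝ) < r := by
    have : 0 < r := by omega
    exact_mod_cast this
  have hpi := Real.pi_pos
  rw [norm_semi n r (by omega)]
  have h1 := approx_int 2 n r (r / 2) (by norm_num) le_rfl hn (by omega) (sqrt_lt_half r hr)
    (Nat.div_le_self r 2) (aa r) (fun i hi => aa_nonneg r i hi) (fun i hi => aa_anti r i hi)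
    (fun i hi => aa_le r i hi)
  have h2 := sum_aa_ge r hr
  have h3 := sum_aa_le r hr
  set S := ‖∑ i ∈ range (r / 2), (aa r i : ℂ) * E (n / (2 * r) * jj 2 i ^ 2)‖ with hS
  have h4 : |S - r * (1 / (2 * Real.pi) * Real.log r)| ≤ r * (15 * |(n : ℝ)| + 2) := by
    have e : r / (2 * Real.pi) * Real.log r = r * (1 / (2 * Real.pi) * Real.log r) := by ring
    rw [e] at h2 h3
    rw [abs_le] at h1 ⊢
    constructor <;> nlinarith [h1.1, h1.2]
  have e1 : Real.sqrt 2 / (2 * Real.pi) * (Real.sqrt r * Real.log r) =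
      Real.sqrt (2 / r) * (r * (1 / (2 * Real.pi) * Real.log r)) := by
    rw [sqrt_two_div r (by omega)]; ring
  have e2 : Real.sqrt 2 * (15 * |(n : ℝ)| + 2) * Real.sqrt r =
      Real.sqrt (2 / r) * (r * (15 * |(n : ℝ)| + 2)) := by
    rw [sqrt_two_div r (by omega)]; ring
  rw [e1, e2, ← mul_sub, abs_mul, abs_of_nonneg (Real.sqrt_nonneg _)]
  exact mul_le_mul_of_nonneg_left h4 (Real.sqrt_nonneg _)

/-- Asymptotics of the first family, Euler number zero. -/
theorem semi_asym_zero (r : ℕ) (hr : 6 ≤ r) :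
    |‖Zs 0 r‖ - Real.sqrt 2 / Real.pi * (Real.sqrt r * Real.log r)| ≤
      Real.sqrt 2 * 2 * Real.sqrt r := by
  have hr' : (0 : ℝ) < r := by
    have : 0 < r := by omega
    exact_mod_cast this
  have hpi := Real.pi_pos
  rw [norm_semi 0 r (by omega)]
  have h2 := sum_aa_all_ge r hr
  have h3 := sum_aa_all_le r hr
  have hS : ‖∑ i ∈ range (r / 2), (aa r i : ℂ) * E (((0 : ℤ) : ℝ) / (2 * r) * jj 2 i ^ 2)‖ =
      ∑ i ∈ range (r / 2), aa r i := by
    simp only [Int.cast_zero, zero_div, zero_mul, E_zero, mul_one]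
    rw [← Complex.ofReal_sum, Complex.norm_real, Real.norm_eq_abs, abs_of_nonneg]
    exact sum_nonneg fun i hi => aa_nonneg r i (mem_range.1 hi)
  rw [hS]
  have h4 : |∑ i ∈ range (r / 2), aa r i - r * (1 / Real.pi * Real.log r)| ≤ r * 2 := by
    have e : r / Real.pi * Real.log r = r * (1 / Real.pi * Real.log r) := by ring
    rw [e] at h2 h3
    rw [abs_le]
    constructor <;> linarith
  have e1 : Real.sqrt 2 / Real.pi * (Real.sqrt r * Real.log r) =
      Real.sqrt (2 / r) * (r * (1 / Real.pi * Real.log r)) := by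
    rw [sqrt_two_div r (by omega)]; ring
  have e2 : Real.sqrt 2 * 2 * Real.sqrt r = Real.sqrt (2 / r) * (r * 2) := by
    rw [sqrt_two_div r (by omega)]; ring
  rw [e1, e2, ← mul_sub, abs_mul, abs_of_nonneg (Real.sqrt_nonneg _)]
  exact mul_le_mul_of_nonneg_left h4 (Real.sqrt_nonneg _)

end Pool.Agent.H905.WG
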