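import Mathlib
import Pool.Graph.R_seed8.H524R3.Trig
import Pool.Graph.R_seed8.H524R3.NoExp2

/-!
# Sequences with a finite expansion up to an error
-/

set_option autoImplicit false

open Finset Filter Topology

namespace Pool.Agent.H905.WG

open H524R3

/-- Sequences which are finite sums of terms β n^e z^n (|z| = 1, e real) up to O(n^s). -/
inductive Ex (s : ℝ) : (ℕ → ℂ) → Prop
  | term (β : ℂ) (e : ℝ) (z : ℂ) (hz : ‖z‖ = 1) : Ex s (fun n => β * (((n : ℝ) ^ e : ℝ) : ℂ) * z ^ n)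
  | add {f g : ℕ → ℂ} : Ex s f → Ex s g → Ex s (fun n => f n + g n)
  | err {f : ℕ → ℂ} (C : ℝ) (h : ∀ᶠ n : ℕ in atTop, ‖f n‖ ≤ C * (n : ℝ) ^ s) : Ex s f

theorem Ex.zero (s : ℝ) : Ex s (fun _ => 0) := by
  refine Ex.err 0 (Eventually.of_forall fun n => ?_)
  simp

theorem Ex.congr {s : ℝ} {f g : ℕ → ℂ} (hf : Ex s f) (h : ∀ᶠ n in atTop, f n = g n) : Ex s g := by
  have e : g = fun n => f n + (g n - f n) := by funext n; ring
  rw [e]
  refine Ex.add hf (Ex.err 0 ?_)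
  filter_upwards [h] with n hn
  rw [hn, sub_self, norm_zero, zero_mul]

theorem Ex.mono {s t : ℝ} (hst : s ≤ t) {f : ℕ → ℂ} (hf : Ex s f) : Ex t f := by
  induction hf with
  | term β e z hz => exact Ex.term β e z hz
  | add _ _ ih1 ih2 => exact Ex.add ih1 ih2
  | @err f C h =>
    refine Ex.err |C| ?_
    filter_upwards [h, eventually_ge_atTop 1] with n hn hn1
    have hn' : (1 : ℝ) ≤ n := by exact_mod_cast hn1
    have h1 : (n : ℝ) ^ s ≤ (n : ℝ) ^ t := Real.rpow_le_rpow_of_exponent_le hn' hst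
    have h2 : 0 ≤ (n : ℝ) ^ s := Real.rpow_nonneg (by linarith) _
    calc ‖f n‖ ≤ C * (n : ℝ) ^ s := hn
      _ ≤ |C| * (n : ℝ) ^ s := mul_le_mul_of_nonneg_right (le_abs_self C) h2
      _ ≤ |C| * (n : ℝ) ^ t := mul_le_mul_of_nonneg_left h1 (abs_nonneg C)

theorem Ex.const_mul {s : ℝ} (c : ℂ) {f : ℕ → ℂ} (hf : Ex s f) : Ex s (fun n => c * f n) := by
  induction hf with
  | term β e z hz =>
    have e1 : (fun n : ℕ => c * (β * (((n : ℝ) ^ e : ℝ) : ℂ) * z ^ n)) =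
        fun n : ℕ => (c * β) * (((n : ℝ) ^ e : ℝ) : ℂ) * z ^ n := by funext n; ring
    rw [e1]
    exact Ex.term (c * β) e z hz
  | @add f g _ _ ih1 ih2 =>
    have e1 : (fun n : ℕ => c * (f n + g n)) = fun n => c * f n + c * g n := by funext n; ring
    rw [e1]
    exact Ex.add ih1 ih2
  | @err f C h =>
    refine Ex.err (‖c‖ * C) ?_
    filter_upwards [h] with n hn
    rw [norm_mul, mul_assoc]
    exact mul_le_mul_of_nonneg_left hn (norm_nonneg c)

theorem Ex.neg {s : ℝ} {f : ℕ → ℂ} (hf : Ex s f) : Ex s (fun n => -f n) := by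
  have := hf.const_mul (-1)
  have e : (fun n => -f n) = fun n => -1 * f n := by funext n; ring
  rw [e]; exact this

theorem Ex.sub {s : ℝ} {f g : ℕ → ℂ} (hf : Ex s f) (hg : Ex s g) : Ex s (fun n => f n - g n) := by
  have e : (fun n => f n - g n) = fun n => f n + -g n := by funext n; ring
  rw [e]; exact Ex.add hf hg.neg

theorem Ex.sum {s : ℝ} {ι : Type} (A : Finset ι) (f : ι → ℕ → ℂ) (hf : ∀ i ∈ A, Ex s (f i)) :
    Ex s (fun n => ∑ i ∈ A, f i n) := by
  classical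
  induction A using Finset.induction_on with
  | empty => simp only [sum_empty]; exact Ex.zero s
  | insert a A ha ih =>
    simp only [sum_insert ha]
    exact Ex.add (hf a (mem_insert_self a A)) (ih fun i hi => hf i (mem_insert_of_mem hi))

/-- multiplication by n^a z^n -/
theorem Ex.mul_term {s : ℝ} {f : ℕ → ℂ} (hf : Ex s f) (a : ℝ) (w : ℂ) (hw : ‖w‖ = 1) :
    Ex (s + a) (fun n => (((n : ℝ) ^ a : ℝ) : ℂ) * w ^ n * f n) := by
  induction hf with
  | term β e z hz =>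
    refine Ex.congr (Ex.term β (e + a) (z * w) (by rw [norm_mul, hz, hw, one_mul])) ?_
    filter_upwards [eventually_ge_atTop 1] with n hn
    have hn' : (0 : ℝ) < n := by exact_mod_cast hn
    rw [Real.rpow_add hn', mul_pow]
    push_cast
    ring
  | @add f g _ _ ih1 ih2 =>
    have e1 : (fun n : ℕ => (((n : ℝ) ^ a : ℝ) : ℂ) * w ^ n * (f n + g n)) =
        fun n : ℕ => (((n : ℝ) ^ a : ℝ) : ℂ) * w ^ n * f n + (((n : ℝ) ^ a : ℝ) : ℂ) * w ^ n * g n := by
      funext n; ring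
    rw [e1]
    exact Ex.add ih1 ih2
  | @err f C h =>
    refine Ex.err C ?_
    filter_upwards [h, eventually_ge_atTop 1] with n hn hn1
    have hn' : (0 : ℝ) < n := by exact_mod_cast hn1
    rw [norm_mul, norm_mul, norm_pow, hw, one_pow, mul_one, Complex.norm_real, Real.norm_eq_abs,
      abs_of_nonneg (Real.rpow_nonneg hn'.le _), Real.rpow_add hn']
    have h2 : 0 ≤ (n : ℝ) ^ a := Real.rpow_nonneg hn'.le _
    calc (n : ℝ) ^ a * ‖f n‖ ≤ (n : ℝ) ^ a * (C * (n : ℝ) ^ s) := mul_le_mul_of_nonneg_left hn h2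
      _ = C * ((n : ℝ) ^ s * (n : ℝ) ^ a) := by ring

/-- Taylor expansion of E. -/
theorem E_taylor (x : ℝ) (Q : ℕ) :
    ‖E x - ∑ q ∈ range Q, (((Real.pi : ℂ) * Complex.I) ^ q / (q.factorial : ℂ)) * ((x : ℂ) ^ q)‖ ≤
      (Real.pi * |x|) ^ Q * Real.exp (Real.pi * |x|) := by
  have h := Complex.norm_exp_sub_sum_le_norm_mul_exp (Real.pi * Complex.I * x) Q
  have h1 : ‖(Real.pi : ℂ) * Complex.I * x‖ = Real.pi * |x| := by
    rw [norm_mul, norm_mul, Complex.norm_I, mul_one, Complex.norm_real, Complex.norm_real,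
      Real.norm_eq_abs, Real.norm_eq_abs, abs_of_pos Real.pi_pos]
  rw [h1] at h
  have h2 : ∑ q ∈ range Q, (((Real.pi : ℂ) * Complex.I) ^ q / (q.factorial : ℂ)) * ((x : ℂ) ^ q) =
      ∑ q ∈ range Q, ((Real.pi : ℂ) * Complex.I * x) ^ q / (q.factorial : ℂ) := by
    refine sum_congr rfl fun q _ => ?_
    rw [mul_pow ((Real.pi : ℂ) * Complex.I) (x : ℂ)]
    ring
  rw [h2]
  exact h

/-- multiplication by exp (π i b / n) -/
theorem Ex.mul_E {s : ℝ} {f : ℕ → ℂ} (hf : Ex s f) (b : ℝ) :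
    Ex s (fun n => E (b / n) * f n) := by
  induction hf with
  | term β e z hz =>
    obtain ⟨Q, hQ⟩ := exists_nat_ge (e - s)
    have h1 : Ex s (fun n : ℕ => ∑ q ∈ range Q,
        (β * ((((Real.pi : ℂ) * Complex.I) ^ q / (q.factorial : ℂ)) * ((b : ℂ) ^ q))) *
          (((n : ℝ) ^ (e - q) : ℝ) : ℂ) * z ^ n) :=
      Ex.sum _ _ fun q _ => Ex.term _ _ z hz
    have h2 : Ex s (fun n : ℕ => β * (((n : ℝ) ^ e : ℝ) : ℂ) * z ^ n *
        (E (b / n) - ∑ q ∈ range Q, (((Real.pi : ℂ) * Complex.I) ^ q / (q.factorial : ℂ)) *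
          (((b / n : ℝ) : ℂ) ^ q))) := by
      refine Ex.err (‖β‖ * ((Real.pi * |b|) ^ Q * Real.exp (Real.pi * |b|))) ?_
      filter_upwards [eventually_ge_atTop 1] with n hn
      have hn' : (1 : ℝ) ≤ n := by exact_mod_cast hn
      have hn0 : (0 : ℝ) < n := by linarith
      rw [norm_mul, norm_mul, norm_mul, norm_pow, hz, one_pow, mul_one, Complex.norm_real,
        Real.norm_eq_abs, abs_of_nonneg (Real.rpow_nonneg hn0.le _)]
      have h3 := E_taylor (b / n) Q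
      have h4 : |b / (n : ℝ)| = |b| / n := by rw [abs_div, abs_of_pos hn0]
      rw [h4] at h3
      have h5 : (Real.pi * (|b| / n)) ^ Q = (Real.pi * |b|) ^ Q * ((n : ℝ) ^ (-(Q : ℝ))) := by
        rw [Real.rpow_neg hn0.le, Real.rpow_natCast, ← mul_div_assoc, div_pow]
        rfl
      have h6 : Real.exp (Real.pi * (|b| / n)) ≤ Real.exp (Real.pi * |b|) := by
        apply Real.exp_le_exp.2
        apply mul_le_mul_of_nonneg_left _ Real.pi_pos.le
        exact div_le_self (abs_nonneg b) hn'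
      have h7 : (n : ℝ) ^ e * (n : ℝ) ^ (-(Q : ℝ)) ≤ (n : ℝ) ^ s := by
        rw [← Real.rpow_add hn0]
        apply Real.rpow_le_rpow_of_exponent_le hn'
        linarith
      have hp1 : 0 ≤ (n : ℝ) ^ e := Real.rpow_nonneg hn0.le _
      have hp2 : 0 ≤ (n : ℝ) ^ (-(Q : ℝ)) := Real.rpow_nonneg hn0.le _
      have hpi := Real.pi_pos
      have h8 : ‖E (b / n) - ∑ q ∈ range Q, (((Real.pi : ℂ) * Complex.I) ^ q / (q.factorial : ℂ)) *
          (((b / n : ℝ) : ℂ) ^ q)‖ ≤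
          (Real.pi * |b|) ^ Q * ((n : ℝ) ^ (-(Q : ℝ))) * Real.exp (Real.pi * |b|) := by
        refine h3.trans ?_
        rw [h5]
        apply mul_le_mul_of_nonneg_left h6
        positivity
      calc ‖β‖ * (n : ℝ) ^ e * ‖E (b / n) - ∑ q ∈ range Q,
            (((Real.pi : ℂ) * Complex.I) ^ q / (q.factorial : ℂ)) * (((b / n : ℝ) : ℂ) ^ q)‖ ≤
            ‖β‖ * (n : ℝ) ^ e * ((Real.pi * |b|) ^ Q * ((n : ℝ) ^ (-(Q : ℝ))) *
              Real.exp (Real.pi * |b|)) := by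
            apply mul_le_mul_of_nonneg_left h8
            positivity
        _ = ‖β‖ * ((Real.pi * |b|) ^ Q * Real.exp (Real.pi * |b|)) *
            ((n : ℝ) ^ e * (n : ℝ) ^ (-(Q : ℝ))) := by ring
        _ ≤ ‖β‖ * ((Real.pi * |b|) ^ Q * Real.exp (Real.pi * |b|)) * (n : ℝ) ^ s := by
            apply mul_le_mul_of_nonneg_left h7
            positivity
    refine Ex.congr (Ex.add h1 h2) ?_
    filter_upwards [eventually_ge_atTop 1] with n hn
    have hn0 : (0 : ℝ) < n := by exact_mod_cast hn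
    have hnc : (n : ℂ) ≠ 0 := by
      have : n ≠ 0 := by omega
      exact_mod_cast this
    have h3 : ∑ q ∈ range Q,
        (β * ((((Real.pi : ℂ) * Complex.I) ^ q / (q.factorial : ℂ)) * ((b : ℂ) ^ q))) *
          (((n : ℝ) ^ (e - q) : ℝ) : ℂ) * z ^ n =
        β * (((n : ℝ) ^ e : ℝ) : ℂ) * z ^ n *
          ∑ q ∈ range Q, (((Real.pi : ℂ) * Complex.I) ^ q / (q.factorial : ℂ)) *
          (((b / n : ℝ) : ℂ) ^ q) := by
      rw [mul_sum]
      refine sum_congr rfl fun q _ => ?_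
      rw [Real.rpow_sub hn0, Real.rpow_natCast]
      push_cast
      rw [div_pow]
      ring
    rw [h3]
    ring
  | @add f g _ _ ih1 ih2 =>
    have e1 : (fun n : ℕ => E (b / n) * (f n + g n)) =
        fun n : ℕ => E (b / n) * f n + E (b / n) * g n := by
      funext n; ring
    rw [e1]
    exact Ex.add ih1 ih2
  | @err f C h =>
    refine Ex.err C ?_
    filter_upwards [h] with n hn
    rw [norm_mul, E_norm, one_mul]
    exact hn

theorem Ex.extract {s : ℝ} {f : ℕ → ℂ} (hf : Ex s f) :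
    ∃ (ι : Type) (_ : Fintype ι) (β z : ι → ℂ) (e : ι → ℝ), (∀ i, ‖z i‖ = 1) ∧
      ∃ C : ℝ, ∀ᶠ n : ℕ in atTop,
        ‖f n - ∑ i, β i * (((n : ℝ) ^ e i : ℝ) : ℂ) * z i ^ n‖ ≤ C * (n : ℝ) ^ s := by
  induction hf with
  | term β e z hz =>
    refine ⟨Unit, inferInstance, fun _ => β, fun _ => z, fun _ => e, fun _ => hz, 0,
      Eventually.of_forall fun n => ?_⟩
    simp
  | @add f g _ _ ih1 ih2 =>
    obtain ⟨ι1, _, β1, z1, e1, h1, C1, hC1⟩ := ih1
    obtain ⟨ι2, _, β2, z2, e2, h2, C2, hC2⟩ := ih2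
    refine ⟨ι1 ⊕ ι2, inferInstance, Sum.elim β1 β2, Sum.elim z1 z2, Sum.elim e1 e2, ?_, C1 + C2, ?_⟩
    · rintro (i | i)
      · exact h1 i
      · exact h2 i
    · filter_upwards [hC1, hC2] with n hn1 hn2
      rw [Fintype.sum_sum_type]
      simp only [Sum.elim_inl, Sum.elim_inr]
      have e : ∀ a b c d : ℂ, a + b - (c + d) = (a - c) + (b - d) := fun a b c d => by ring
      rw [e, add_mul]
      exact (norm_add_le _ _).trans (add_le_add hn1 hn2)
  | @err f C h =>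
    refine ⟨Empty, inferInstance, fun i => i.elim, fun i => i.elim, fun i => i.elim,
      fun i => i.elim, C, ?_⟩
    filter_upwards [h] with n hn
    simpa using hn

/-- A sequence of size at most n^s log n with a finite expansion up to O(n^s) is O(n^s). -/
theorem Ex.bounded {s : ℝ} {f : ℕ → ℂ} (hf : Ex s f) (C : ℝ)
    (hC : ∀ᶠ n : ℕ in atTop, ‖f n‖ ≤ C * ((n : ℝ) ^ s * (1 + Real.log n))) :
    ∃ C'' : ℝ, ∀ᶠ n : ℕ in atTop, ‖f n‖ ≤ C'' * (n : ℝ) ^ s := by
  obtain ⟨ι, _, β, z, e, hz, C', hC'⟩ := hf.extract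
  exact bounded_of_expansion s f C hC β z e hz _ univ le_rfl ⟨C', hC'⟩

/-- Powers times the logarithm have no finite expansion. -/
theorem not_ex_log (s : ℝ) (c : ℂ) (hc : c ≠ 0) (z : ℂ) (hz : ‖z‖ = 1) :
    ¬ Ex s (fun n => c * z ^ n * (((n : ℝ) ^ s * Real.log n : ℝ) : ℂ)) := by
  intro h
  have hnorm : ∀ n : ℕ, 1 ≤ n → ‖c * z ^ n * (((n : ℝ) ^ s * Real.log n : ℝ) : ℂ)‖ =
      ‖c‖ * ((n : ℝ) ^ s * Real.log n) := by
    intro n hn
    have hn' : (1 : ℝ) ≤ n := by exact_mod_cast hn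
    rw [norm_mul, norm_mul, norm_pow, hz, one_pow, mul_one, Complex.norm_real, Real.norm_eq_abs,
      abs_of_nonneg]
    exact mul_nonneg (Real.rpow_nonneg (by linarith) _) (Real.log_nonneg hn')
  obtain ⟨C, hC⟩ := h.bounded ‖c‖ (by
    filter_upwards [eventually_ge_atTop 1] with n hn
    have hn' : (1 : ℝ) ≤ n := by exact_mod_cast hn
    rw [hnorm n hn]
    apply mul_le_mul_of_nonneg_left _ (norm_nonneg c)
    apply mul_le_mul_of_nonneg_left _ (Real.rpow_nonneg (by linarith) _)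
    linarith)
  have hlog : Tendsto (fun n : ℕ => ‖c‖ * Real.log (n : ℝ)) atTop atTop :=
    (Real.tendsto_log_atTop.comp tendsto_natCast_atTop_atTop).const_mul_atTop (norm_pos_iff.2 hc)
  obtain ⟨n, h1, h2, h3⟩ := ((hlog.eventually (eventually_gt_atTop C)).and
    (hC.and (eventually_ge_atTop 1))).exists
  have hn' : (0 : ℝ) < n := by exact_mod_cast h3
  have hp := Real.rpow_pos_of_pos hn' s
  rw [hnorm n h3] at h2
  have h4 : ‖c‖ * ((n : ℝ) ^ s * Real.log n) = (‖c‖ * Real.log n) * (n : ℝ) ^ s := by ring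
  rw [h4] at h2
  have := le_of_mul_le_mul_right h2 hp
  linarith

theorem ex_of_hasExpansion (h : ℕ) (F : ℕ → ℂ) (hF : HasExpansion h (fun k => F (k + h))) (s : ℝ) :
    Ex s F := by
  obtain ⟨m, c, d, b, a, hexp⟩ := hF
  set D : ℝ := univ.sup' univ_nonempty d with hD
  obtain ⟨L, hL⟩ : ∃ L : ℕ, D - ((L : ℝ) + 1) / 2 ≤ s := by
    obtain ⟨L, hL⟩ := exists_nat_ge (2 * (D - s))
    exact ⟨L, by linarith⟩
  obtain ⟨C₁, k₀, hC₁⟩ := hexp L
  have h1 : Ex s (fun n : ℕ => ∑ j, (b j * (((n : ℝ) ^ d j : ℝ) : ℂ) *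
      Complex.exp (2 * Real.pi * Complex.I * (c j : ℂ)) ^ n +
      ∑ l ∈ Icc 1 L, (b j * a j l) * (((n : ℝ) ^ (d j + -(l : ℝ) / 2) : ℝ) : ℂ) *
      Complex.exp (2 * Real.pi * Complex.I * (c j : ℂ)) ^ n)) := by
    refine Ex.sum _ _ fun j _ => ?_
    have hz : ‖Complex.exp (2 * Real.pi * Complex.I * (c j : ℂ))‖ = 1 := by
      rw [show 2 * (Real.pi : ℂ) * Complex.I * (c j : ℂ) = ((2 * Real.pi * c j : ℝ) : ℂ) * Complex.I by
        push_cast; ring]
      exact Complex.norm_exp_ofReal_mul_I _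
    exact Ex.add (Ex.term _ _ _ hz) (Ex.sum _ _ fun l _ => Ex.term _ _ _ hz)
  have h2 : Ex s (fun n : ℕ => F n - ∑ j, Complex.exp (2 * Real.pi * Complex.I * (n * (c j : ℂ))) *
          (((n : ℝ) ^ d j : ℝ) : ℂ) * b j *
            (1 + ∑ l ∈ Icc 1 L, a j l * (((n : ℝ) ^ (-(l : ℝ) / 2) : ℝ) : ℂ))) := by
    refine Ex.mono hL (Ex.err C₁ ?_)
    filter_upwards [eventually_ge_atTop (k₀ + h + 1)] with n hn
    have h1 := hC₁ (n - h) (by omega)
    have hnh : n - h + h = n := by omega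
    simp only [hnh] at h1
    exact h1
  refine Ex.congr (Ex.add h2 h1) ?_
  filter_upwards [eventually_ge_atTop 1] with n hn
  have hn' : (0 : ℝ) < n := by exact_mod_cast hn
  have h3 : ∑ j, Complex.exp (2 * Real.pi * Complex.I * (n * (c j : ℂ))) *
          (((n : ℝ) ^ d j : ℝ) : ℂ) * b j *
            (1 + ∑ l ∈ Icc 1 L, a j l * (((n : ℝ) ^ (-(l : ℝ) / 2) : ℝ) : ℂ)) =
      ∑ j, (b j * (((n : ℝ) ^ d j : ℝ) : ℂ) *
      Complex.exp (2 * Real.pi * Complex.I * (c j : ℂ)) ^ n +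
      ∑ l ∈ Icc 1 L, (b j * a j l) * (((n : ℝ) ^ (d j + -(l : ℝ) / 2) : ℝ) : ℂ) *
      Complex.exp (2 * Real.pi * Complex.I * (c j : ℂ)) ^ n) := by
    refine sum_congr rfl fun j _ => ?_
    have hzn : Complex.exp (2 * Real.pi * Complex.I * (n * (c j : ℂ))) =
        Complex.exp (2 * Real.pi * Complex.I * (c j : ℂ)) ^ n := by
      rw [← Complex.exp_nat_mul]; congr 1; ring
    rw [hzn, mul_add, mul_one, mul_sum]
    congr 1
    · ring
    · refine sum_congr rfl fun l _ => ?_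
      rw [Real.rpow_add hn']
      push_cast
      ring
  rw [← h3]
  ring

end Pool.Agent.H905.WG
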