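import Mathlib
import Pool.Agent.H905.WG.Ex

/-!
# Power sums and sums with a quadratic phase
-/

set_option autoImplicit false

open Finset Filter Topology

namespace Pool.Agent.H905.WG

open H524R3

theorem pow_tail (q I J : ℕ) (hq : 2 ≤ q) (hI : 1 ≤ I) (hIJ : I ≤ J) :
    ∑ i ∈ Ico I J, 1 / ((i : ℝ) + 1) ^ q ≤ 1 / (I : ℝ) ^ (q - 1) - 1 / (J : ℝ) ^ (q - 1) := by
  obtain ⟨k, rfl⟩ : ∃ k, q = k + 2 := ⟨q - 2, by omega⟩
  have hk : k + 2 - 1 = k + 1 := by omega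
  rw [hk]
  induction J, hIJ using Nat.le_induction with
  | base => simp
  | succ J hJ ih =>
    rw [sum_Ico_succ_top hJ]
    have hJ0 : (0 : ℝ) < J := by
      have : 0 < J := by omega
      exact_mod_cast this
    have h1 : 1 / ((J : ℝ) + 1) ^ (k + 2) ≤ 1 / (J : ℝ) ^ (k + 1) - 1 / ((J : ℝ) + 1) ^ (k + 1) := by
      have h2 : (J : ℝ) ^ k * (J + 1) ≤ ((J : ℝ) + 1) ^ (k + 1) := by
        rw [pow_succ]
        apply mul_le_mul_of_nonneg_right _ (by positivity)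
        exact pow_le_pow_left₀ hJ0.le (by linarith) k
      have h3 : 1 / (J : ℝ) ^ (k + 1) - 1 / ((J : ℝ) + 1) ^ (k + 1) =
          (((J : ℝ) + 1) ^ (k + 1) - (J : ℝ) ^ (k + 1)) / ((J : ℝ) ^ (k + 1) * ((J : ℝ) + 1) ^ (k + 1)) := by
        rw [div_sub_div _ _ (by positivity) (by positivity)]
        ring
      rw [h3, div_le_div_iff₀ (by positivity) (by positivity)]
      have h4 : (J : ℝ) ^ k ≤ ((J : ℝ) + 1) ^ (k + 1) - (J : ℝ) ^ (k + 1) := by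
        have : (J : ℝ) ^ (k + 1) = (J : ℝ) ^ k * J := pow_succ _ _
        nlinarith
      have h5 : (J : ℝ) ^ (k + 1) ≤ (J : ℝ) ^ k * (J + 1) := by
        rw [pow_succ]
        apply mul_le_mul_of_nonneg_left _ (by positivity)
        linarith
      calc 1 * ((J : ℝ) ^ (k + 1) * ((J : ℝ) + 1) ^ (k + 1)) =
            (J : ℝ) ^ (k + 1) * ((J : ℝ) + 1) ^ (k + 1) := one_mul _
        _ ≤ (J : ℝ) ^ k * (J + 1) * ((J : ℝ) + 1) ^ (k + 1) :=
            mul_le_mul_of_nonneg_right h5 (by positivity)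
        _ = (J : ℝ) ^ k * ((J : ℝ) + 1) ^ (k + 2) := by ring
        _ ≤ (((J : ℝ) + 1) ^ (k + 1) - (J : ℝ) ^ (k + 1)) * ((J : ℝ) + 1) ^ (k + 2) :=
            mul_le_mul_of_nonneg_right h4 (by positivity)
    push_cast
    linarith

theorem pow_tail' (q I J : ℕ) (hq : 2 ≤ q) (hI : 1 ≤ I) (ε : ℕ → ℝ) (hε : ∀ i, |ε i| ≤ 1) :
    ∑ i ∈ Ico I J, |ε i / ((i : ℝ) + 1) ^ q| ≤ 1 / (I : ℝ) ^ (q - 1) := by
  rcases le_total I J with h | h
  · have h1 := pow_tail q I J hq hI h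
    have h2 : ∑ i ∈ Ico I J, |ε i / ((i : ℝ) + 1) ^ q| ≤ ∑ i ∈ Ico I J, 1 / ((i : ℝ) + 1) ^ q := by
      refine sum_le_sum fun i _ => ?_
      rw [abs_div, abs_of_pos (by positivity : (0 : ℝ) < ((i : ℝ) + 1) ^ q)]
      exact div_le_div_of_nonneg_right (hε i) (by positivity)
    have h3 : (0 : ℝ) ≤ 1 / (J : ℝ) ^ (q - 1) := by positivity
    linarith
  · rw [Ico_eq_empty_of_le h, sum_empty]
    positivity

theorem conv (q : ℕ) (hq : 2 ≤ q) (ε : ℕ → ℝ) (hε : ∀ i, |ε i| ≤ 1) :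
    ∃ c : ℝ, ∀ I : ℕ, 1 ≤ I →
      |∑ i ∈ range I, ε i / ((i : ℝ) + 1) ^ q - c| ≤ 1 / (I : ℝ) ^ (q - 1) := by
  have key : ∀ I J : ℕ, 1 ≤ I → I ≤ J → |∑ i ∈ range J, ε i / ((i : ℝ) + 1) ^ q -
      ∑ i ∈ range I, ε i / ((i : ℝ) + 1) ^ q| ≤ 1 / (I : ℝ) ^ (q - 1) := by
    intro I J hI hIJ
    rw [← sum_range_add_sum_Ico _ hIJ, add_sub_cancel_left]
    exact (abs_sum_le_sum_abs _ _).trans (pow_tail' q I J hq hI ε hε)
  have hcau : CauchySeq (fun n : ℕ => ∑ i ∈ range (n + 1), ε i / ((i : ℝ) + 1) ^ q) := by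
    apply cauchySeq_of_le_tendsto_0' (fun n : ℕ => 1 / ((n : ℝ) + 1))
    · intro n m hnm
      rw [dist_comm, Real.dist_eq]
      refine (key (n + 1) (m + 1) (by omega) (by omega)).trans ?_
      push_cast
      apply div_le_div_of_nonneg_left (by norm_num) (by positivity)
      have h1 : (1 : ℝ) ≤ (n : ℝ) + 1 := by
        have : (0 : ℝ) ≤ n := Nat.cast_nonneg n
        linarith
      calc (n : ℝ) + 1 = ((n : ℝ) + 1) ^ 1 := (pow_one _).symm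
        _ ≤ ((n : ℝ) + 1) ^ (q - 1) := pow_le_pow_right₀ h1 (by omega)
    · exact tendsto_one_div_add_atTop_nhds_zero_nat
  obtain ⟨c, hc⟩ := cauchySeq_tendsto_of_complete hcau
  refine ⟨c, fun I hI => ?_⟩
  have h1 : Tendsto (fun n : ℕ => |∑ i ∈ range I, ε i / ((i : ℝ) + 1) ^ q -
      ∑ i ∈ range (n + 1), ε i / ((i : ℝ) + 1) ^ q|) atTop
      (𝓝 |∑ i ∈ range I, ε i / ((i : ℝ) + 1) ^ q - c|) :=
    (tendsto_const_nhds.sub hc).abs
  refine le_of_tendsto h1 ?_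
  filter_upwards [eventually_ge_atTop I] with n hn
  rw [abs_sub_comm]
  exact key I (n + 1) hI (by omega)

theorem sqrt_bounds (r : ℕ) (hr : 1 ≤ r) : 1 ≤ Nat.sqrt r ∧ ((Nat.sqrt r : ℕ) : ℝ) ≤ Real.sqrt r ∧
    Real.sqrt r ≤ 2 * ((Nat.sqrt r : ℕ) : ℝ) ∧ Real.sqrt r ≤ ((Nat.sqrt r : ℕ) : ℝ) + 1 := by
  have h1 : 1 ≤ Nat.sqrt r := Nat.sqrt_pos.2 hr
  have h2 : ((Nat.sqrt r : ℕ) : ℝ) ≤ Real.sqrt r := Real.nat_sqrt_le_real_sqrt
  have h3 : Real.sqrt r ≤ ((Nat.sqrt r : ℕ) : ℝ) + 1 := by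
    have h : (r : ℝ) ≤ (((Nat.sqrt r : ℕ) : ℝ) + 1) ^ 2 := by
      have : r < (Nat.sqrt r + 1) * (Nat.sqrt r + 1) := Nat.lt_succ_sqrt r
      have h3 : (r : ℝ) < ((Nat.sqrt r : ℕ) + 1) * ((Nat.sqrt r : ℕ) + 1) := by exact_mod_cast this
      nlinarith
    calc Real.sqrt r ≤ Real.sqrt ((((Nat.sqrt r : ℕ) : ℝ) + 1) ^ 2) := Real.sqrt_le_sqrt h
      _ = ((Nat.sqrt r : ℕ) : ℝ) + 1 := Real.sqrt_sq (by positivity)
  have h4 : (1 : ℝ) ≤ ((Nat.sqrt r : ℕ) : ℝ) := by exact_mod_cast h1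
  exact ⟨h1, h2, by linarith, h3⟩

theorem sqrt_pow_eq (r k : ℕ) (_hr : 1 ≤ r) : (Real.sqrt r) ^ k = (r : ℝ) ^ ((k : ℝ) / 2) := by
  have hr' : (0 : ℝ) ≤ r := Nat.cast_nonneg r
  rw [Real.sqrt_eq_rpow, ← Real.rpow_natCast, ← Real.rpow_mul hr']
  congr 1
  ring

theorem A1 (q : ℕ) (hq : 2 ≤ q) (ε : ℕ → ℝ) (hε : ∀ i, |ε i| ≤ 1) :
    Ex (-((q : ℝ) - 1) / 2) (fun r : ℕ => ((∑ i ∈ range (Nat.sqrt r), ε i / ((i : ℝ) + 1) ^ q : ℝ) : ℂ)) := by
  obtain ⟨c, hc⟩ := conv q hq ε hε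
  have h1 : Ex (-((q : ℝ) - 1) / 2) (fun r : ℕ =>
      (((∑ i ∈ range (Nat.sqrt r), ε i / ((i : ℝ) + 1) ^ q) - c : ℝ) : ℂ)) := by
    refine Ex.err (2 ^ (q - 1)) ?_
    filter_upwards [eventually_ge_atTop 1] with r hr
    obtain ⟨h1, h2, h3, h4⟩ := sqrt_bounds r hr
    have hr' : (0 : ℝ) < r := by exact_mod_cast hr
    have hs : 0 < Real.sqrt r := Real.sqrt_pos.2 hr'
    rw [Complex.norm_real, Real.norm_eq_abs]
    refine (hc _ h1).trans ?_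
    have h5 : (Real.sqrt r / 2) ^ (q - 1) ≤ ((Nat.sqrt r : ℕ) : ℝ) ^ (q - 1) :=
      pow_le_pow_left₀ (by positivity) (by linarith) _
    have h6 : 1 / ((Nat.sqrt r : ℕ) : ℝ) ^ (q - 1) ≤ 1 / (Real.sqrt r / 2) ^ (q - 1) :=
      div_le_div_of_nonneg_left (by norm_num) (by positivity) h5
    refine h6.trans (le_of_eq ?_)
    have h7 : (r : ℝ) ^ (-((q : ℝ) - 1) / 2) = ((Real.sqrt r) ^ (q - 1))⁻¹ := by
      rw [sqrt_pow_eq r (q - 1) hr, ← Real.rpow_neg hr'.le]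
      congr 1
      rw [Nat.cast_sub (by omega)]
      push_cast
      ring
    rw [h7, div_pow, one_div_div]
    rfl
  have h2 : Ex (-((q : ℝ) - 1) / 2) (fun r : ℕ => (c : ℂ) * (((r : ℝ) ^ (0 : ℝ) : ℝ) : ℂ) * 1 ^ r) :=
    Ex.term _ _ _ norm_one
  refine Ex.congr (Ex.add h1 h2) (Eventually.of_forall fun r => ?_)
  rw [Real.rpow_zero]
  push_cast
  ring

theorem log_sqrt_bounds (r : ℕ) (hr : 1 ≤ r) :
    |Real.log (((Nat.sqrt r : ℕ) : ℝ) + 1) - Real.log r / 2| ≤ 1 := by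
  obtain ⟨h1, h2, h3, h4⟩ := sqrt_bounds r hr
  have hr' : (0 : ℝ) < r := by exact_mod_cast hr
  have hs : 0 < Real.sqrt r := Real.sqrt_pos.2 hr'
  have h5 : Real.log r / 2 = Real.log (Real.sqrt r) := by
    rw [Real.log_sqrt hr'.le]
  rw [h5, abs_le]
  have h6 := Real.log_le_log hs h4
  have h1' : (1 : ℝ) ≤ ((Nat.sqrt r : ℕ) : ℝ) := by exact_mod_cast h1
  have h7 : Real.log (((Nat.sqrt r : ℕ) : ℝ) + 1) ≤ Real.log (2 * Real.sqrt r) :=
    Real.log_le_log (by linarith) (by linarith)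
  rw [Real.log_mul (by norm_num) hs.ne'] at h7
  have h8 : Real.log 2 ≤ 1 := by linarith [Real.log_two_lt_d9]
  constructor <;> linarith

theorem A2 (ε : ℕ → ℝ) (lam D : ℝ)
    (hlam : ∀ I : ℕ, |∑ i ∈ range I, ε i / ((i : ℝ) + 1) - lam * Real.log ((I : ℝ) + 1)| ≤ D) :
    Ex 0 (fun r : ℕ => ((∑ i ∈ range (Nat.sqrt r), ε i / ((i : ℝ) + 1) -
      lam / 2 * Real.log r : ℝ) : ℂ)) := by
  refine Ex.err (D + |lam|) ?_
  filter_upwards [eventually_ge_atTop 1] with r hr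
  rw [Complex.norm_real, Real.norm_eq_abs, Real.rpow_zero, mul_one]
  have h1 := hlam (Nat.sqrt r)
  have h2 := log_sqrt_bounds r hr
  have e : ∑ i ∈ range (Nat.sqrt r), ε i / ((i : ℝ) + 1) - lam / 2 * Real.log r =
      (∑ i ∈ range (Nat.sqrt r), ε i / ((i : ℝ) + 1) -
        lam * Real.log (((Nat.sqrt r : ℕ) : ℝ) + 1)) +
      lam * (Real.log (((Nat.sqrt r : ℕ) : ℝ) + 1) - Real.log r / 2) := by ring
  rw [e]
  refine (abs_add_le _ _).trans (add_le_add h1 ?_)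
  rw [abs_mul]
  calc |lam| * |Real.log (((Nat.sqrt r : ℕ) : ℝ) + 1) - Real.log r / 2| ≤ |lam| * 1 :=
        mul_le_mul_of_nonneg_left h2 (abs_nonneg _)
    _ = |lam| := mul_one _

/-- The sums with a quadratic phase. -/
noncomputable def fq (ε : ℕ → ℝ) (n : ℝ) (q : ℕ) (r : ℕ) : ℂ :=
  ∑ i ∈ range (Nat.sqrt r), ((ε i * (r / ((i : ℝ) + 1)) ^ q : ℝ) : ℂ) *
    E (n / (2 * r) * ((i : ℝ) + 1) ^ 2)

/-- The coefficient of the logarithm. -/
noncomputable def lc (lam n : ℝ) (q : ℕ) : ℂ :=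
  if Odd q then (lam / 2 : ℝ) * (((Real.pi : ℂ) * Complex.I) ^ ((q - 1) / 2) /
    (((q - 1) / 2).factorial : ℂ) * ((n / 2 : ℝ) : ℂ) ^ ((q - 1) / 2)) else 0

theorem fq_ex (ε : ℕ → ℝ) (hε : ∀ i, |ε i| ≤ 1) (lam D : ℝ)
    (hlam : ∀ I : ℕ, |∑ i ∈ range I, ε i / ((i : ℝ) + 1) - lam * Real.log ((I : ℝ) + 1)| ≤ D)
    (n : ℝ) (q : ℕ) (hq : 1 ≤ q) :
    Ex (((q : ℝ) + 1) / 2) (fun r : ℕ => fq ε n q r -
      lc lam n q * (((r : ℝ) ^ (((q : ℝ) + 1) / 2) * Real.log r : ℝ) : ℂ)) := by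
  set P := (q + 1) / 2 with hP
  -- the main terms
  have hmain : ∀ p ∈ range P, Ex (((q : ℝ) + 1) / 2) (fun r : ℕ =>
      (((Real.pi : ℂ) * Complex.I) ^ p / (p.factorial : ℂ) * ((n / 2 : ℝ) : ℂ) ^ p) *
        ((((r : ℝ) ^ ((q : ℝ) - p) : ℝ) : ℂ) * 1 ^ r *
          ((∑ i ∈ range (Nat.sqrt r), ε i / ((i : ℝ) + 1) ^ (q - 2 * p) : ℝ) : ℂ)) -
      (if q - 2 * p = 1 then lc lam n q * (((r : ℝ) ^ (((q : ℝ) + 1) / 2) * Real.log r : ℝ) : ℂ)
        else 0)) := by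
    intro p hp
    rw [mem_range] at hp
    have h2p : 2 * p < q := by omega
    by_cases h1 : q - 2 * p = 1
    · simp only [if_pos h1, h1, pow_one]
      have h2 := ((A2 ε lam D hlam).mul_term ((q : ℝ) - p) 1 norm_one).const_mul
        (((Real.pi : ℂ) * Complex.I) ^ p / (p.factorial : ℂ) * ((n / 2 : ℝ) : ℂ) ^ p)
      have hqp : (q : ℝ) = 2 * p + 1 := by
        have : q = 2 * p + 1 := by omega
        rw [this]; push_cast; ring
      have e1 : (0 : ℝ) + ((q : ℝ) - p) = ((q : ℝ) + 1) / 2 := by rw [hqp]; ring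
      have e2 : (q : ℝ) - p = ((q : ℝ) + 1) / 2 := by rw [hqp]; ring
      rw [e1] at h2
      refine Ex.congr h2 (Eventually.of_forall fun r => ?_)
      have hodd : Odd q := ⟨p, by omega⟩
      have hp2 : (q - 1) / 2 = p := by omega
      unfold lc
      rw [if_pos hodd, hp2, ← e2]
      push_cast
      ring
    · simp only [if_neg h1, sub_zero]
      have h2 := ((A1 (q - 2 * p) (by omega) ε hε).mul_term ((q : ℝ) - p) 1 norm_one).const_mul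
        (((Real.pi : ℂ) * Complex.I) ^ p / (p.factorial : ℂ) * ((n / 2 : ℝ) : ℂ) ^ p)
      have e1 : -(((q - 2 * p : ℕ) : ℝ) - 1) / 2 + ((q : ℝ) - p) = ((q : ℝ) + 1) / 2 := by
        rw [Nat.cast_sub (by omega)]; push_cast; ring
      rw [e1] at h2
      exact h2
  have hsum := Ex.sum (range P) _ hmain
  -- the error
  have herr : Ex (((q : ℝ) + 1) / 2) (fun r : ℕ => ∑ i ∈ range (Nat.sqrt r),
      ((ε i * (r / ((i : ℝ) + 1)) ^ q : ℝ) : ℂ) * (E (n / (2 * r) * ((i : ℝ) + 1) ^ 2) -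
        ∑ p ∈ range P, (((Real.pi : ℂ) * Complex.I) ^ p / (p.factorial : ℂ)) *
          (((n / (2 * r) * ((i : ℝ) + 1) ^ 2 : ℝ) : ℂ) ^ p))) := by
    refine Ex.err ((Real.pi * (|n| / 2)) ^ P * Real.exp (Real.pi * (|n| / 2))) ?_
    filter_upwards [eventually_ge_atTop 1] with r hr
    obtain ⟨h1, h2, h3, h4⟩ := sqrt_bounds r hr
    have hr' : (0 : ℝ) < r := by exact_mod_cast hr
    have hs : 0 < Real.sqrt r := Real.sqrt_pos.2 hr'
    have hpi := Real.pi_pos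
    set K := (Real.pi * (|n| / 2)) ^ P * Real.exp (Real.pi * (|n| / 2)) with hK
    have hK0 : 0 ≤ K := by rw [hK]; positivity
    have hterm : ∀ i ∈ range (Nat.sqrt r), ‖((ε i * (r / ((i : ℝ) + 1)) ^ q : ℝ) : ℂ) *
        (E (n / (2 * r) * ((i : ℝ) + 1) ^ 2) -
        ∑ p ∈ range P, (((Real.pi : ℂ) * Complex.I) ^ p / (p.factorial : ℂ)) *
          (((n / (2 * r) * ((i : ℝ) + 1) ^ 2 : ℝ) : ℂ) ^ p))‖ ≤ K * Real.sqrt r ^ q := by
      intro i hi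
      rw [mem_range] at hi
      have hi1 : ((i : ℝ) + 1) ≤ Real.sqrt r := by
        have : i + 1 ≤ Nat.sqrt r := hi
        have h5 : ((i : ℝ) + 1) ≤ ((Nat.sqrt r : ℕ) : ℝ) := by exact_mod_cast this
        linarith
      have hi0 : (0 : ℝ) < (i : ℝ) + 1 := by positivity
      have hss : Real.sqrt r * Real.sqrt r = r := Real.mul_self_sqrt hr'.le
      set w := Real.sqrt r / ((i : ℝ) + 1) with hw
      have hw1 : 1 ≤ w := by rw [hw, le_div_iff₀ hi0]; linarith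
      have hw0 : 0 < w := by linarith
      have ht := E_taylor (n / (2 * r) * ((i : ℝ) + 1) ^ 2) P
      have habs : |n / (2 * r) * ((i : ℝ) + 1) ^ 2| = |n| / 2 * (w ^ 2)⁻¹ := by
        rw [abs_mul, abs_div, abs_of_pos (by positivity : (0 : ℝ) < 2 * r),
          abs_of_pos (by positivity : (0 : ℝ) < ((i : ℝ) + 1) ^ 2), hw, div_pow, sq (Real.sqrt r), hss]
        field_simp
      rw [habs] at ht
      have hw2 : (w ^ 2)⁻¹ ≤ 1 := inv_le_one_of_one_le₀ (one_le_pow₀ hw1)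
      have hexp : Real.exp (Real.pi * (|n| / 2 * (w ^ 2)⁻¹)) ≤ Real.exp (Real.pi * (|n| / 2)) := by
        apply Real.exp_le_exp.2
        apply mul_le_mul_of_nonneg_left _ hpi.le
        calc |n| / 2 * (w ^ 2)⁻¹ ≤ |n| / 2 * 1 := mul_le_mul_of_nonneg_left hw2 (by positivity)
          _ = |n| / 2 := mul_one _
      have hpw : (Real.pi * (|n| / 2 * (w ^ 2)⁻¹)) ^ P = (Real.pi * (|n| / 2)) ^ P * (w ^ (2 * P))⁻¹ := by
        rw [← mul_assoc, mul_pow _ ((w ^ 2)⁻¹), inv_pow, ← pow_mul]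
      rw [hpw] at ht
      rw [norm_mul, Complex.norm_real, Real.norm_eq_abs, abs_mul,
        abs_of_nonneg (by positivity : (0 : ℝ) ≤ (r / ((i : ℝ) + 1)) ^ q)]
      have hrw : (r / ((i : ℝ) + 1)) ^ q = Real.sqrt r ^ q * w ^ q := by
        rw [hw, ← mul_pow]
        congr 1
        rw [← mul_div_assoc, hss]
      rw [hrw]
      have hwq : w ^ q * (w ^ (2 * P))⁻¹ ≤ 1 := by
        rw [← div_eq_mul_inv, div_le_one (by positivity)]
        exact pow_le_pow_right₀ hw1 (by omega)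
      calc |ε i| * (Real.sqrt r ^ q * w ^ q) * ‖E (n / (2 * r) * ((i : ℝ) + 1) ^ 2) -
            ∑ p ∈ range P, (((Real.pi : ℂ) * Complex.I) ^ p / (p.factorial : ℂ)) *
            (((n / (2 * r) * ((i : ℝ) + 1) ^ 2 : ℝ) : ℂ) ^ p)‖
          ≤ 1 * (Real.sqrt r ^ q * w ^ q) * ((Real.pi * (|n| / 2)) ^ P * (w ^ (2 * P))⁻¹ *
              Real.exp (Real.pi * (|n| / 2))) := by
            apply mul_le_mul
            · exact mul_le_mul_of_nonneg_right (hε i) (by positivity)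
            · refine ht.trans ?_
              apply mul_le_mul_of_nonneg_left hexp
              positivity
            · exact norm_nonneg _
            · positivity
        _ = K * Real.sqrt r ^ q * (w ^ q * (w ^ (2 * P))⁻¹) := by rw [hK]; ring
        _ ≤ K * Real.sqrt r ^ q * 1 := mul_le_mul_of_nonneg_left hwq (by positivity)
        _ = K * Real.sqrt r ^ q := mul_one _
    refine (norm_sum_le _ _).trans ((sum_le_sum hterm).trans ?_)
    rw [sum_const, card_range, nsmul_eq_mul]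
    have e : (r : ℝ) ^ (((q : ℝ) + 1) / 2) = Real.sqrt r ^ (q + 1) := by
      rw [sqrt_pow_eq r (q + 1) hr]; push_cast; rfl
    rw [e, pow_succ]
    calc ((Nat.sqrt r : ℕ) : ℝ) * (K * Real.sqrt r ^ q) ≤ Real.sqrt r * (K * Real.sqrt r ^ q) :=
          mul_le_mul_of_nonneg_right h2 (by positivity)
      _ = K * (Real.sqrt r ^ q * Real.sqrt r) := by ring
  refine Ex.congr (Ex.add hsum herr) ?_
  filter_upwards [eventually_ge_atTop 1] with r hr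
  have hr' : (0 : ℝ) < r := by exact_mod_cast hr
  -- the logarithm occurs for exactly one p if q is odd
  have hlog : ∑ p ∈ range P, (if q - 2 * p = 1 then
      lc lam n q * (((r : ℝ) ^ (((q : ℝ) + 1) / 2) * Real.log r : ℝ) : ℂ) else 0) =
      lc lam n q * (((r : ℝ) ^ (((q : ℝ) + 1) / 2) * Real.log r : ℝ) : ℂ) := by
    by_cases hodd : Odd q
    · obtain ⟨p, hp⟩ := hodd
      have h1 : ∀ p' ∈ range P, (if q - 2 * p' = 1 then
          lc lam n q * (((r : ℝ) ^ (((q : ℝ) + 1) / 2) * Real.log r : ℝ) : ℂ) else 0) =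
          if p' = p then lc lam n q * (((r : ℝ) ^ (((q : ℝ) + 1) / 2) * Real.log r : ℝ) : ℂ) else 0 := by
        intro p' hp'
        rw [mem_range] at hp'
        by_cases h : p' = p
        · rw [if_pos h, if_pos (by omega)]
        · rw [if_neg h, if_neg (by omega)]
      rw [sum_congr rfl h1, sum_ite_eq' (range P) p, if_pos (by rw [mem_range]; omega)]
    · have h1 : lc lam n q = 0 := by unfold lc; rw [if_neg hodd]
      rw [h1]
      simp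
  rw [sum_sub_distrib, hlog]
  have hfq : fq ε n q r = ∑ p ∈ range P,
      (((Real.pi : ℂ) * Complex.I) ^ p / (p.factorial : ℂ) * ((n / 2 : ℝ) : ℂ) ^ p) *
        ((((r : ℝ) ^ ((q : ℝ) - p) : ℝ) : ℂ) * 1 ^ r *
          ((∑ i ∈ range (Nat.sqrt r), ε i / ((i : ℝ) + 1) ^ (q - 2 * p) : ℝ) : ℂ)) +
      ∑ i ∈ range (Nat.sqrt r),
      ((ε i * (r / ((i : ℝ) + 1)) ^ q : ℝ) : ℂ) * (E (n / (2 * r) * ((i : ℝ) + 1) ^ 2) -
        ∑ p ∈ range P, (((Real.pi : ℂ) * Complex.I) ^ p / (p.factorial : ℂ)) *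
          (((n / (2 * r) * ((i : ℝ) + 1) ^ 2 : ℝ) : ℂ) ^ p)) := by
    have h1 : ∑ p ∈ range P,
      (((Real.pi : ℂ) * Complex.I) ^ p / (p.factorial : ℂ) * ((n / 2 : ℝ) : ℂ) ^ p) *
        ((((r : ℝ) ^ ((q : ℝ) - p) : ℝ) : ℂ) * 1 ^ r *
          ((∑ i ∈ range (Nat.sqrt r), ε i / ((i : ℝ) + 1) ^ (q - 2 * p) : ℝ) : ℂ)) =
        ∑ i ∈ range (Nat.sqrt r), ((ε i * (r / ((i : ℝ) + 1)) ^ q : ℝ) : ℂ) *
          ∑ p ∈ range P, (((Real.pi : ℂ) * Complex.I) ^ p / (p.factorial : ℂ)) *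
          (((n / (2 * r) * ((i : ℝ) + 1) ^ 2 : ℝ) : ℂ) ^ p) := by
      have h2 : ∀ i ∈ range (Nat.sqrt r), ((ε i * (r / ((i : ℝ) + 1)) ^ q : ℝ) : ℂ) *
          ∑ p ∈ range P, (((Real.pi : ℂ) * Complex.I) ^ p / (p.factorial : ℂ)) *
          (((n / (2 * r) * ((i : ℝ) + 1) ^ 2 : ℝ) : ℂ) ^ p) =
          ∑ p ∈ range P, ((ε i * (r / ((i : ℝ) + 1)) ^ q : ℝ) : ℂ) *
            ((((Real.pi : ℂ) * Complex.I) ^ p / (p.factorial : ℂ)) *
          (((n / (2 * r) * ((i : ℝ) + 1) ^ 2 : ℝ) : ℂ) ^ p)) := fun i _ => mul_sum _ _ _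
      rw [sum_congr rfl h2, sum_comm]
      refine sum_congr rfl fun p hp => ?_
      rw [mem_range] at hp
      rw [Complex.ofReal_sum, mul_sum, mul_sum]
      refine sum_congr rfl fun i _ => ?_
      have hi0 : ((i : ℝ) + 1) ≠ 0 := by positivity
      have h3 : ε i * (r / ((i : ℝ) + 1)) ^ q * (n / (2 * r) * ((i : ℝ) + 1) ^ 2) ^ p =
          (n / 2) ^ p * ((r : ℝ) ^ ((q : ℝ) - p) * (ε i / ((i : ℝ) + 1) ^ (q - 2 * p))) := by
        obtain ⟨t, ht⟩ : ∃ t, q = 2 * p + t := ⟨q - 2 * p, by omega⟩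
        have h4 : q - 2 * p = t := by omega
        have h5 : (q : ℝ) - p = ((p + t : ℕ) : ℝ) := by rw [ht]; push_cast; ring
        rw [h4, h5, Real.rpow_natCast, ht]
        have hr0 : (r : ℝ) ≠ 0 := hr'.ne'
        generalize (i : ℝ) + 1 = y at hi0 ⊢
        rw [div_pow, mul_pow, div_pow, div_pow, mul_pow]
        field_simp
        ring
      have h6 : ∀ (A B : ℝ) (c : ℂ), (A : ℂ) * (c * (B : ℂ) ^ p) = c * ((A * B ^ p : ℝ) : ℂ) := by
        intro A B c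
        push_cast
        ring
      rw [h6, h3]
      push_cast
      ring
    rw [h1, ← sum_add_distrib]
    unfold fq
    refine sum_congr rfl fun i _ => ?_
    ring
  rw [hfq]
  ring

end Pool.Agent.H905.WG
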