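import Mathlib
import Pool.Agent.H905.WG.Sums

/-!
# Sums with a singular coefficient and a quadratic phase
-/

set_option autoImplicit false

open Finset Filter Topology

namespace Pool.Agent.H905.WG

open H524R3

theorem log_absorb (s t : ℝ) (hst : s < t) (c : ℂ) :
    Ex t (fun r : ℕ => c * (((r : ℝ) ^ s * Real.log r : ℝ) : ℂ)) := by
  refine Ex.err (‖c‖ * (1 / (t - s))) ?_
  filter_upwards [eventually_ge_atTop 1] with r hr
  have hr' : (1 : ℝ) ≤ r := by exact_mod_cast hr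
  have hr0 : (0 : ℝ) < r := by linarith
  have h1 := Real.log_le_rpow_div hr0.le (sub_pos.2 hst)
  have h2 : 0 ≤ (r : ℝ) ^ s := Real.rpow_nonneg hr0.le _
  have h3 : (r : ℝ) ^ t = (r : ℝ) ^ s * (r : ℝ) ^ (t - s) := by
    rw [← Real.rpow_add hr0]; congr 1; ring
  rw [norm_mul, Complex.norm_real, Real.norm_eq_abs,
    abs_of_nonneg (mul_nonneg h2 (Real.log_nonneg hr')), mul_assoc]
  apply mul_le_mul_of_nonneg_left _ (norm_nonneg c)
  rw [h3]
  calc (r : ℝ) ^ s * Real.log r ≤ (r : ℝ) ^ s * ((r : ℝ) ^ (t - s) / (t - s)) :=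
        mul_le_mul_of_nonneg_left h1 h2
    _ = 1 / (t - s) * ((r : ℝ) ^ s * (r : ℝ) ^ (t - s)) := by ring

theorem fq_ex_lower (ε : ℕ → ℝ) (hε : ∀ i, |ε i| ≤ 1) (lam D : ℝ)
    (hlam : ∀ I : ℕ, |∑ i ∈ range I, ε i / ((i : ℝ) + 1) - lam * Real.log ((I : ℝ) + 1)| ≤ D)
    (n : ℝ) (q : ℕ) (hq : 1 ≤ q) (t : ℝ) (ht : ((q : ℝ) + 1) / 2 < t) :
    Ex t (fun r : ℕ => fq ε n q r) := by
  have h1 := (fq_ex ε hε lam D hlam n q hq).mono ht.le
  have h2 := log_absorb _ _ ht (lc lam n q)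
  refine Ex.congr (Ex.add h1 h2) (Eventually.of_forall fun r => ?_)
  ring

theorem phi_ex (ε : ℕ → ℝ) (hε : ∀ i, |ε i| ≤ 1) (lam D : ℝ)
    (hlam : ∀ I : ℕ, |∑ i ∈ range I, ε i / ((i : ℝ) + 1) - lam * Real.log ((I : ℝ) + 1)| ≤ D)
    (n : ℝ) (m : ℕ) (hm : 3 ≤ m) (F : ℝ → ℝ) (hF : AnalyticAt ℝ F 0) (N : ℕ → ℕ)
    (Φ : ℕ → ℕ → ℝ) (K : ℝ) (hK0 : 0 ≤ K) (hN : ∀ᶠ r in atTop, Nat.sqrt r ≤ N r)
    (hΦ : ∀ᶠ r : ℕ in atTop, ∀ i < Nat.sqrt r, Φ r i = F (((i : ℝ) + 1) / r) * (r / ((i : ℝ) + 1)) ^ m)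
    (hK : ∀ᶠ r : ℕ in atTop, ∀ i < N r, |Φ r i| ≤ K * (r / ((i : ℝ) + 1)) ^ m) :
    Ex (((m : ℝ) + 1) / 2) (fun r : ℕ => ∑ i ∈ range (N r), ((ε i * Φ r i : ℝ) : ℂ) *
        E (n / (2 * r) * ((i : ℝ) + 1) ^ 2) -
      (F 0 : ℂ) * lc lam n m * (((r : ℝ) ^ (((m : ℝ) + 1) / 2) * Real.log r : ℝ) : ℂ)) := by
  obtain ⟨p, hp⟩ := hF
  have hO := hp.isBigO_sub_partialSum_pow (m - 1)
  obtain ⟨C, hC⟩ := hO.bound
  obtain ⟨δ, hδ, hball⟩ := Metric.eventually_nhds_iff.1 hC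
  -- the coefficient of degree zero
  have hc0 : p.coeff 0 = F 0 := by
    rw [FormalMultilinearSeries.coeff]
    exact hp.coeff_zero _
  have htaylor : ∀ y : ℝ, |y| < δ →
      |F y - ∑ k ∈ range (m - 1), p.coeff k * y ^ k| ≤ C * |y| ^ (m - 1) := by
    intro y hy
    have h1 := hball (y := y) (by rwa [Real.dist_eq, sub_zero])
    rw [zero_add, Real.norm_eq_abs, Real.norm_eq_abs, Real.norm_eq_abs] at h1
    rw [abs_of_nonneg (by positivity : (0 : ℝ) ≤ |y| ^ (m - 1))] at h1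
    have h2 : p.partialSum (m - 1) y = ∑ k ∈ range (m - 1), p.coeff k * y ^ k := by
      unfold FormalMultilinearSeries.partialSum
      refine sum_congr rfl fun k _ => ?_
      rw [FormalMultilinearSeries.apply_eq_pow_smul_coeff, smul_eq_mul, mul_comm]
    rw [h2] at h1
    exact h1
  have hC0 : 0 ≤ |C| := abs_nonneg C
  -- the main terms
  have hmain : ∀ k ∈ range (m - 1), Ex (((m : ℝ) + 1) / 2) (fun r : ℕ =>
      (p.coeff k : ℂ) * fq ε n (m - k) r -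
        (if k = 0 then (F 0 : ℂ) * lc lam n m * (((r : ℝ) ^ (((m : ℝ) + 1) / 2) * Real.log r : ℝ) : ℂ)
          else 0)) := by
    intro k hk
    rw [mem_range] at hk
    by_cases h0 : k = 0
    · subst h0
      simp only [↓reduceIte, Nat.sub_zero, hc0]
      refine Ex.congr ((fq_ex ε hε lam D hlam n m (by omega)).const_mul (F 0 : ℂ))
        (Eventually.of_forall fun r => ?_)
      ring
    · simp only [if_neg h0, sub_zero]
      refine (fq_ex_lower ε hε lam D hlam n (m - k) (by omega) _ ?_).const_mul _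
      rw [Nat.cast_sub (by omega)]
      have : (1 : ℝ) ≤ k := by
        have : 1 ≤ k := by omega
        exact_mod_cast this
      linarith
  have hsum := Ex.sum (range (m - 1)) _ hmain
  -- the remainder of the Taylor expansion
  have hrem : Ex (((m : ℝ) + 1) / 2) (fun r : ℕ => ∑ i ∈ range (Nat.sqrt r),
      ((ε i * (Φ r i - ∑ k ∈ range (m - 1), p.coeff k * (r / ((i : ℝ) + 1)) ^ (m - k)) : ℝ) : ℂ) *
        E (n / (2 * r) * ((i : ℝ) + 1) ^ 2)) := by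
    refine Ex.err |C| ?_
    have hlim : Tendsto (fun r : ℕ => (Real.sqrt r)⁻¹) atTop (𝓝 0) := by
      have h1 : Tendsto (fun r : ℕ => Real.sqrt (r : ℝ)) atTop atTop :=
        Real.tendsto_sqrt_atTop.comp tendsto_natCast_atTop_atTop
      exact h1.inv_tendsto_atTop
    filter_upwards [hΦ, eventually_ge_atTop 1, hlim.eventually (eventually_lt_nhds hδ)] with r h1 hr hδr
    obtain ⟨hs1, hs2, hs3, hs4⟩ := sqrt_bounds r hr
    have hr1 : (1 : ℝ) ≤ r := by exact_mod_cast hr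
    have hr' : (0 : ℝ) < r := by linarith
    have hs : 0 < Real.sqrt r := Real.sqrt_pos.2 hr'
    have hss : Real.sqrt r * Real.sqrt r = r := Real.mul_self_sqrt hr'.le
    have hterm : ∀ i ∈ range (Nat.sqrt r), ‖((ε i * (Φ r i -
        ∑ k ∈ range (m - 1), p.coeff k * (r / ((i : ℝ) + 1)) ^ (m - k)) : ℝ) : ℂ) *
        E (n / (2 * r) * ((i : ℝ) + 1) ^ 2)‖ ≤ |C| * r := by
      intro i hi
      rw [mem_range] at hi
      have hi1 : ((i : ℝ) + 1) ≤ Real.sqrt r := by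
        have : i + 1 ≤ Nat.sqrt r := hi
        have h5 : ((i : ℝ) + 1) ≤ ((Nat.sqrt r : ℕ) : ℝ) := by exact_mod_cast this
        linarith
      have hi0 : (0 : ℝ) < (i : ℝ) + 1 := by positivity
      have hy : |((i : ℝ) + 1) / r| < δ := by
        rw [abs_of_pos (by positivity)]
        refine lt_of_le_of_lt ?_ hδr
        have e : (Real.sqrt r)⁻¹ * r = Real.sqrt r := by
          rw [inv_mul_eq_div, div_eq_iff hs.ne', hss]
        rw [div_le_iff₀ hr', e]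
        exact hi1
      have h2 := htaylor _ hy
      rw [norm_mul, E_norm, mul_one, Complex.norm_real, Real.norm_eq_abs, abs_mul, h1 i hi]
      have h3 : F (((i : ℝ) + 1) / r) * (r / ((i : ℝ) + 1)) ^ m -
          ∑ k ∈ range (m - 1), p.coeff k * (r / ((i : ℝ) + 1)) ^ (m - k) =
          (F (((i : ℝ) + 1) / r) - ∑ k ∈ range (m - 1), p.coeff k * (((i : ℝ) + 1) / r) ^ k) *
            (r / ((i : ℝ) + 1)) ^ m := by
        rw [sub_mul, sum_mul]
        congr 1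
        refine sum_congr rfl fun k hk => ?_
        rw [mem_range] at hk
        obtain ⟨t, ht⟩ : ∃ t, m = k + t := ⟨m - k, by omega⟩
        have h4 : m - k = t := by omega
        rw [h4, ht, pow_add, mul_assoc (p.coeff k), ← mul_assoc ((((i : ℝ) + 1) / r) ^ k), ← mul_pow]
        have h5 : ((i : ℝ) + 1) / r * (r / ((i : ℝ) + 1)) = 1 := by field_simp
        rw [h5, one_pow, one_mul]
      rw [h3, abs_mul, abs_of_nonneg (by positivity : (0 : ℝ) ≤ (r / ((i : ℝ) + 1)) ^ m)]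
      have h6 : |F (((i : ℝ) + 1) / r) - ∑ k ∈ range (m - 1), p.coeff k * (((i : ℝ) + 1) / r) ^ k| ≤
          |C| * (((i : ℝ) + 1) / r) ^ (m - 1) := by
        refine h2.trans ?_
        rw [abs_of_pos (by positivity : (0 : ℝ) < ((i : ℝ) + 1) / r)]
        exact mul_le_mul_of_nonneg_right (le_abs_self C) (by positivity)
      have h7 : (((i : ℝ) + 1) / r) ^ (m - 1) * (r / ((i : ℝ) + 1)) ^ m = r / ((i : ℝ) + 1) := by
        obtain ⟨t, ht⟩ : ∃ t, m = t + 1 := ⟨m - 1, by omega⟩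
        have h4 : m - 1 = t := by omega
        rw [h4, ht, pow_succ (r / ((i : ℝ) + 1)), ← mul_assoc, ← mul_pow]
        have h5 : ((i : ℝ) + 1) / r * (r / ((i : ℝ) + 1)) = 1 := by field_simp
        rw [h5, one_pow, one_mul]
      have h8 : r / ((i : ℝ) + 1) ≤ r := by
        apply div_le_self hr'.le
        have : (0 : ℝ) ≤ i := Nat.cast_nonneg i
        linarith
      calc |ε i| * (|F (((i : ℝ) + 1) / r) -
            ∑ k ∈ range (m - 1), p.coeff k * (((i : ℝ) + 1) / r) ^ k| * (r / ((i : ℝ) + 1)) ^ m)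
          ≤ 1 * ((|C| * (((i : ℝ) + 1) / r) ^ (m - 1)) * (r / ((i : ℝ) + 1)) ^ m) := by
            apply mul_le_mul (hε i) _ (by positivity) (by norm_num)
            exact mul_le_mul_of_nonneg_right h6 (by positivity)
        _ = |C| * ((((i : ℝ) + 1) / r) ^ (m - 1) * (r / ((i : ℝ) + 1)) ^ m) := by ring
        _ = |C| * (r / ((i : ℝ) + 1)) := by rw [h7]
        _ ≤ |C| * r := mul_le_mul_of_nonneg_left h8 hC0
    refine (norm_sum_le _ _).trans ((sum_le_sum hterm).trans ?_)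
    rw [sum_const, card_range, nsmul_eq_mul]
    have h9 : (r : ℝ) ^ (2 : ℕ) ≤ (r : ℝ) ^ (((m : ℝ) + 1) / 2) := by
      rw [← Real.rpow_natCast]
      apply Real.rpow_le_rpow_of_exponent_le hr1
      have : (3 : ℝ) ≤ m := by exact_mod_cast hm
      push_cast
      linarith
    have h10 : ((Nat.sqrt r : ℕ) : ℝ) ≤ r := by exact_mod_cast Nat.sqrt_le_self r
    calc ((Nat.sqrt r : ℕ) : ℝ) * (|C| * r) ≤ r * (|C| * r) :=
          mul_le_mul_of_nonneg_right h10 (by positivity)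
      _ = |C| * (r : ℝ) ^ 2 := by ring
      _ ≤ |C| * (r : ℝ) ^ (((m : ℝ) + 1) / 2) := mul_le_mul_of_nonneg_left h9 hC0
  -- the tail
  have htail : Ex (((m : ℝ) + 1) / 2) (fun r : ℕ => ∑ i ∈ Ico (Nat.sqrt r) (N r),
      ((ε i * Φ r i : ℝ) : ℂ) * E (n / (2 * r) * ((i : ℝ) + 1) ^ 2)) := by
    refine Ex.err (K * 2 ^ (m - 1)) ?_
    filter_upwards [hK, eventually_ge_atTop 1] with r h1 hr
    obtain ⟨hs1, hs2, hs3, hs4⟩ := sqrt_bounds r hr
    have hr' : (0 : ℝ) < r := by exact_mod_cast hr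
    have hs : 0 < Real.sqrt r := Real.sqrt_pos.2 hr'
    have hss : Real.sqrt r * Real.sqrt r = r := Real.mul_self_sqrt hr'.le
    have hterm : ∀ i ∈ Ico (Nat.sqrt r) (N r), ‖((ε i * Φ r i : ℝ) : ℂ) *
        E (n / (2 * r) * ((i : ℝ) + 1) ^ 2)‖ ≤ K * r ^ m * |(1 : ℝ) / ((i : ℝ) + 1) ^ m| := by
      intro i hi
      rw [mem_Ico] at hi
      rw [norm_mul, E_norm, mul_one, Complex.norm_real, Real.norm_eq_abs, abs_mul]
      have h2 := h1 i hi.2
      rw [abs_of_pos (by positivity : (0 : ℝ) < 1 / ((i : ℝ) + 1) ^ m)]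
      calc |ε i| * |Φ r i| ≤ 1 * (K * (r / ((i : ℝ) + 1)) ^ m) :=
            mul_le_mul (hε i) h2 (abs_nonneg _) (by norm_num)
        _ = K * r ^ m * (1 / ((i : ℝ) + 1) ^ m) := by rw [div_pow]; ring
    refine (norm_sum_le _ _).trans ((sum_le_sum hterm).trans ?_)
    rw [← mul_sum]
    have h3 := pow_tail' m (Nat.sqrt r) (N r) (by omega) hs1 (fun _ => 1) (fun _ => by simp)
    have h5 : (Real.sqrt r / 2) ^ (m - 1) ≤ ((Nat.sqrt r : ℕ) : ℝ) ^ (m - 1) :=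
      pow_le_pow_left₀ (by positivity) (by linarith) _
    have h6 : 1 / ((Nat.sqrt r : ℕ) : ℝ) ^ (m - 1) ≤ 1 / (Real.sqrt r / 2) ^ (m - 1) :=
      div_le_div_of_nonneg_left (by norm_num) (by positivity) h5
    calc K * (r : ℝ) ^ m * ∑ i ∈ Ico (Nat.sqrt r) (N r), |(1 : ℝ) / ((i : ℝ) + 1) ^ m| ≤
          K * (r : ℝ) ^ m * (1 / (Real.sqrt r / 2) ^ (m - 1)) :=
          mul_le_mul_of_nonneg_left (h3.trans h6) (by positivity)
      _ = K * 2 ^ (m - 1) * (r : ℝ) ^ (((m : ℝ) + 1) / 2) := by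
          have e1 : (r : ℝ) ^ (((m : ℝ) + 1) / 2) = Real.sqrt r ^ (m + 1) := by
            rw [sqrt_pow_eq r (m + 1) hr]; push_cast; rfl
          have e2 : (r : ℝ) ^ m = Real.sqrt r ^ (m + 1) * Real.sqrt r ^ (m - 1) := by
            rw [← pow_add]
            have : m + 1 + (m - 1) = 2 * m := by omega
            rw [this, pow_mul, sq, hss]
          rw [e1, e2, div_pow, one_div_div]
          have h7 : Real.sqrt r ^ (m - 1) ≠ 0 := by positivity
          field_simp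
  refine Ex.congr (Ex.add (Ex.add hsum hrem) htail) ?_
  filter_upwards [hN, eventually_ge_atTop 1] with r hNr hr
  have hr' : (0 : ℝ) < r := by exact_mod_cast hr
  rw [← sum_range_add_sum_Ico _ hNr]
  have h1 : ∑ k ∈ range (m - 1), ((p.coeff k : ℂ) * fq ε n (m - k) r -
        (if k = 0 then (F 0 : ℂ) * lc lam n m * (((r : ℝ) ^ (((m : ℝ) + 1) / 2) * Real.log r : ℝ) : ℂ)
          else 0)) = ∑ k ∈ range (m - 1), (p.coeff k : ℂ) * fq ε n (m - k) r -
      (F 0 : ℂ) * lc lam n m * (((r : ℝ) ^ (((m : ℝ) + 1) / 2) * Real.log r : ℝ) : ℂ) := by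
    rw [sum_sub_distrib, sum_ite_eq' (range (m - 1)) 0, if_pos (by rw [mem_range]; omega)]
  have h2 : ∑ k ∈ range (m - 1), (p.coeff k : ℂ) * fq ε n (m - k) r =
      ∑ i ∈ range (Nat.sqrt r), ((ε i * ∑ k ∈ range (m - 1), p.coeff k *
        (r / ((i : ℝ) + 1)) ^ (m - k) : ℝ) : ℂ) * E (n / (2 * r) * ((i : ℝ) + 1) ^ 2) := by
    unfold fq
    simp only [mul_sum]
    rw [sum_comm]
    refine sum_congr rfl fun i _ => ?_
    rw [Complex.ofReal_sum, sum_mul]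
    refine sum_congr rfl fun k _ => ?_
    push_cast
    ring
  rw [h1, h2]
  have h3 : ∑ i ∈ range (Nat.sqrt r), ((ε i * ∑ k ∈ range (m - 1), p.coeff k *
        (r / ((i : ℝ) + 1)) ^ (m - k) : ℝ) : ℂ) * E (n / (2 * r) * ((i : ℝ) + 1) ^ 2) +
      ∑ i ∈ range (Nat.sqrt r),
      ((ε i * (Φ r i - ∑ k ∈ range (m - 1), p.coeff k * (r / ((i : ℝ) + 1)) ^ (m - k)) : ℝ) : ℂ) *
        E (n / (2 * r) * ((i : ℝ) + 1) ^ 2) =
      ∑ i ∈ range (Nat.sqrt r), ((ε i * Φ r i : ℝ) : ℂ) * E (n / (2 * r) * ((i : ℝ) + 1) ^ 2) := by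
    rw [← sum_add_distrib]
    refine sum_congr rfl fun i _ => ?_
    rw [← add_mul, ← Complex.ofReal_add]
    congr 2
    ring
  rw [← h3]
  ring

end Pool.Agent.H905.WG
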