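import Mathlib
import Pool.Graph.R_seed8.H524R3.Defs

/-!
# Plumbing trees of Seifert manifolds over nonorientable surfaces
-/

set_option autoImplicit false

open Finset

namespace Pool.Agent.H905.WG

open H524R3

variable {m : ℕ}

/-- The tree Γ with one more vertex, of framing e, joined to the vertex p. -/
def addLeaf (Γ : PlumbingTree m) (p : Fin (m + 1)) (e : ℤ) : PlumbingTree (m + 1) where
  parent := fun i => Fin.lastCases (motive := fun _ => Fin (m + 1 + 1)) p.castSucc
    (fun j => (Γ.parent j).castSucc) i
  parent_le := by
    intro i
    refine Fin.lastCases ?_ (fun j => ?_) i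
    · simp only [Fin.lastCases_last]
      exact Fin.castSucc_le_castSucc_iff.2 (Fin.le_last p)
    · simp only [Fin.lastCases_castSucc]
      exact Fin.castSucc_le_castSucc_iff.2 (Γ.parent_le j)
  framing := fun i => Fin.lastCases (motive := fun _ => ℤ) e (fun j => Γ.framing j) i

/-- One more crosscap in the base of the Seifert fibration given by the vertex 0: a new vertex of framing
0 joined to the vertex 0, with two leaves of framings 2 and -2. -/
def addCross (Γ : PlumbingTree m) : PlumbingTree (m + 3) :=
  addLeaf (addLeaf (addLeaf Γ 0 0) (Fin.last (m + 1)) 2) (Fin.last (m + 1)).castSucc (-2)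

/-- Two more leaves of framings 2 and -2 at the vertex 0: two more exceptional fibres (2, 1), (2, -1). -/
def addPair (Γ : PlumbingTree m) : PlumbingTree (m + 2) :=
  addLeaf (addLeaf Γ 0 2) 0 (-2)

/-- One vertex of framing n. -/
def oneVertex (n : ℤ) : PlumbingTree 0 where
  parent := fun i => i.elim0
  parent_le := fun i => i.elim0
  framing := fun _ => n

/-- p pairs of leaves of framings 2 and -2 at the vertex 0. -/
def addPairs (Γ : PlumbingTree m) : (p : ℕ) → PlumbingTree (m + 2 * p)
  | 0 => Γ
  | p + 1 => addPair (addPairs Γ p)

/-- h crosscaps. -/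
def addCrosses (Γ : PlumbingTree m) : (h : ℕ) → PlumbingTree (m + 3 * h)
  | 0 => Γ
  | h + 1 => addCross (addCrosses Γ h)

/-- The plumbing tree of the Seifert manifold of Euler number n over the nonorientable surface of genus h
with p pairs of exceptional fibres (2, 1), (2, -1). -/
def seifertTree (h p : ℕ) (n : ℤ) : PlumbingTree (0 + 2 * p + 3 * h) :=
  addCrosses (addPairs (oneVertex n) p) h

end Pool.Agent.H905.WG
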