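import Mathlib
import Pool.Graph.R_seed8.H524R3.Closed
import Pool.Agent.H905.WG.Base
import Pool.Agent.H905.WG.Defs

/-!
# Closed formula
-/

set_option autoImplicit false

open Finset

namespace Pool.Agent.H905.WG

open H524R3

variable {m : ℕ}

/-- The summand of the invariant. -/
noncomputable def wt (Γ : PlumbingTree m) (r : ℕ) (k : Fin (m + 1) → ℕ) : ℂ :=
  ((bb r : ℝ) : ℂ) ^ (m + 2) * ((∏ v, (qint r (k v) : ℂ)) * Γ.colouredJones r k)

/-- The contribution of an edge. -/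
noncomputable def edge (r : ℕ) (e : ℤ) (x y : ℕ) : ℂ :=
  ((sm r 1 x : ℝ) : ℂ) * ((sm r x y : ℝ) : ℂ) * twist r x ^ e / ((sm r 1 y : ℝ) : ℂ)

theorem prod_pow_card {n : ℕ} (g : Fin m → Fin n) (x : Fin n → ℂ) :
    ∏ v, x v ^ (univ.filter fun i : Fin m => g i = v).card = ∏ i, x (g i) := by
  rw [← Finset.prod_fiberwise' univ g x]
  refine prod_congr rfl fun v _ => ?_
  rw [prod_const]

theorem prod_degree (Γ : PlumbingTree m) (x : Fin (m + 1) → ℂ) (hx : ∀ v, x v ≠ 0) :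
    ∏ v, x v ^ (1 - (Γ.degree v : ℤ)) =
      (∏ v, x v) * (∏ i, x (Γ.parent i))⁻¹ * (∏ i : Fin m, x i.succ)⁻¹ := by
  rw [← prod_pow_card Γ.parent x, ← prod_pow_card (fun i : Fin m => i.succ) x, ← prod_inv_distrib,
    ← prod_inv_distrib, ← prod_mul_distrib, ← prod_mul_distrib]
  refine prod_congr rfl fun v _ => ?_
  have h := hx v
  have e : (1 : ℤ) - (Γ.degree v : ℤ) =
      1 + (-((univ.filter fun i : Fin m => Γ.parent i = v).card : ℤ)) +
        (-((univ.filter fun i : Fin m => i.succ = v).card : ℤ)) := by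
    unfold PlumbingTree.degree; push_cast; ring
  rw [e, zpow_add₀ h, zpow_add₀ h, zpow_one, zpow_neg, zpow_neg, zpow_natCast, zpow_natCast]

theorem wt_eq (Γ : PlumbingTree m) (r : ℕ) (hr : 2 ≤ r) (k : Fin (m + 1) → ℕ)
    (hk : ∀ v, k v ∈ Icc 1 (r - 1)) :
    wt Γ r k = ((sm r 1 (k 0) : ℝ) : ℂ) ^ 2 * twist r (k 0) ^ Γ.framing 0 *
      ∏ i : Fin m, edge r (Γ.framing i.succ) (k i.succ) (k (Γ.parent i)) := by
  have hb : ((bb r : ℝ) : ℂ) ≠ 0 := by exact_mod_cast (bb_pos r hr).ne'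
  have hpos : ∀ v, ((sm r 1 (k v) : ℝ) : ℂ) ≠ 0 := by
    intro v
    have := hk v
    rw [mem_Icc] at this
    exact_mod_cast (sm_pos r (k v) this.1 (by omega)).ne'
  have hq : ∀ v, (qint r (k v) : ℂ) = ((sm r 1 (k v) : ℝ) : ℂ) / ((bb r : ℝ) : ℂ) := by
    intro v
    rw [qint_eq r _ hr]; push_cast; rfl
  have hq0 : ∀ v, ((sm r 1 (k v) : ℝ) : ℂ) / ((bb r : ℝ) : ℂ) ≠ 0 := fun v => div_ne_zero (hpos v) hb
  unfold wt PlumbingTree.colouredJones
  simp only [hq]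
  rw [prod_degree Γ _ hq0, Fin.prod_univ_succ (fun v => ((sm r 1 (k v) : ℝ) : ℂ) / ((bb r : ℝ) : ℂ)),
    Fin.prod_univ_succ (fun v => twist r (k v) ^ Γ.framing v)]
  have he : ∀ i : Fin m, (qint r (k i.succ * k (Γ.parent i)) : ℂ) =
      ((sm r (k i.succ) (k (Γ.parent i)) : ℝ) : ℂ) / ((bb r : ℝ) : ℂ) := by
    intro i
    rw [qint_mul_eq r _ _ hr]; push_cast; rfl
  simp only [he]
  have hprod : ∏ i : Fin m, edge r (Γ.framing i.succ) (k i.succ) (k (Γ.parent i)) =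
      ((bb r : ℝ) : ℂ) ^ m * ((∏ i : Fin m, ((sm r 1 (k i.succ) : ℝ) : ℂ) / ((bb r : ℝ) : ℂ)) *
        (∏ i : Fin m, twist r (k i.succ) ^ Γ.framing i.succ) *
        (∏ i : Fin m, ((sm r 1 (k (Γ.parent i)) : ℝ) : ℂ) / ((bb r : ℝ) : ℂ))⁻¹ *
        ∏ i : Fin m, ((sm r (k i.succ) (k (Γ.parent i)) : ℝ) : ℂ) / ((bb r : ℝ) : ℂ)) := by
    have hc : ((bb r : ℝ) : ℂ) ^ m = ∏ _i : Fin m, ((bb r : ℝ) : ℂ) := by
      rw [prod_const, card_univ, Fintype.card_fin]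
    rw [hc, ← prod_inv_distrib, ← prod_mul_distrib, ← prod_mul_distrib, ← prod_mul_distrib,
      ← prod_mul_distrib]
    refine prod_congr rfl fun i _ => ?_
    unfold edge
    have h1 := hpos (Γ.parent i)
    field_simp
  rw [hprod]
  have hne : (∏ i : Fin m, ((sm r 1 (k i.succ) : ℝ) : ℂ) / ((bb r : ℝ) : ℂ)) ≠ 0 :=
    prod_ne_zero_iff.2 fun i _ => hq0 i.succ
  generalize (∏ i : Fin m, ((sm r 1 (k i.succ) : ℝ) : ℂ) / ((bb r : ℝ) : ℂ)) = A at hne ⊢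
  generalize (∏ i : Fin m, twist r (k i.succ) ^ Γ.framing i.succ) = B
  generalize (∏ i : Fin m, ((sm r 1 (k (Γ.parent i)) : ℝ) : ℂ) / ((bb r : ℝ) : ℂ))⁻¹ = D
  generalize (∏ i : Fin m, ((sm r (k i.succ) (k (Γ.parent i)) : ℝ) : ℂ) / ((bb r : ℝ) : ℂ)) = F
  generalize ((sm r 1 (k 0) : ℝ) : ℂ) = S
  generalize twist r (k 0) ^ Γ.framing 0 = T
  generalize ((bb r : ℝ) : ℂ) = b at hb ⊢
  rw [pow_add]
  field_simp

theorem sum_piFinset_snoc (s : Finset ℕ) (F : (Fin (m + 1 + 1) → ℕ) → ℂ) :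
    ∑ k ∈ Fintype.piFinset (fun _ : Fin (m + 1 + 1) => s), F k =
      ∑ k ∈ Fintype.piFinset (fun _ : Fin (m + 1) => s), ∑ x ∈ s,
        F (Fin.snoc (α := fun _ => ℕ) k x) := by
  rw [← Finset.sum_product']
  refine Finset.sum_nbij' (fun k => (fun i => k i.castSucc, k (Fin.last _)))
    (fun p => Fin.snoc (α := fun _ => ℕ) p.1 p.2) ?_ ?_ ?_ ?_ ?_
  · intro k hk
    rw [Fintype.mem_piFinset] at hk
    rw [Finset.mem_product, Fintype.mem_piFinset]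
    exact ⟨fun i => hk i.castSucc, hk _⟩
  · intro p hp
    rw [Finset.mem_product, Fintype.mem_piFinset] at hp
    rw [Fintype.mem_piFinset]
    intro i
    refine Fin.lastCases ?_ (fun j => ?_) i
    · rw [Fin.snoc_last]; exact hp.2
    · rw [Fin.snoc_castSucc]; exact hp.1 j
  · intro k _
    funext i
    refine Fin.lastCases ?_ (fun j => ?_) i
    · rw [Fin.snoc_last]
    · rw [Fin.snoc_castSucc]
  · intro p _
    refine Prod.ext ?_ ?_
    · funext i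
      show Fin.snoc (α := fun _ => ℕ) p.1 p.2 i.castSucc = p.1 i
      rw [Fin.snoc_castSucc]
    · show Fin.snoc (α := fun _ => ℕ) p.1 p.2 (Fin.last _) = p.2
      rw [Fin.snoc_last]
  · intro k _
    congr 1
    funext i
    refine Fin.lastCases ?_ (fun j => ?_) i
    · rw [Fin.snoc_last]
    · rw [Fin.snoc_castSucc]

theorem wt_addLeaf (Γ : PlumbingTree m) (p : Fin (m + 1)) (e : ℤ) (r : ℕ) (hr : 2 ≤ r)
    (k : Fin (m + 1) → ℕ) (x : ℕ) (hk : ∀ v, k v ∈ Icc 1 (r - 1)) (hx : x ∈ Icc 1 (r - 1)) :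
    wt (addLeaf Γ p e) r (Fin.snoc (α := fun _ => ℕ) k x) = wt Γ r k * edge r e x (k p) := by
  have hk' : ∀ v, (Fin.snoc (α := fun _ => ℕ) k x : Fin (m + 2) → ℕ) v ∈ Icc 1 (r - 1) := by
    intro v
    refine Fin.lastCases ?_ (fun j => ?_) v
    · rw [Fin.snoc_last]; exact hx
    · rw [Fin.snoc_castSucc]; exact hk j
  rw [wt_eq _ r hr _ hk', wt_eq Γ r hr k hk, Fin.prod_univ_castSucc, ← mul_assoc]
  have h0 : (Fin.snoc (α := fun _ => ℕ) k x : Fin (m + 2) → ℕ) 0 = k 0 := by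
    have : (0 : Fin (m + 2)) = (0 : Fin (m + 1)).castSucc := rfl
    rw [this, Fin.snoc_castSucc]
  have hf0 : (addLeaf Γ p e).framing 0 = Γ.framing 0 := by
    have : (0 : Fin (m + 2)) = (0 : Fin (m + 1)).castSucc := rfl
    show Fin.lastCases (motive := fun _ => ℤ) e (fun j => Γ.framing j) 0 = _
    rw [this, Fin.lastCases_castSucc]
  rw [h0, hf0]
  congr 1
  · congr 1
    refine prod_congr rfl fun i _ => ?_
    have h1 : i.castSucc.succ = i.succ.castSucc := rfl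
    have h2 : (addLeaf Γ p e).framing i.castSucc.succ = Γ.framing i.succ := by
      show Fin.lastCases (motive := fun _ => ℤ) e (fun j => Γ.framing j) i.castSucc.succ = _
      rw [h1, Fin.lastCases_castSucc]
    have h3 : (addLeaf Γ p e).parent i.castSucc = (Γ.parent i).castSucc := by
      show Fin.lastCases (motive := fun _ => Fin (m + 1 + 1)) p.castSucc
        (fun j => (Γ.parent j).castSucc) i.castSucc = _
      rw [Fin.lastCases_castSucc]
    rw [h2, h3, h1, Fin.snoc_castSucc, Fin.snoc_castSucc]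
  · have h1 : (Fin.last m).succ = Fin.last (m + 1) := rfl
    have h2 : (addLeaf Γ p e).framing (Fin.last m).succ = e := by
      show Fin.lastCases (motive := fun _ => ℤ) e (fun j => Γ.framing j) (Fin.last m).succ = _
      rw [h1, Fin.lastCases_last]
    have h3 : (addLeaf Γ p e).parent (Fin.last m) = p.castSucc := by
      show Fin.lastCases (motive := fun _ => Fin (m + 1 + 1)) p.castSucc
        (fun j => (Γ.parent j).castSucc) (Fin.last m) = _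
      rw [Fin.lastCases_last]
    rw [h2, h3, h1, Fin.snoc_last, Fin.snoc_castSucc]

/-- The sum over the colourings of the weights times a function of the colouring. -/
noncomputable def tot (Γ : PlumbingTree m) (r : ℕ) (G : (Fin (m + 1) → ℕ) → ℂ) : ℂ :=
  ∑ k ∈ Fintype.piFinset (fun _ : Fin (m + 1) => Icc 1 (r - 1)), wt Γ r k * G k

theorem wrt_eq_tot (Γ : PlumbingTree m) (r : ℕ) : Γ.wrt r = tot Γ r (fun _ => 1) := by
  unfold PlumbingTree.wrt tot wt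
  rw [mul_sum]
  refine sum_congr rfl fun k _ => ?_
  rw [mul_one]
  rfl

theorem tot_congr (Γ : PlumbingTree m) (r : ℕ) (G H : (Fin (m + 1) → ℕ) → ℂ)
    (h : ∀ k, (∀ v, k v ∈ Icc 1 (r - 1)) → G k = H k) : tot Γ r G = tot Γ r H := by
  unfold tot
  refine sum_congr rfl fun k hk => ?_
  rw [Fintype.mem_piFinset] at hk
  rw [h k hk]

theorem tot_addLeaf (Γ : PlumbingTree m) (p : Fin (m + 1)) (e : ℤ) (r : ℕ) (hr : 2 ≤ r)
    (G : (Fin (m + 1 + 1) → ℕ) → ℂ) :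
    tot (addLeaf Γ p e) r G = tot Γ r (fun k => ∑ x ∈ Icc 1 (r - 1),
      edge r e x (k p) * G (Fin.snoc (α := fun _ => ℕ) k x)) := by
  unfold tot
  rw [sum_piFinset_snoc]
  refine sum_congr rfl fun k hk => ?_
  rw [Fintype.mem_piFinset] at hk
  rw [mul_sum]
  refine sum_congr rfl fun x hx => ?_
  rw [wt_addLeaf Γ p e r hr k x hk hx, mul_assoc]

theorem sum_edge (r : ℕ) (e : ℤ) (y : ℕ) :
    ∑ x ∈ Icc 1 (r - 1), edge r e x y = leaf r e y / ((sm r 1 y : ℝ) : ℂ) := by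
  unfold edge leaf
  rw [sum_div]
  refine sum_congr rfl fun x _ => ?_
  push_cast
  rfl

theorem tot_addPair (Γ : PlumbingTree m) (r : ℕ) (hr : 2 ≤ r) (g : ℕ → ℂ) :
    tot (addPair Γ) r (fun k => g (k 0)) =
      tot Γ r (fun k => ((wv r (k 0) : ℝ) : ℂ) / ((sm r 1 (k 0) : ℝ) : ℂ) * g (k 0)) := by
  unfold addPair
  rw [tot_addLeaf _ _ _ r hr, tot_addLeaf _ _ _ r hr]
  apply tot_congr
  intro k hk
  have h0 := hk 0
  rw [mem_Icc] at h0
  have hs : ((sm r 1 (k 0) : ℝ) : ℂ) ≠ 0 := by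
    exact_mod_cast (sm_pos r (k 0) h0.1 (by omega)).ne'
  have e1 : ∀ (x y : ℕ), (Fin.snoc (α := fun _ => ℕ) (Fin.snoc (α := fun _ => ℕ) k x :
      Fin (m + 2) → ℕ) y : Fin (m + 3) → ℕ) 0 = k 0 := by
    intro x y
    have h1 : (0 : Fin (m + 3)) = (0 : Fin (m + 2)).castSucc := rfl
    have h2 : (0 : Fin (m + 2)) = (0 : Fin (m + 1)).castSucc := rfl
    rw [h1, Fin.snoc_castSucc, h2, Fin.snoc_castSucc]
  have e2 : ∀ x : ℕ, (Fin.snoc (α := fun _ => ℕ) k x : Fin (m + 2) → ℕ) 0 = k 0 := by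
    intro x
    have h2 : (0 : Fin (m + 2)) = (0 : Fin (m + 1)).castSucc := rfl
    rw [h2, Fin.snoc_castSucc]
  simp only [e1, e2]
  rw [← leaf_div r (k 0) (by omega) (by omega)]
  simp only [← sum_mul, sum_edge]
  field_simp

/-- The contribution of a crosscap. -/
theorem tot_addCross (Γ : PlumbingTree m) (r : ℕ) (hr : 2 ≤ r) (g : ℕ → ℂ) :
    tot (addCross Γ) r (fun k => g (k 0)) =
      tot Γ r (fun k => (((-1 : ℝ) ^ (k 0 + 1) : ℝ) : ℂ) / ((sm r 1 (k 0) : ℝ) : ℂ) * g (k 0)) := by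
  unfold addCross
  rw [tot_addLeaf _ _ _ r hr, tot_addLeaf _ _ _ r hr, tot_addLeaf _ _ _ r hr]
  apply tot_congr
  intro k hk
  have h0 := hk 0
  rw [mem_Icc] at h0
  have hs : ((sm r 1 (k 0) : ℝ) : ℂ) ≠ 0 := by
    exact_mod_cast (sm_pos r (k 0) h0.1 (by omega)).ne'
  have e1 : ∀ (v x y : ℕ), (Fin.snoc (α := fun _ => ℕ) (Fin.snoc (α := fun _ => ℕ)
      (Fin.snoc (α := fun _ => ℕ) k v : Fin (m + 2) → ℕ) x :
      Fin (m + 3) → ℕ) y : Fin (m + 4) → ℕ) 0 = k 0 := by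
    intro v x y
    have h0 : (0 : Fin (m + 4)) = (0 : Fin (m + 3)).castSucc := rfl
    have h1 : (0 : Fin (m + 3)) = (0 : Fin (m + 2)).castSucc := rfl
    have h2 : (0 : Fin (m + 2)) = (0 : Fin (m + 1)).castSucc := rfl
    rw [h0, Fin.snoc_castSucc, h1, Fin.snoc_castSucc, h2, Fin.snoc_castSucc]
  have e2 : ∀ (v x : ℕ), (Fin.snoc (α := fun _ => ℕ)
      (Fin.snoc (α := fun _ => ℕ) k v : Fin (m + 2) → ℕ) x :
      Fin (m + 3) → ℕ) (Fin.last (m + 1)).castSucc = v := by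
    intro v x
    rw [Fin.snoc_castSucc, Fin.snoc_last]
  have e3 : ∀ v : ℕ, (Fin.snoc (α := fun _ => ℕ) k v : Fin (m + 2) → ℕ) (Fin.last (m + 1)) = v := by
    intro v
    rw [Fin.snoc_last]
  simp only [e1, e2, e3]
  rw [← sum_sm_wv r (k 0) (by omega) (by omega)]
  simp only [← sum_mul, sum_edge]
  push_cast
  rw [sum_div, sum_mul]
  refine sum_congr rfl fun v hv => ?_
  rw [mem_Icc] at hv
  have hv0 : ((sm r 1 v : ℝ) : ℂ) ≠ 0 := by
    exact_mod_cast (sm_pos r v hv.1 (by omega)).ne'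
  rw [← leaf_div r v (by omega) (by omega)]
  unfold edge
  rw [zpow_zero]
  field_simp

theorem tot_addPairs (Γ : PlumbingTree m) (r : ℕ) (hr : 2 ≤ r) (p : ℕ) : ∀ g : ℕ → ℂ,
    tot (addPairs Γ p) r (fun k => g (k 0)) =
      tot Γ r (fun k => (((wv r (k 0) : ℝ) : ℂ) / ((sm r 1 (k 0) : ℝ) : ℂ)) ^ p * g (k 0)) := by
  induction p with
  | zero =>
    intro g
    simp only [pow_zero, one_mul]
    rfl
  | succ p ih =>
    intro g
    show tot (addPair (addPairs Γ p)) r (fun k => g (k 0)) = _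
    rw [tot_addPair _ r hr g, ih (fun u => ((wv r u : ℝ) : ℂ) / ((sm r 1 u : ℝ) : ℂ) * g u)]
    apply tot_congr
    intro k _
    ring

theorem tot_addCrosses (Γ : PlumbingTree m) (r : ℕ) (hr : 2 ≤ r) (h : ℕ) : ∀ g : ℕ → ℂ,
    tot (addCrosses Γ h) r (fun k => g (k 0)) =
      tot Γ r (fun k => ((((-1 : ℝ) ^ (k 0 + 1) : ℝ) : ℂ) / ((sm r 1 (k 0) : ℝ) : ℂ)) ^ h * g (k 0)) := by
  induction h with
  | zero =>
    intro g
    simp only [pow_zero, one_mul]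
    rfl
  | succ h ih =>
    intro g
    show tot (addCross (addCrosses Γ h)) r (fun k => g (k 0)) = _
    rw [tot_addCross _ r hr g,
      ih (fun u => (((-1 : ℝ) ^ (u + 1) : ℝ) : ℂ) / ((sm r 1 u : ℝ) : ℂ) * g u)]
    apply tot_congr
    intro k _
    ring

theorem tot_oneVertex (n : ℤ) (r : ℕ) (hr : 2 ≤ r) (g : ℕ → ℂ) :
    tot (oneVertex n) r (fun k => g (k 0)) =
      ∑ u ∈ Icc 1 (r - 1), ((sm r 1 u : ℝ) : ℂ) ^ 2 * twist r u ^ n * g u := by
  unfold tot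
  have h1 : ∀ k ∈ Fintype.piFinset (fun _ : Fin (0 + 1) => Icc 1 (r - 1)),
      wt (oneVertex n) r k * g (k 0) =
        ((sm r 1 (k 0) : ℝ) : ℂ) ^ 2 * twist r (k 0) ^ n * g (k 0) := by
    intro k hk
    rw [Fintype.mem_piFinset] at hk
    rw [wt_eq _ r hr k hk]
    simp [oneVertex]
  rw [sum_congr rfl h1]
  refine Finset.sum_nbij' (fun k => k 0) (fun u => fun _ => u) ?_ ?_ ?_ ?_ ?_
  · intro k hk
    rw [Fintype.mem_piFinset] at hk
    exact hk 0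
  · intro u hu
    rw [Fintype.mem_piFinset]
    intro _; exact hu
  · intro k _
    funext i
    have : i = 0 := Fin.ext (show i.val = 0 by have := i.isLt; omega)
    rw [this]
  · intro u _; rfl
  · intro k _; rfl

/-- The closed formula. -/
theorem wrt_seifert (h p : ℕ) (n : ℤ) (r : ℕ) (hr : 2 ≤ r) :
    (seifertTree h p n).wrt r = ∑ u ∈ Icc 1 (r - 1), ((sm r 1 u : ℝ) : ℂ) ^ 2 * twist r u ^ n *
      ((((wv r u : ℝ) : ℂ) / ((sm r 1 u : ℝ) : ℂ)) ^ p *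
        ((((-1 : ℝ) ^ (u + 1) : ℝ) : ℂ) / ((sm r 1 u : ℝ) : ℂ)) ^ h) := by
  rw [wrt_eq_tot]
  unfold seifertTree
  rw [tot_addCrosses _ r hr h (fun _ => 1)]
  rw [tot_addPairs _ r hr p
    (fun u => ((((-1 : ℝ) ^ (u + 1) : ℝ) : ℂ) / ((sm r 1 u : ℝ) : ℂ)) ^ h * 1)]
  rw [tot_oneVertex n r hr (fun u => (((wv r u : ℝ) : ℂ) / ((sm r 1 u : ℝ) : ℂ)) ^ p *
    (((((-1 : ℝ) ^ (u + 1) : ℝ) : ℂ) / ((sm r 1 u : ℝ) : ℂ)) ^ h * 1))]
  simp only [mul_one]

end Pool.Agent.H905.WG
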