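import Mathlib
import Pool.Agent.H905.WG.Asym2
import Pool.Agent.H905.WG.Tree
import Pool.Agent.H905.WG.Phi

/-!
# The invariants as sums of two singular sums
-/

set_option autoImplicit false

open Finset Filter Topology

namespace Pool.Agent.H905.WG

open H524R3 Pool.Agent.H905.WR

/-- sin (π (i + 1) / r) -/
noncomputable def sn (r i : ℕ) : ℝ := Real.sin (Real.pi * (((i : ℝ) + 1) / r))

noncomputable def Φ1 (h p r i : ℕ) : ℝ :=
  sn r i ^ 2 * (sn r i)⁻¹ ^ h * ((2 * Real.cos (Real.pi * (((i : ℝ) + 1) / r) / 2) ^ 2)⁻¹) ^ p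

noncomputable def Φ2 (h p r i : ℕ) : ℝ :=
  sn r i ^ 2 * (sn r i)⁻¹ ^ h * ((2 * Real.sin (Real.pi * (((i : ℝ) + 1) / r) / 2) ^ 2)⁻¹) ^ p

theorem sn_arg (r i : ℕ) (hi : i < r / 2) : 0 < Real.pi * (((i : ℝ) + 1) / r) ∧
    Real.pi * (((i : ℝ) + 1) / r) ≤ Real.pi / 2 := cc_arg r i hi

theorem sn_pos (r i : ℕ) (hi : i < r / 2) : 0 < sn r i := cc_sin_pos r i hi

theorem sm_end1 (r i : ℕ) : sm r 1 (i + 1) = Real.sqrt (2 / r) * sn r i := by
  unfold sm sn; push_cast; rw [one_mul]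

theorem sm_end2 (r i : ℕ) (hi : i + 1 ≤ r) (hr : 1 ≤ r) :
    sm r 1 (r - (i + 1)) = Real.sqrt (2 / r) * sn r i := by
  have hr0 : (r : ℝ) ≠ 0 := by
    have : r ≠ 0 := by omega
    exact_mod_cast this
  unfold sm sn
  rw [Nat.cast_sub hi, ← Real.sin_pi_sub]
  congr 2
  push_cast
  field_simp
  ring

theorem wv_end1 (r i : ℕ) (hr : 1 ≤ r) (hi : i < r / 2) : wv r (i + 1) / sm r 1 (i + 1) =
    if Odd (i + 1 + r) then (2 * Real.cos (Real.pi * (((i : ℝ) + 1) / r) / 2) ^ 2)⁻¹ else 0 := by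
  have hr0 : (0 : ℝ) < r := by exact_mod_cast hr
  have hs : Real.sqrt (2 / (r : ℝ)) ≠ 0 := (Real.sqrt_pos.2 (by positivity)).ne'
  obtain ⟨h1, h2⟩ := sn_arg r i hi
  rw [sm_end1]
  unfold wv
  by_cases ho : Odd (i + 1 + r)
  · rw [if_pos ho, if_pos ho]
    unfold sn
    set φ := Real.pi * (((i : ℝ) + 1) / r) / 2 with hφ
    have e1 : Real.pi * (((i : ℝ) + 1) / r) = 2 * φ := by rw [hφ]; ring
    have e2 : Real.pi * (((i + 1 : ℕ) : ℝ) / (2 * r)) = φ := by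
      rw [hφ]; push_cast; field_simp
    have hsin : 0 < Real.sin φ := Real.sin_pos_of_pos_of_lt_pi (by rw [hφ]; linarith)
      (by rw [hφ]; linarith [Real.pi_pos])
    have hcos : 0 < Real.cos φ := Real.cos_pos_of_mem_Ioo ⟨by rw [hφ]; linarith [Real.pi_pos],
      by rw [hφ]; linarith [Real.pi_pos]⟩
    rw [e1, e2, Real.sin_two_mul, Real.tan_eq_sin_div_cos]
    have := hsin.ne'
    have := hcos.ne'
    field_simp
  · rw [if_neg ho, if_neg ho, zero_div]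

theorem wv_end2 (r i : ℕ) (hr : 1 ≤ r) (hi : i < r / 2) :
    wv r (r - (i + 1)) / sm r 1 (r - (i + 1)) =
    if Odd (i + 1) then (2 * Real.sin (Real.pi * (((i : ℝ) + 1) / r) / 2) ^ 2)⁻¹ else 0 := by
  have hr0 : (0 : ℝ) < r := by exact_mod_cast hr
  have hs : Real.sqrt (2 / (r : ℝ)) ≠ 0 := (Real.sqrt_pos.2 (by positivity)).ne'
  obtain ⟨h1, h2⟩ := sn_arg r i hi
  rw [sm_end2 r i (by omega) hr]
  unfold wv
  by_cases ho : Odd (i + 1)
  · have ho' : Odd (r - (i + 1) + r) := by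
      obtain ⟨k, hk⟩ := ho
      exact ⟨r - k - 1, by omega⟩
    rw [if_pos ho, if_pos ho']
    unfold sn
    set φ := Real.pi * (((i : ℝ) + 1) / r) / 2 with hφ
    have e1 : Real.pi * (((i : ℝ) + 1) / r) = 2 * φ := by rw [hφ]; ring
    have e2 : Real.pi * (((r - (i + 1) : ℕ) : ℝ) / (2 * r)) = Real.pi / 2 - φ := by
      rw [Nat.cast_sub (by omega), hφ]; push_cast; field_simp
    have hsin : 0 < Real.sin φ := Real.sin_pos_of_pos_of_lt_pi (by rw [hφ]; linarith)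
      (by rw [hφ]; linarith [Real.pi_pos])
    have hcos : 0 < Real.cos φ := Real.cos_pos_of_mem_Ioo ⟨by rw [hφ]; linarith [Real.pi_pos],
      by rw [hφ]; linarith [Real.pi_pos]⟩
    rw [e1, e2, Real.sin_two_mul, Real.tan_pi_div_two_sub, Real.tan_eq_sin_div_cos]
    have := hsin.ne'
    have := hcos.ne'
    field_simp
  · have ho' : ¬ Odd (r - (i + 1) + r) := by
      rw [Nat.not_odd_iff_even] at ho ⊢
      obtain ⟨k, hk⟩ := ho
      exact ⟨r - k, by omega⟩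
    rw [if_neg ho, if_neg ho', zero_div]

/-- The signs at the end near 0. -/
noncomputable def s1 (p r i : ℕ) : ℝ := (-1) ^ i * (if p = 0 ∨ Odd (i + 1 + r) then 1 else 0)

/-- The sign E (-n). -/
noncomputable def sgn (n : ℤ) : ℝ := if Even n then 1 else -1

/-- The signs at the end near r. -/
noncomputable def s2 (p : ℕ) (n : ℤ) (i : ℕ) : ℝ :=
  (-1) ^ (i + 1) * sgn n ^ (i + 1) * (if p = 0 ∨ Odd (i + 1) then 1 else 0)

theorem ite_pow (p : ℕ) (c : Prop) [Decidable c] (x : ℝ) :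
    (if c then x else 0) ^ p = x ^ p * (if p = 0 ∨ c then 1 else 0) := by
  by_cases hp : p = 0
  · simp [hp]
  · by_cases hc : c
    · simp [hc]
    · simp [hc, hp]

theorem neg_one_pow_odd (u h : ℕ) (hh : Odd h) : ((-1 : ℝ) ^ u) ^ h = (-1) ^ u := by
  rcases neg_one_pow_eq_or ℝ u with e | e
  · rw [e, one_pow]
  · rw [e, hh.neg_one_pow]

theorem E_int (n : ℤ) : E (-n : ℝ) = ((sgn n : ℝ) : ℂ) := by
  unfold sgn
  by_cases h : Even n
  · rw [if_pos h]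
    have := E_even (-n) h.neg
    push_cast at this ⊢
    exact this
  · rw [if_neg h]
    have := E_odd (-n) (Int.not_even_iff_odd.1 h).neg
    push_cast at this ⊢
    exact this

/-- The summand of the closed formula. -/
noncomputable def tm (h p : ℕ) (n : ℤ) (r u : ℕ) : ℂ :=
  ((sm r 1 u : ℝ) : ℂ) ^ 2 * twist r u ^ n *
      ((((wv r u : ℝ) : ℂ) / ((sm r 1 u : ℝ) : ℂ)) ^ p *
        ((((-1 : ℝ) ^ (u + 1) : ℝ) : ℂ) / ((sm r 1 u : ℝ) : ℂ)) ^ h)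

theorem tm_eq (h p : ℕ) (n : ℤ) (r u : ℕ) : tm h p n r u = twist r u ^ n *
    ((sm r 1 u ^ 2 * (wv r u / sm r 1 u) ^ p * (((-1) ^ (u + 1)) ^ h * (sm r 1 u)⁻¹ ^ h) : ℝ) : ℂ) := by
  unfold tm
  push_cast
  rw [div_pow (((-1 : ℂ) ^ (u + 1))), inv_pow, div_eq_mul_inv (((-1 : ℂ) ^ (u + 1)) ^ h)]
  ring

/-- The common factor. -/
noncomputable def gr (h r : ℕ) : ℝ := Real.sqrt (2 / r) ^ 2 * (Real.sqrt (2 / r))⁻¹ ^ h

theorem tm_end1 (h p : ℕ) (hh : Odd h) (n : ℤ) (r i : ℕ) (hr : 1 ≤ r) (hi : i < r / 2) :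
    tm h p n r (i + 1) = E (-(n / (2 * r))) * (gr h r : ℂ) *
      (((s1 p r i * Φ1 h p r i : ℝ) : ℂ) * E (n / (2 * r) * ((i : ℝ) + 1) ^ 2)) := by
  rw [tm_eq, wv_end1 r i hr hi, ite_pow, sm_end1, neg_one_pow_odd _ _ hh]
  have h1 : twist r (i + 1) ^ n = E (-(n / (2 * r))) * E (n / (2 * r) * ((i : ℝ) + 1) ^ 2) := by
    rw [twist_zpow, ← E_add]
    congr 1
    push_cast
    ring
  have h2 : (-1 : ℝ) ^ (i + 1 + 1) = (-1) ^ i := by rw [pow_succ, pow_succ]; ring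
  rw [h1, h2]
  unfold s1 Φ1 gr
  rw [mul_inv, mul_pow, mul_pow]
  push_cast
  ring

theorem tm_end2 (h p : ℕ) (hh : Odd h) (n : ℤ) (r i : ℕ) (hr : 1 ≤ r) (hi : i < r / 2) :
    tm h p n r (r - (i + 1)) = E (-(n / (2 * r))) * (gr h r : ℂ) * (-((-E (n / 2)) ^ r)) *
      (((s2 p n i * Φ2 h p r i : ℝ) : ℂ) * E (n / (2 * r) * ((i : ℝ) + 1) ^ 2)) := by
  have hle : i + 1 ≤ r := by omega
  have hr0 : (r : ℝ) ≠ 0 := by
    have : r ≠ 0 := by omega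
    exact_mod_cast this
  rw [tm_eq, wv_end2 r i hr hi, ite_pow, sm_end2 r i hle hr, neg_one_pow_odd _ _ hh]
  have h1 : twist r (r - (i + 1)) ^ n = E (-(n / (2 * r))) * E (n / 2) ^ r *
      ((sgn n : ℝ) : ℂ) ^ (i + 1) * E (n / (2 * r) * ((i : ℝ) + 1) ^ 2) := by
    rw [twist_zpow, Nat.cast_sub hle, ← E_int, E_pow, E_pow, ← E_add, ← E_add, ← E_add]
    congr 1
    push_cast
    field_simp
    ring
  have h2 : (-1 : ℝ) ^ (r - (i + 1) + 1) = -((-1) ^ r * (-1) ^ (i + 1)) := by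
    have e : r = (r - (i + 1)) + (i + 1) := by omega
    have e2 : (-1 : ℝ) ^ r * (-1) ^ (i + 1) = (-1) ^ (r - (i + 1)) * ((-1) ^ (i + 1) * (-1) ^ (i + 1)) := by
      conv_lhs => rw [e]
      rw [pow_add]
      ring
    have e3 : (-1 : ℝ) ^ (i + 1) * (-1) ^ (i + 1) = 1 := by rw [← mul_pow]; norm_num
    rw [e2, e3, pow_succ]
    ring
  rw [h1, h2]
  unfold s2 Φ2 gr
  rw [mul_inv, mul_pow, mul_pow, neg_pow (E (n / 2))]
  push_cast
  ring

/-- The invariant as a combination of the two singular sums. -/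
theorem wrt_split (h p : ℕ) (hh : Odd h) (n : ℤ) (r : ℕ) (hr : 2 ≤ r) :
    (seifertTree h p n).wrt r = E (-(n / (2 * r))) * (gr h r : ℂ) *
      (∑ i ∈ range (r / 2), ((s1 p r i * Φ1 h p r i : ℝ) : ℂ) * E (n / (2 * r) * ((i : ℝ) + 1) ^ 2) -
        (-E (n / 2)) ^ r * ∑ i ∈ range (r - 1 - r / 2), ((s2 p n i * Φ2 h p r i : ℝ) : ℂ) *
          E (n / (2 * r) * ((i : ℝ) + 1) ^ 2)) := by
  rw [wrt_seifert h p n r hr]
  have h0 : ∑ u ∈ Icc 1 (r - 1), ((sm r 1 u : ℝ) : ℂ) ^ 2 * twist r u ^ n *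
      ((((wv r u : ℝ) : ℂ) / ((sm r 1 u : ℝ) : ℂ)) ^ p *
        ((((-1 : ℝ) ^ (u + 1) : ℝ) : ℂ) / ((sm r 1 u : ℝ) : ℂ)) ^ h) =
      ∑ u ∈ Icc 1 (r - 1), tm h p n r u := rfl
  rw [h0, sum_split _ r hr]
  have h1 : ∑ i ∈ range (r / 2), tm h p n r (i + 1) = E (-(n / (2 * r))) * (gr h r : ℂ) *
      ∑ i ∈ range (r / 2), ((s1 p r i * Φ1 h p r i : ℝ) : ℂ) * E (n / (2 * r) * ((i : ℝ) + 1) ^ 2) := by
    rw [mul_sum]
    exact sum_congr rfl fun i hi => tm_end1 h p hh n r i (by omega) (mem_range.1 hi)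
  have h2 : ∑ i ∈ range (r - 1 - r / 2), tm h p n r (r - (i + 1)) =
      E (-(n / (2 * r))) * (gr h r : ℂ) * (-((-E (n / 2)) ^ r)) *
      ∑ i ∈ range (r - 1 - r / 2), ((s2 p n i * Φ2 h p r i : ℝ) : ℂ) *
          E (n / (2 * r) * ((i : ℝ) + 1) ^ 2) := by
    rw [mul_sum]
    refine sum_congr rfl fun i hi => tm_end2 h p hh n r i (by omega) ?_
    rw [mem_range] at hi
    omega
  rw [h1, h2]
  ring

end Pool.Agent.H905.WG
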