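import Mathlib
import Pool.Agent.H905.WG.Seif

/-!
# The two singular coefficients
-/

set_option autoImplicit false

open Finset Filter Topology

namespace Pool.Agent.H905.WG

open H524R3 Pool.Agent.H905.WR

/-- sin x / x -/
noncomputable def sc (x : ℝ) : ℝ := dslope Real.sin 0 x

theorem sin_eq_sc (x : ℝ) : Real.sin x = x * sc x := by
  have h := sub_smul_dslope Real.sin 0 x
  rw [sub_zero, Real.sin_zero, sub_zero, smul_eq_mul] at h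
  exact h.symm

theorem sc_zero : sc 0 = 1 := by
  unfold sc
  rw [dslope_same, Real.deriv_sin, Real.cos_zero]

theorem sc_analytic : AnalyticAt ℝ sc 0 := by
  have h : AnalyticAt ℝ Real.sin 0 := Real.analyticAt_sin
  obtain ⟨p, hp⟩ := h
  exact ⟨_, hp.has_fpower_series_dslope_fslope⟩

noncomputable def F1 (h p : ℕ) (x : ℝ) : ℝ :=
  (Real.pi * sc (Real.pi * x)) ^ 2 * (Real.pi * sc (Real.pi * x))⁻¹ ^ h *
    ((2 * Real.cos (Real.pi * x / 2) ^ 2)⁻¹) ^ p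

noncomputable def F2 (h p : ℕ) (x : ℝ) : ℝ :=
  (Real.pi * sc (Real.pi * x)) ^ 2 * (Real.pi * sc (Real.pi * x))⁻¹ ^ h *
    ((2 * (Real.pi / 2 * sc (Real.pi * x / 2)) ^ 2)⁻¹) ^ p

theorem an_sc1 : AnalyticAt ℝ (fun x => Real.pi * sc (Real.pi * x)) 0 := by
  have h1 : AnalyticAt ℝ (fun x : ℝ => Real.pi * x) 0 := analyticAt_const.mul analyticAt_id
  have h2 : AnalyticAt ℝ sc ((fun x : ℝ => Real.pi * x) 0) := by
    show AnalyticAt ℝ sc (Real.pi * 0)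
    rw [mul_zero]; exact sc_analytic
  exact analyticAt_const.mul (AnalyticAt.comp h2 h1)

theorem an_sc2 : AnalyticAt ℝ (fun x => Real.pi / 2 * sc (Real.pi * x / 2)) 0 := by
  have h1 : AnalyticAt ℝ (fun x : ℝ => Real.pi * x / 2) 0 :=
    (analyticAt_const.mul analyticAt_id).div_const
  have h2 : AnalyticAt ℝ sc ((fun x : ℝ => Real.pi * x / 2) 0) := by
    show AnalyticAt ℝ sc (Real.pi * 0 / 2)
    rw [mul_zero, zero_div]; exact sc_analytic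
  exact analyticAt_const.mul (AnalyticAt.comp h2 h1)

theorem an_cos : AnalyticAt ℝ (fun x : ℝ => Real.cos (Real.pi * x / 2)) 0 := by
  have h1 : AnalyticAt ℝ (fun x : ℝ => Real.pi * x / 2) 0 :=
    (analyticAt_const.mul analyticAt_id).div_const
  have h2 : AnalyticAt ℝ Real.cos ((fun x : ℝ => Real.pi * x / 2) 0) := Real.analyticAt_cos
  exact AnalyticAt.comp (g := Real.cos) h2 h1

theorem v1 : Real.pi * sc (Real.pi * 0) ≠ 0 := by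
  rw [mul_zero, sc_zero, mul_one]; exact Real.pi_ne_zero

theorem v2 : Real.pi / 2 * sc (Real.pi * 0 / 2) ≠ 0 := by
  rw [mul_zero, zero_div, sc_zero, mul_one]
  exact div_ne_zero Real.pi_ne_zero (by norm_num)

theorem F1_analytic (h p : ℕ) : AnalyticAt ℝ (F1 h p) 0 := by
  unfold F1
  refine ((an_sc1.pow 2).mul ((an_sc1.inv v1).pow h)).mul (((analyticAt_const.mul
    (an_cos.pow 2)).inv ?_).pow p)
  show (2 : ℝ) * Real.cos (Real.pi * 0 / 2) ^ 2 ≠ 0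
  rw [mul_zero, zero_div, Real.cos_zero]; norm_num

theorem F2_analytic (h p : ℕ) : AnalyticAt ℝ (F2 h p) 0 := by
  unfold F2
  refine ((an_sc1.pow 2).mul ((an_sc1.inv v1).pow h)).mul (((analyticAt_const.mul
    (an_sc2.pow 2)).inv ?_).pow p)
  exact mul_ne_zero (by norm_num) (pow_ne_zero _ v2)

theorem F2_zero_ne (h p : ℕ) : F2 h p 0 ≠ 0 := by
  unfold F2
  refine mul_ne_zero (mul_ne_zero (pow_ne_zero _ v1) (pow_ne_zero _ (inv_ne_zero v1)))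
    (pow_ne_zero _ (inv_ne_zero (mul_ne_zero (by norm_num) (pow_ne_zero _ v2))))

theorem alg1 (x S C : ℝ) (hx0 : x ≠ 0) (t : ℕ) :
    (x * S) ^ 2 * (x * S)⁻¹ ^ (t + 2) * C = S ^ 2 * S⁻¹ ^ (t + 2) * C * x⁻¹ ^ t := by
  have e2 : x ^ 2 * (x⁻¹) ^ 2 = 1 := by rw [← mul_pow, mul_inv_cancel₀ hx0, one_pow]
  have e3 : (x * S)⁻¹ ^ (t + 2) = x⁻¹ ^ t * x⁻¹ ^ 2 * S⁻¹ ^ (t + 2) := by
    rw [mul_inv, mul_pow, pow_add x⁻¹]
  rw [e3, mul_pow]
  linear_combination (S ^ 2 * x⁻¹ ^ t * S⁻¹ ^ (t + 2) * C) * e2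

theorem alg2 (x S A : ℝ) (hx0 : x ≠ 0) (h p t : ℕ) (ht : h + 2 * p = t + 2) :
    (x * S) ^ 2 * (x * S)⁻¹ ^ h * ((x ^ 2 * A)⁻¹) ^ p = S ^ 2 * S⁻¹ ^ h * (A⁻¹) ^ p * x⁻¹ ^ t := by
  have e2 : x ^ 2 * (x⁻¹) ^ 2 = 1 := by rw [← mul_pow, mul_inv_cancel₀ hx0, one_pow]
  have e3 : x⁻¹ ^ h * ((x ^ 2)⁻¹) ^ p = x⁻¹ ^ t * x⁻¹ ^ 2 := by
    rw [← pow_add, ← ht, pow_add, pow_mul, inv_pow x 2]
  have e4 : (x * S)⁻¹ ^ h = x⁻¹ ^ h * S⁻¹ ^ h := by rw [mul_inv, mul_pow]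
  have e5 : ((x ^ 2 * A)⁻¹) ^ p = ((x ^ 2)⁻¹) ^ p * (A⁻¹) ^ p := by rw [mul_inv, mul_pow]
  rw [e4, e5, mul_pow]
  linear_combination (S ^ 2 * S⁻¹ ^ h * (A⁻¹) ^ p * x ^ 2) * e3 +
    (S ^ 2 * S⁻¹ ^ h * (A⁻¹) ^ p * x⁻¹ ^ t) * e2

theorem Φ1_eq (h p r i : ℕ) (hh : 2 ≤ h) (hr : 1 ≤ r) :
    Φ1 h p r i = F1 h p (((i : ℝ) + 1) / r) * (r / ((i : ℝ) + 1)) ^ (h - 2) := by
  have hr' : (0 : ℝ) < r := by exact_mod_cast hr
  have hi0 : (0 : ℝ) < (i : ℝ) + 1 := by positivity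
  have hx0 : ((i : ℝ) + 1) / r ≠ 0 := by positivity
  have hxi : r / ((i : ℝ) + 1) = (((i : ℝ) + 1) / r)⁻¹ := by rw [inv_div]
  unfold Φ1 F1 sn
  rw [hxi]
  generalize ((i : ℝ) + 1) / r = x at hx0 ⊢
  have e : Real.sin (Real.pi * x) = x * (Real.pi * sc (Real.pi * x)) := by
    rw [sin_eq_sc]; ring
  obtain ⟨t, ht⟩ : ∃ t, h = t + 2 := ⟨h - 2, by omega⟩
  have ht' : h - 2 = t := by omega
  rw [e, ht', ht]
  exact alg1 x _ _ hx0 t

theorem Φ2_eq (h p r i : ℕ) (hh : 2 ≤ h + 2 * p) (hr : 1 ≤ r) :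
    Φ2 h p r i = F2 h p (((i : ℝ) + 1) / r) * (r / ((i : ℝ) + 1)) ^ (h + 2 * p - 2) := by
  have hr' : (0 : ℝ) < r := by exact_mod_cast hr
  have hi0 : (0 : ℝ) < (i : ℝ) + 1 := by positivity
  have hx0 : ((i : ℝ) + 1) / r ≠ 0 := by positivity
  have hxi : r / ((i : ℝ) + 1) = (((i : ℝ) + 1) / r)⁻¹ := by rw [inv_div]
  unfold Φ2 F2 sn
  rw [hxi]
  generalize ((i : ℝ) + 1) / r = x at hx0 ⊢
  have e : Real.sin (Real.pi * x) = x * (Real.pi * sc (Real.pi * x)) := by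
    rw [sin_eq_sc]; ring
  have e' : 2 * Real.sin (Real.pi * x / 2) ^ 2 =
      x ^ 2 * (2 * (Real.pi / 2 * sc (Real.pi * x / 2)) ^ 2) := by
    rw [sin_eq_sc]; ring
  obtain ⟨t, ht⟩ : ∃ t, h + 2 * p = t + 2 := ⟨h + 2 * p - 2, by omega⟩
  have ht' : h + 2 * p - 2 = t := by omega
  rw [e, e', ht']
  exact alg2 x _ _ hx0 h p t ht

theorem sn_bounds (r i : ℕ) (hi : i < r / 2) : 0 < sn r i ∧ sn r i ≤ 1 ∧
    (sn r i)⁻¹ ≤ r / ((i : ℝ) + 1) ∧ sn r i ≤ Real.pi * (((i : ℝ) + 1) / r) := by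
  refine ⟨sn_pos r i hi, Real.sin_le_one _, cc_le r i hi, ?_⟩
  exact Real.sin_le (sn_arg r i hi).1.le

theorem cos_fac (r i : ℕ) (hi : i < r / 2) :
    0 ≤ (2 * Real.cos (Real.pi * (((i : ℝ) + 1) / r) / 2) ^ 2)⁻¹ ∧
    (2 * Real.cos (Real.pi * (((i : ℝ) + 1) / r) / 2) ^ 2)⁻¹ ≤ 1 := by
  obtain ⟨h1, h2⟩ := sn_arg r i hi
  have h3 : 1 ≤ 2 * Real.cos (Real.pi * (((i : ℝ) + 1) / r) / 2) ^ 2 := by
    have h4 := Real.cos_sq (Real.pi * (((i : ℝ) + 1) / r) / 2)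
    have h5 : 0 ≤ Real.cos (2 * (Real.pi * (((i : ℝ) + 1) / r) / 2)) := by
      apply Real.cos_nonneg_of_mem_Icc
      constructor
      · linarith [Real.pi_pos]
      · linarith
    linarith
  exact ⟨by positivity, inv_le_one_of_one_le₀ h3⟩

theorem sin_fac (r i : ℕ) (hi : i < r / 2) :
    0 ≤ (2 * Real.sin (Real.pi * (((i : ℝ) + 1) / r) / 2) ^ 2)⁻¹ ∧
    (2 * Real.sin (Real.pi * (((i : ℝ) + 1) / r) / 2) ^ 2)⁻¹ ≤ (r / ((i : ℝ) + 1)) ^ 2 := by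
  obtain ⟨h1, h2⟩ := sn_arg r i hi
  have hr' : (0 : ℝ) < r := by
    have : 0 < r := by omega
    exact_mod_cast this
  have hi0 : (0 : ℝ) < (i : ℝ) + 1 := by positivity
  have hpi := Real.pi_pos
  have h3 := Real.mul_le_sin (x := Real.pi * (((i : ℝ) + 1) / r) / 2) (by linarith) (by linarith)
  have h4 : 2 / Real.pi * (Real.pi * (((i : ℝ) + 1) / r) / 2) = ((i : ℝ) + 1) / r := by
    field_simp
  rw [h4] at h3
  have h5 : (((i : ℝ) + 1) / r) ^ 2 ≤ 2 * Real.sin (Real.pi * (((i : ℝ) + 1) / r) / 2) ^ 2 := by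
    have h6 : (((i : ℝ) + 1) / r) ^ 2 ≤ Real.sin (Real.pi * (((i : ℝ) + 1) / r) / 2) ^ 2 :=
      pow_le_pow_left₀ (by positivity) h3 2
    have h7 : 0 ≤ Real.sin (Real.pi * (((i : ℝ) + 1) / r) / 2) ^ 2 := sq_nonneg _
    linarith
  refine ⟨by positivity, ?_⟩
  refine (inv_anti₀ (by positivity) h5).trans (le_of_eq ?_)
  rw [← inv_pow, inv_div]

theorem Φ2_bound (h p r i : ℕ) (hh : 2 ≤ h + 2 * p) (hi : i < r / 2) :
    |Φ2 h p r i| ≤ Real.pi ^ 2 * (r / ((i : ℝ) + 1)) ^ (h + 2 * p - 2) := by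
  have hr' : (0 : ℝ) < r := by
    have : 0 < r := by omega
    exact_mod_cast this
  have hi0 : (0 : ℝ) < (i : ℝ) + 1 := by positivity
  obtain ⟨h1, h2, h3, h4⟩ := sn_bounds r i hi
  obtain ⟨h5, h6⟩ := sin_fac r i hi
  have hpi := Real.pi_pos
  unfold Φ2
  set w := (r : ℝ) / ((i : ℝ) + 1) with hw
  have hw0 : 0 < w := by rw [hw]; positivity
  have h4' : sn r i ≤ Real.pi * w⁻¹ := by rw [hw, inv_div]; exact h4
  rw [abs_of_nonneg (by positivity)]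
  calc sn r i ^ 2 * (sn r i)⁻¹ ^ h *
        ((2 * Real.sin (Real.pi * (((i : ℝ) + 1) / r) / 2) ^ 2)⁻¹) ^ p
      ≤ (Real.pi * w⁻¹) ^ 2 * w ^ h * (w ^ 2) ^ p := by
        apply mul_le_mul _ (pow_le_pow_left₀ h5 h6 p) (by positivity) (by positivity)
        apply mul_le_mul (pow_le_pow_left₀ h1.le h4' 2) (pow_le_pow_left₀ (by positivity) h3 h)
          (by positivity) (by positivity)
    _ = Real.pi ^ 2 * w ^ (h + 2 * p - 2) := by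
        obtain ⟨t, ht⟩ : ∃ t, h + 2 * p = t + 2 := ⟨h + 2 * p - 2, by omega⟩
        have ht' : h + 2 * p - 2 = t := by omega
        rw [ht', ← pow_mul, mul_assoc, ← pow_add, ht, mul_pow, pow_add]
        have e2 : (w⁻¹) ^ 2 * w ^ 2 = 1 := by rw [← mul_pow, inv_mul_cancel₀ hw0.ne', one_pow]
        linear_combination (Real.pi ^ 2 * w ^ t) * e2

theorem Φ1_bound (h p r i : ℕ) (hh : 2 ≤ h) (hi : i < r / 2) :
    |Φ1 h p r i| ≤ Real.pi ^ 2 * (r / ((i : ℝ) + 1)) ^ (h - 2) := by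
  have hr' : (0 : ℝ) < r := by
    have : 0 < r := by omega
    exact_mod_cast this
  have hi0 : (0 : ℝ) < (i : ℝ) + 1 := by positivity
  obtain ⟨h1, h2, h3, h4⟩ := sn_bounds r i hi
  obtain ⟨h5, h6⟩ := cos_fac r i hi
  have hpi := Real.pi_pos
  unfold Φ1
  set w := (r : ℝ) / ((i : ℝ) + 1) with hw
  have hw0 : 0 < w := by rw [hw]; positivity
  have h4' : sn r i ≤ Real.pi * w⁻¹ := by rw [hw, inv_div]; exact h4
  rw [abs_of_nonneg (by positivity)]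
  calc sn r i ^ 2 * (sn r i)⁻¹ ^ h *
        ((2 * Real.cos (Real.pi * (((i : ℝ) + 1) / r) / 2) ^ 2)⁻¹) ^ p
      ≤ (Real.pi * w⁻¹) ^ 2 * w ^ h * 1 := by
        apply mul_le_mul _ (pow_le_one₀ h5 h6) (by positivity) (by positivity)
        apply mul_le_mul (pow_le_pow_left₀ h1.le h4' 2) (pow_le_pow_left₀ (by positivity) h3 h)
          (by positivity) (by positivity)
    _ = Real.pi ^ 2 * w ^ (h - 2) := by
        obtain ⟨t, ht⟩ : ∃ t, h = t + 2 := ⟨h - 2, by omega⟩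
        have ht' : h - 2 = t := by omega
        rw [ht', ht, mul_pow, pow_add]
        have e2 : (w⁻¹) ^ 2 * w ^ 2 = 1 := by rw [← mul_pow, inv_mul_cancel₀ hw0.ne', one_pow]
        linear_combination (Real.pi ^ 2 * w ^ t) * e2

/-- for h ≤ 3 -/
theorem Φ1_bound' (h p r i : ℕ) (hh : h ≤ 3) (hi : i < r / 2) :
    |Φ1 h p r i| ≤ r / ((i : ℝ) + 1) := by
  have hr' : (0 : ℝ) < r := by
    have : 0 < r := by omega
    exact_mod_cast this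
  have hi0 : (0 : ℝ) < (i : ℝ) + 1 := by positivity
  obtain ⟨h1, h2, h3, h4⟩ := sn_bounds r i hi
  obtain ⟨h5, h6⟩ := cos_fac r i hi
  unfold Φ1
  rw [abs_of_nonneg (by positivity)]
  have h7 : 1 ≤ (sn r i)⁻¹ := (one_le_inv₀ h1).2 h2
  calc sn r i ^ 2 * (sn r i)⁻¹ ^ h *
        ((2 * Real.cos (Real.pi * (((i : ℝ) + 1) / r) / 2) ^ 2)⁻¹) ^ p
      ≤ sn r i ^ 2 * (sn r i)⁻¹ ^ 3 * 1 := by
        apply mul_le_mul _ (pow_le_one₀ h5 h6) (by positivity) (by positivity)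
        apply mul_le_mul_of_nonneg_left (pow_le_pow_right₀ h7 hh) (by positivity)
    _ = (sn r i)⁻¹ := by
        have := h1.ne'
        field_simp
    _ ≤ r / ((i : ℝ) + 1) := h3

end Pool.Agent.H905.WG
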