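import Mathlib
import Pool.Agent.H905.WG.Anal

/-!
# No expansion
-/

set_option autoImplicit false

open Finset Filter Topology

namespace Pool.Agent.H905.WG

open H524R3 Pool.Agent.H905.WR

/-- The logarithmic density of a bounded sequence. -/
def HL (ε : ℕ → ℝ) (lam : ℝ) : Prop :=
  ∃ D : ℝ, ∀ I : ℕ, |∑ i ∈ range I, ε i / ((i : ℝ) + 1) - lam * Real.log ((I : ℝ) + 1)| ≤ D

theorem HL_one : HL (fun _ => 1) 1 := by
  refine ⟨1, fun I => ?_⟩
  have h1 := sum_inv_ge I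
  have h2 := sum_inv_le I
  have h3 : Real.log (I : ℝ) ≤ Real.log ((I : ℝ) + 1) := by
    rcases Nat.eq_zero_or_pos I with h | h
    · rw [h]; simp
    · apply Real.log_le_log (by exact_mod_cast h)
      linarith
  rw [abs_le]
  constructor <;> linarith

theorem HL_alt : HL (fun i => (-1) ^ i) 0 := by
  refine ⟨1, fun I => ?_⟩
  rw [zero_mul, sub_zero]
  rcases Nat.eq_zero_or_pos I with h | h
  · rw [h]; simp
  · obtain ⟨N, rfl⟩ : ∃ N, I = N + 1 := ⟨I - 1, by omega⟩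
    have h1 := alt' (fun i => ((1 / ((i : ℝ) + 1) : ℝ) : ℂ)) N
    have h2 : ∑ i ∈ range (N + 1), (-1 : ℂ) ^ i * ((1 / ((i : ℝ) + 1) : ℝ) : ℂ) =
        ((∑ i ∈ range (N + 1), (-1 : ℝ) ^ i / ((i : ℝ) + 1) : ℝ) : ℂ) := by
      push_cast
      refine sum_congr rfl fun i _ => ?_
      ring
    rw [h2, Complex.norm_real, Real.norm_eq_abs] at h1
    refine h1.trans ?_
    have h3 : ∀ i ∈ range N, ‖((1 / (((i + 1 : ℕ) : ℝ) + 1) : ℝ) : ℂ) - ((1 / ((i : ℝ) + 1) : ℝ) : ℂ)‖ =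
        1 / ((i : ℝ) + 1) - 1 / (((i + 1 : ℕ) : ℝ) + 1) := by
      intro i _
      rw [← Complex.ofReal_sub, Complex.norm_real, Real.norm_eq_abs, abs_sub_comm, abs_of_nonneg]
      rw [sub_nonneg]
      apply div_le_div_of_nonneg_left (by norm_num) (by positivity)
      push_cast; linarith
    rw [sum_congr rfl h3, sum_range_sub' (fun i : ℕ => 1 / ((i : ℝ) + 1))]
    rw [Complex.norm_real, Complex.norm_real, Real.norm_eq_abs, Real.norm_eq_abs,
      abs_of_nonneg (by positivity), abs_of_nonneg (by positivity)]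
    norm_num

theorem HL.lin {ε ε' : ℕ → ℝ} {lam lam' : ℝ} (h : HL ε lam) (h' : HL ε' lam') (a b : ℝ) :
    HL (fun i => a * ε i + b * ε' i) (a * lam + b * lam') := by
  obtain ⟨D, hD⟩ := h
  obtain ⟨D', hD'⟩ := h'
  refine ⟨|a| * D + |b| * D', fun I => ?_⟩
  have e : ∑ i ∈ range I, (a * ε i + b * ε' i) / ((i : ℝ) + 1) -
      (a * lam + b * lam') * Real.log ((I : ℝ) + 1) =
      a * (∑ i ∈ range I, ε i / ((i : ℝ) + 1) - lam * Real.log ((I : ℝ) + 1)) +
      b * (∑ i ∈ range I, ε' i / ((i : ℝ) + 1) - lam' * Real.log ((I : ℝ) + 1)) := by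
    have e1 : ∑ i ∈ range I, (a * ε i + b * ε' i) / ((i : ℝ) + 1) =
        a * ∑ i ∈ range I, ε i / ((i : ℝ) + 1) + b * ∑ i ∈ range I, ε' i / ((i : ℝ) + 1) := by
      rw [mul_sum, mul_sum, ← sum_add_distrib]
      refine sum_congr rfl fun i _ => ?_
      ring
    rw [e1]; ring
  rw [e]
  refine (abs_add_le _ _).trans (add_le_add ?_ ?_)
  · rw [abs_mul]; exact mul_le_mul_of_nonneg_left (hD I) (abs_nonneg a)
  · rw [abs_mul]; exact mul_le_mul_of_nonneg_left (hD' I) (abs_nonneg b)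

theorem lc_zero (n : ℝ) (q : ℕ) : lc 0 n q = 0 := by
  unfold lc
  split_ifs <;> simp

/-- The end near 0. -/
theorem end1_ex (h p : ℕ) (hh : Odd h) (hm : 3 ≤ h + 2 * p - 2) (n : ℝ) (ε : ℕ → ℝ)
    (hε : ∀ i, |ε i| ≤ 1) (lam : ℝ) (hlam : HL ε lam) (hc : lam = 0 ∨ 1 ≤ p) :
    Ex ((((h + 2 * p - 2 : ℕ) : ℝ) + 1) / 2) (fun r : ℕ => ∑ i ∈ range (r / 2),
      ((ε i * Φ1 h p r i : ℝ) : ℂ) * E (n / (2 * r) * ((i : ℝ) + 1) ^ 2)) := by
  have ht : (2 : ℝ) ≤ (((h + 2 * p - 2 : ℕ) : ℝ) + 1) / 2 := by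
    have : (3 : ℝ) ≤ ((h + 2 * p - 2 : ℕ) : ℝ) := by exact_mod_cast hm
    linarith
  by_cases h3 : h ≤ 3
  · refine Ex.err 2 ?_
    filter_upwards [eventually_ge_atTop 2] with r hr
    have hr' : (2 : ℝ) ≤ r := by exact_mod_cast hr
    have hterm : ∀ i ∈ range (r / 2), ‖((ε i * Φ1 h p r i : ℝ) : ℂ) *
        E (n / (2 * r) * ((i : ℝ) + 1) ^ 2)‖ ≤ r * (1 / ((i : ℝ) + 1)) := by
      intro i hi
      rw [mem_range] at hi
      rw [norm_mul, E_norm, mul_one, Complex.norm_real, Real.norm_eq_abs, abs_mul]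
      calc |ε i| * |Φ1 h p r i| ≤ 1 * (r / ((i : ℝ) + 1)) :=
            mul_le_mul (hε i) (Φ1_bound' h p r i h3 hi) (abs_nonneg _) (by norm_num)
        _ = r * (1 / ((i : ℝ) + 1)) := by ring
    refine (norm_sum_le _ _).trans ((sum_le_sum hterm).trans ?_)
    rw [← mul_sum]
    have h1 := sum_inv_le (r / 2)
    have h2 : Real.log ((r / 2 : ℕ) : ℝ) ≤ ((r / 2 : ℕ) : ℝ) := Real.log_le_self (Nat.cast_nonneg _)
    have h4 : ((r / 2 : ℕ) : ℝ) ≤ r := by exact_mod_cast Nat.div_le_self r 2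
    have h5 : (r : ℝ) ^ (2 : ℝ) ≤ (r : ℝ) ^ ((((h + 2 * p - 2 : ℕ) : ℝ) + 1) / 2) :=
      Real.rpow_le_rpow_of_exponent_le (by linarith) ht
    rw [Real.rpow_two] at h5
    calc (r : ℝ) * ∑ i ∈ range (r / 2), 1 / ((i : ℝ) + 1) ≤ r * (1 + r) := by
          apply mul_le_mul_of_nonneg_left _ (by linarith)
          linarith
      _ ≤ 2 * (r : ℝ) ^ 2 := by nlinarith
      _ ≤ 2 * (r : ℝ) ^ ((((h + 2 * p - 2 : ℕ) : ℝ) + 1) / 2) := by linarith
  · have h5 : 5 ≤ h := by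
      obtain ⟨k, hk⟩ := hh
      omega
    obtain ⟨D, hD⟩ := hlam
    have hphi := phi_ex ε hε lam D hD n (h - 2) (by omega) (F1 h p) (F1_analytic h p)
      (fun r => r / 2) (Φ1 h p) (Real.pi ^ 2) (by positivity)
      (by
        filter_upwards [eventually_ge_atTop 6] with r hr
        exact (sqrt_lt_half r hr).le)
      (by
        filter_upwards [eventually_ge_atTop 1] with r hr i _
        exact Φ1_eq h p r i (by omega) hr)
      (by
        filter_upwards with r i hi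
        exact Φ1_bound h p r i (by omega) hi)
    have hexp : (((h - 2 : ℕ) : ℝ) + 1) / 2 ≤ (((h + 2 * p - 2 : ℕ) : ℝ) + 1) / 2 := by
      have : ((h - 2 : ℕ) : ℝ) ≤ ((h + 2 * p - 2 : ℕ) : ℝ) := by
        have : h - 2 ≤ h + 2 * p - 2 := by omega
        exact_mod_cast this
      linarith
    rcases hc with hc | hc
    · rw [hc, lc_zero] at hphi
      refine Ex.congr (hphi.mono hexp) (Eventually.of_forall fun r => ?_)
      ring
    · have hexp' : (((h - 2 : ℕ) : ℝ) + 1) / 2 < (((h + 2 * p - 2 : ℕ) : ℝ) + 1) / 2 := by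
        have : ((h - 2 : ℕ) : ℝ) < ((h + 2 * p - 2 : ℕ) : ℝ) := by
          have : h - 2 < h + 2 * p - 2 := by omega
          exact_mod_cast this
        linarith
      refine Ex.congr (Ex.add (hphi.mono hexp) (log_absorb _ _ hexp'
        (((F1 h p 0 : ℝ) : ℂ) * lc lam n (h - 2)))) (Eventually.of_forall fun r => ?_)
      ring

/-- The sum at the end near 0, with its signs. -/
theorem A_ex (h p : ℕ) (hh : Odd h) (hm : 3 ≤ h + 2 * p - 2) (n : ℝ) :
    Ex ((((h + 2 * p - 2 : ℕ) : ℝ) + 1) / 2) (fun r : ℕ => ∑ i ∈ range (r / 2),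
      ((s1 p r i * Φ1 h p r i : ℝ) : ℂ) * E (n / (2 * r) * ((i : ℝ) + 1) ^ 2)) := by
  have halt : ∀ i : ℕ, |(-1 : ℝ) ^ i| ≤ 1 := fun i => by rw [abs_pow, abs_neg, abs_one, one_pow]
  have ha := end1_ex h p hh hm n (fun i => (-1) ^ i) halt 0 HL_alt (Or.inl rfl)
  by_cases hp : p = 0
  · refine Ex.congr ha (Eventually.of_forall fun r => ?_)
    refine sum_congr rfl fun i _ => ?_
    unfold s1
    rw [if_pos (Or.inl hp), mul_one]
  · have hb := end1_ex h p hh hm n (fun _ => 1) (fun _ => by simp) 1 HL_one (Or.inr (by omega))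
    have hb' := (hb.mul_term 0 (-1) (by rw [norm_neg, norm_one])).const_mul (1 / 2)
    rw [add_zero] at hb'
    refine Ex.congr (Ex.add (ha.const_mul (1 / 2)) hb') (Eventually.of_forall fun r => ?_)
    rw [Real.rpow_zero, Complex.ofReal_one, one_mul, mul_sum, mul_sum, mul_sum, ← sum_add_distrib]
    refine sum_congr rfl fun i _ => ?_
    have hs : s1 p r i = 1 / 2 * (-1) ^ i + 1 / 2 * (-1) ^ r := by
      unfold s1
      by_cases ho : Odd (i + 1 + r)
      · rw [if_pos (Or.inr ho), mul_one]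
        have h1 : (-1 : ℝ) ^ (i + 1 + r) = -1 := ho.neg_one_pow
        have h2 : (-1 : ℝ) ^ (i + 1 + r) = -((-1) ^ i * (-1) ^ r) := by
          rw [pow_add, pow_succ]; ring
        rcases neg_one_pow_eq_or ℝ i with e | e <;> rcases neg_one_pow_eq_or ℝ r with e' | e' <;>
          rw [e, e'] at h2 <;> rw [e, e'] <;> linarith
      · rw [if_neg (by tauto), mul_zero]
        have h1 : (-1 : ℝ) ^ (i + 1 + r) = 1 := (Nat.not_odd_iff_even.1 ho).neg_one_pow
        have h2 : (-1 : ℝ) ^ (i + 1 + r) = -((-1) ^ i * (-1) ^ r) := by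
          rw [pow_add, pow_succ]; ring
        rcases neg_one_pow_eq_or ℝ i with e | e <;> rcases neg_one_pow_eq_or ℝ r with e' | e' <;>
          rw [e, e'] at h2 <;> rw [e, e'] <;> linarith
    rw [hs]
    push_cast
    ring

theorem sgn_abs (n : ℤ) : |sgn n| = 1 := by
  unfold sgn; split_ifs <;> simp

theorem s2_abs (p : ℕ) (n : ℤ) (i : ℕ) : |s2 p n i| ≤ 1 := by
  unfold s2
  rw [abs_mul, abs_mul, abs_pow, abs_pow, sgn_abs, abs_neg, abs_one, one_pow, one_mul, one_mul]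
  split_ifs <;> simp

theorem s2_HL (p : ℕ) (n : ℤ) (hc : 1 ≤ p ∨ Odd n) : ∃ lam : ℝ, lam ≠ 0 ∧ HL (s2 p n) lam := by
  by_cases hp : p = 0
  · have hn : Odd n := by
      rcases hc with h | h
      · omega
      · exact h
    have hs : sgn n = -1 := by
      unfold sgn; rw [if_neg (Int.not_even_iff_odd.2 hn)]
    have e : s2 p n = fun _ => 1 := by
      funext i
      unfold s2
      rw [if_pos (Or.inl hp), hs, mul_one, ← mul_pow]
      norm_num
    rw [e]
    exact ⟨1, one_ne_zero, HL_one⟩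
  · have h1 := HL_one.lin HL_alt (-(sgn n) / 2) (-(sgn n) / 2)
    refine ⟨-(sgn n) / 2, ?_, ?_⟩
    · have := sgn_abs n
      intro h0
      have h2 : sgn n = 0 := by linarith
      rw [h2] at this
      simp at this
    · have e : s2 p n = fun i => -(sgn n) / 2 * 1 + -(sgn n) / 2 * (-1) ^ i := by
        funext i
        unfold s2
        have hsq : sgn n * sgn n = 1 := by
          unfold sgn; split_ifs <;> norm_num
        by_cases ho : Odd (i + 1)
        · rw [if_pos (Or.inr ho), ho.neg_one_pow]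
          have hi : Even i := by
            obtain ⟨k, hk⟩ := ho
            exact ⟨k, by omega⟩
          obtain ⟨k, hk⟩ := ho
          have h2 : sgn n ^ (i + 1) = sgn n := by
            rw [hk, pow_succ, pow_mul, sq, hsq, one_pow, one_mul]
          rw [h2, hi.neg_one_pow]
          ring
        · rw [if_neg (by tauto)]
          have hi : Odd i := by
            rw [Nat.not_odd_iff_even] at ho
            obtain ⟨k, hk⟩ := ho
            exact ⟨k - 1, by omega⟩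
          rw [hi.neg_one_pow]
          ring
      rw [e]
      have e2 : -(sgn n) / 2 * 1 + -(sgn n) / 2 * 0 = -(sgn n) / 2 := by ring
      rw [e2] at h1
      exact h1

theorem gr_eq (h r : ℕ) (hr : 1 ≤ r) : gr h r = (Real.sqrt 2 ^ 2 * (Real.sqrt 2)⁻¹ ^ h) *
    (r : ℝ) ^ ((h : ℝ) / 2 - 1) := by
  have hr' : (0 : ℝ) < r := by exact_mod_cast hr
  have hs : 0 < Real.sqrt r := Real.sqrt_pos.2 hr'
  unfold gr
  rw [Real.sqrt_div (by norm_num), Real.rpow_sub hr', Real.rpow_one, ← sqrt_pow_eq r h hr, inv_div,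
    div_pow, div_pow, Real.sq_sqrt hr'.le, inv_pow]
  field_simp

theorem lc_ne (lam : ℝ) (n : ℝ) (q : ℕ) (hq : Odd q) (hl : lam ≠ 0) (hn : n ≠ 0) : lc lam n q ≠ 0 := by
  unfold lc
  rw [if_pos hq]
  have h1 : ((lam / 2 : ℝ) : ℂ) ≠ 0 := by
    have : lam / 2 ≠ 0 := div_ne_zero hl (by norm_num)
    exact_mod_cast this
  have h2 : ((n / 2 : ℝ) : ℂ) ≠ 0 := by
    have : n / 2 ≠ 0 := div_ne_zero hn (by norm_num)
    exact_mod_cast this
  have h3 : (Real.pi : ℂ) * Complex.I ≠ 0 :=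
    mul_ne_zero (by exact_mod_cast Real.pi_ne_zero) Complex.I_ne_zero
  have h4 : (((q - 1) / 2).factorial : ℂ) ≠ 0 := by exact_mod_cast Nat.factorial_ne_zero _
  exact mul_ne_zero h1 (mul_ne_zero (div_ne_zero (pow_ne_zero _ h3) h4) (pow_ne_zero _ h2))

/-- No expansion, at least three singular powers. -/
theorem no_exp_large (h p : ℕ) (hh : Odd h) (hm : 3 ≤ h + 2 * p - 2) (n : ℤ) (hn : n ≠ 0)
    (hc : 1 ≤ p ∨ Odd n) (α β : ℝ) :
    ¬ HasExpansion 2 (fun k => E (α + β / (k + 2)) * (seifertTree h p n).wrt (k + 2)) := by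
  intro H
  set t : ℝ := (((h + 2 * p - 2 : ℕ) : ℝ) + 1) / 2 with ht
  have hodd : Odd (h + 2 * p - 2) := by
    obtain ⟨k, hk⟩ := hh
    exact ⟨k + p - 1, by omega⟩
  have H' : HasExpansion 2 (fun k => (fun r : ℕ => E (α + β / r) * (seifertTree h p n).wrt r) (k + 2)) := by
    have e : (fun k => (fun r : ℕ => E (α + β / r) * (seifertTree h p n).wrt r) (k + 2)) =
        fun k : ℕ => E (α + β / (k + 2)) * (seifertTree h p n).wrt (k + 2) := by
      funext k
      show E (α + β / ((k + 2 : ℕ) : ℝ)) * _ = _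
      push_cast
      rfl
    rw [e]; exact H
  have hex := ex_of_hasExpansion 2 (fun r : ℕ => E (α + β / r) * (seifertTree h p n).wrt r) H'
    (t - (1 - (h : ℝ) / 2))
  have hex2 := ((hex.mul_term (1 - (h : ℝ) / 2) 1 norm_one).mul_E (n / 2 - β)).const_mul
    (E (-α) * (((Real.sqrt 2 ^ 2 * (Real.sqrt 2)⁻¹ ^ h)⁻¹ : ℝ) : ℂ))
  have e0 : t - (1 - (h : ℝ) / 2) + (1 - (h : ℝ) / 2) = t := by ring
  rw [e0] at hex2
  obtain ⟨lam, hl0, hl⟩ := s2_HL p n hc
  obtain ⟨D, hD⟩ := hl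
  have hB := phi_ex (s2 p n) (s2_abs p n) lam D hD n (h + 2 * p - 2) hm (F2 h p) (F2_analytic h p)
      (fun r => r - 1 - r / 2) (Φ2 h p) (Real.pi ^ 2) (by positivity)
      (by
        filter_upwards [eventually_ge_atTop 10] with r hr
        exact (sqrt_lt_half' r hr).le)
      (by
        filter_upwards [eventually_ge_atTop 1] with r hr i _
        exact Φ2_eq h p r i (by omega) hr)
      (by
        filter_upwards with r i hi
        exact Φ2_bound h p r i (by omega) (by omega))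
  rw [← ht] at hB
  have hA := A_ex h p hh hm n
  rw [← ht] at hA
  set z : ℂ := -E (n / 2) with hz
  have hz1 : ‖z‖ = 1 := by rw [hz, norm_neg, E_norm]
  have hB' := hB.mul_term 0 z hz1
  rw [add_zero] at hB'
  have key := Ex.sub (Ex.sub hA hex2) hB'
  refine not_ex_log t (((F2 h p 0 : ℝ) : ℂ) * lc lam n (h + 2 * p - 2))
    (mul_ne_zero (by exact_mod_cast F2_zero_ne h p)
      (lc_ne lam n _ hodd hl0 (by exact_mod_cast hn))) z hz1 (Ex.congr key ?_)
  filter_upwards [eventually_ge_atTop 2] with r hr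
  have hr' : (0 : ℝ) < r := by
    have : 0 < r := by omega
    exact_mod_cast this
  rw [wrt_split h p hh n r hr, gr_eq h r (by omega), Real.rpow_zero, Complex.ofReal_one, one_mul,
    one_pow, mul_one]
  have hE : E (-α) * E ((n / 2 - β) / r) * E (α + β / r) * E (-(n / (2 * r))) = 1 := by
    rw [← E_add, ← E_add, ← E_add]
    have : -α + (n / 2 - β) / r + (α + β / r) + -(n / (2 * r)) = 0 := by
      field_simp
      ring
    rw [this, E_zero]
  have hrp : (r : ℝ) ^ (1 - (h : ℝ) / 2) * (r : ℝ) ^ ((h : ℝ) / 2 - 1) = 1 := by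
    rw [← Real.rpow_add hr']
    have : 1 - (h : ℝ) / 2 + ((h : ℝ) / 2 - 1) = 0 := by ring
    rw [this, Real.rpow_zero]
  have hrpc : (((r : ℝ) ^ (1 - (h : ℝ) / 2) : ℝ) : ℂ) * (((r : ℝ) ^ ((h : ℝ) / 2 - 1) : ℝ) : ℂ) = 1 := by
    rw [← Complex.ofReal_mul, hrp, Complex.ofReal_one]
  have hd : (((Real.sqrt 2 ^ 2 * (Real.sqrt 2)⁻¹ ^ h)⁻¹ : ℝ) : ℂ) *
      ((Real.sqrt 2 ^ 2 * (Real.sqrt 2)⁻¹ ^ h : ℝ) : ℂ) = 1 := by
    rw [← Complex.ofReal_mul, inv_mul_cancel₀, Complex.ofReal_one]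
    positivity
  rw [Complex.ofReal_mul (Real.sqrt 2 ^ 2 * (Real.sqrt 2)⁻¹ ^ h)]
  generalize (((Real.sqrt 2 ^ 2 * (Real.sqrt 2)⁻¹ ^ h)⁻¹ : ℝ) : ℂ) = d' at hd ⊢
  generalize ((Real.sqrt 2 ^ 2 * (Real.sqrt 2)⁻¹ ^ h : ℝ) : ℂ) = d at hd ⊢
  generalize (((r : ℝ) ^ (1 - (h : ℝ) / 2) : ℝ) : ℂ) = a at hrpc ⊢
  generalize (((r : ℝ) ^ ((h : ℝ) / 2 - 1) : ℝ) : ℂ) = b at hrpc ⊢
  generalize ∑ i ∈ range (r / 2), ((s1 p r i * Φ1 h p r i : ℝ) : ℂ) *
    E (n / (2 * r) * ((i : ℝ) + 1) ^ 2) = A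
  generalize ∑ i ∈ range (r - 1 - r / 2), ((s2 p n i * Φ2 h p r i : ℝ) : ℂ) *
          E (n / (2 * r) * ((i : ℝ) + 1) ^ 2) = B
  rw [← hz]
  generalize E (-α) = e1 at hE ⊢
  generalize E ((n / 2 - β) / r) = e2 at hE ⊢
  generalize E (α + β / r) = e3 at hE ⊢
  generalize E (-(n / (2 * r))) = e4 at hE ⊢
  linear_combination (-(A - z ^ r * B) * (d' * d) * (a * b)) * hE - ((A - z ^ r * B) * (a * b)) * hd -
    (A - z ^ r * B) * hrpc

end Pool.Agent.H905.WG
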