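import Mathlib
import Pool.Agent.H905.WG.Main

/-!
# The final statements
-/

set_option autoImplicit false

open Finset Filter Topology

namespace Pool.Agent.H905.WG

open H524R3 Pool.Agent.H905.WR

theorem seifert_one_one (n : ℤ) (r : ℕ) (hr : 2 ≤ r) : (seifertTree 1 1 n).wrt r = Zs n r := by
  rw [wrt_seifert 1 1 n r hr]
  unfold Zs
  refine sum_congr rfl fun u hu => ?_
  rw [mem_Icc] at hu
  have h0 : ((sm r 1 u : ℝ) : ℂ) ≠ 0 := by exact_mod_cast (sm_pos r u hu.1 (by omega)).ne'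
  rw [pow_one, pow_one]
  push_cast
  field_simp

theorem seifert_three_zero (n : ℤ) (r : ℕ) (hr : 2 ≤ r) : (seifertTree 3 0 n).wrt r = Zt n r := by
  rw [wrt_seifert 3 0 n r hr]
  unfold Zt
  refine sum_congr rfl fun u hu => ?_
  rw [mem_Icc] at hu
  have h0 : ((sm r 1 u : ℝ) : ℂ) ≠ 0 := by exact_mod_cast (sm_pos r u hu.1 (by omega)).ne'
  rw [pow_zero, one_mul, div_pow]
  push_cast
  field_simp

theorem no_expansion (s c D : ℝ) (hc : 0 < c) (Z : ℕ → ℂ)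
    (h : ∀ᶠ r : ℕ in atTop, |‖Z r‖ - c * ((r : ℝ) ^ s * Real.log r)| ≤ D * (r : ℝ) ^ s)
    (ω : ℕ → ℂ) (hω : ∀ k, ‖ω k‖ = 1) : ¬ HasExpansion 2 (fun k => ω k * Z (k + 2)) := by
  have h1 := not_hasExpansion 2 s (fun n => ω (n - 2) * Z n) (c + |D|) ?_ ?_
  · simpa using h1
  · filter_upwards [h, eventually_ge_atTop 1] with n hn hn1
    have hn' : (1 : ℝ) ≤ n := by exact_mod_cast hn1
    have hl : 0 ≤ Real.log n := Real.log_nonneg hn'
    have hp : 0 ≤ (n : ℝ) ^ s := Real.rpow_nonneg (by linarith) _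
    rw [norm_mul, hω, one_mul]
    have h2 := (abs_le.1 hn).2
    have h3 : D * (n : ℝ) ^ s ≤ |D| * (n : ℝ) ^ s := mul_le_mul_of_nonneg_right (le_abs_self D) hp
    have h4 : 0 ≤ |D| * ((n : ℝ) ^ s * Real.log n) := by positivity
    have h5 : 0 ≤ c * (n : ℝ) ^ s := by positivity
    nlinarith
  · have h2 : Tendsto (fun r : ℕ => c * Real.log (r : ℝ) - D) atTop atTop :=
      tendsto_atTop_add_const_right _ _
        ((Real.tendsto_log_atTop.comp tendsto_natCast_atTop_atTop).const_mul_atTop hc)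
    refine tendsto_atTop_mono' _ ?_ h2
    filter_upwards [h, eventually_ge_atTop 1] with n hn hn1
    have hn' : (0 : ℝ) < n := by exact_mod_cast hn1
    have hp : 0 < (n : ℝ) ^ s := Real.rpow_pos_of_pos hn' _
    rw [norm_mul, hω, one_mul, le_div_iff₀ hp]
    have h3 := (abs_le.1 hn).1
    nlinarith

theorem rpow_half (r : ℕ) : (r : ℝ) ^ (1 / 2 : ℝ) = Real.sqrt r := (Real.sqrt_eq_rpow _).symm

theorem rpow_three_half (r : ℕ) (hr : 1 ≤ r) : (r : ℝ) ^ (3 / 2 : ℝ) = r * Real.sqrt r := by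
  have hr' : (0 : ℝ) < r := by exact_mod_cast hr
  rw [Real.sqrt_eq_rpow, show (3 / 2 : ℝ) = 1 + 1 / 2 by norm_num, Real.rpow_add hr', Real.rpow_one]

theorem one_final (n : ℤ) (r : ℕ) (hr : 6 ≤ r) :
    |‖(seifertTree 1 1 n).wrt r‖ -
      (if n = 0 then Real.sqrt 2 / Real.pi else Real.sqrt 2 / (2 * Real.pi)) *
      ((r : ℝ) ^ (1 / 2 : ℝ) * Real.log r)| ≤
      (Real.sqrt 2 * (15 * |(n : ℝ)| + 2)) * (r : ℝ) ^ (1 / 2 : ℝ) := by
  rw [rpow_half, seifert_one_one n r (by omega)]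
  by_cases hn : n = 0
  · rw [if_pos hn, hn]
    have := semi_asym_zero r hr
    simpa using this
  · rw [if_neg hn]
    exact semi_asym n hn r hr

theorem three_final (n : ℤ) (hn : Odd n) (r : ℕ) (hr : 10 ≤ r) :
    |‖(seifertTree 3 0 n).wrt r‖ - 1 / (2 * Real.sqrt 2 * Real.pi) *
      ((r : ℝ) ^ (3 / 2 : ℝ) * Real.log r)| ≤
      (1 / Real.sqrt 2 * (16 * |(n : ℝ)| + 3)) * (r : ℝ) ^ (3 / 2 : ℝ) := by
  rw [rpow_three_half r (by omega), seifert_three_zero n r (by omega)]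
  exact three_asym n hn r hr

theorem one_no (n : ℤ) (ω : ℕ → ℂ) (hω : ∀ k, ‖ω k‖ = 1) :
    ¬ HasExpansion 2 (fun k => ω k * (seifertTree 1 1 n).wrt (k + 2)) := by
  have hpi := Real.pi_pos
  refine no_expansion (1 / 2)
      (if n = 0 then Real.sqrt 2 / Real.pi else Real.sqrt 2 / (2 * Real.pi))
      (Real.sqrt 2 * (15 * |(n : ℝ)| + 2)) ?_ _ ?_ ω hω
  · split_ifs <;> positivity
  · filter_upwards [Filter.eventually_ge_atTop 6] with r hr
    exact one_final n r hr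

theorem three_no (n : ℤ) (hn : Odd n) (ω : ℕ → ℂ) (hω : ∀ k, ‖ω k‖ = 1) :
    ¬ HasExpansion 2 (fun k => ω k * (seifertTree 3 0 n).wrt (k + 2)) := by
  have hpi := Real.pi_pos
  refine no_expansion (3 / 2) (1 / (2 * Real.sqrt 2 * Real.pi))
      (1 / Real.sqrt 2 * (16 * |(n : ℝ)| + 3)) (by positivity) _ ?_ ω hω
  filter_upwards [Filter.eventually_ge_atTop 10] with r hr
  exact three_final n hn r hr

theorem E_eq_exp (α β : ℝ) (k : ℕ) : E (α + β / (k + 2)) =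
    Complex.exp (Real.pi * Complex.I * (α + β / (k + 2))) := by
  unfold E
  push_cast
  rfl

/-- No expansion in all cases. -/
theorem no_exp_all (h p : ℕ) (n : ℤ) (hh : Odd h) (hn : n ≠ 0) (hc : 1 ≤ p ∨ (3 ≤ h ∧ Odd n))
    (α β : ℝ) : ¬ HasExpansion 2 (fun k => Complex.exp (Real.pi * Complex.I * (α + β / (k + 2))) *
      (seifertTree h p n).wrt (k + 2)) := by
  have hE : ∀ k : ℕ, ‖Complex.exp (Real.pi * Complex.I * (α + β / (k + 2)))‖ = 1 := by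
    intro k
    rw [← E_eq_exp, E_norm]
  by_cases hm : 3 ≤ h + 2 * p - 2
  · have h1 := no_exp_large h p hh hm n hn (by tauto) α β
    simp only [E_eq_exp] at h1
    exact h1
  · have h1 : (h = 1 ∧ p = 1) ∨ (h = 3 ∧ p = 0) := by
      obtain ⟨k, hk⟩ := hh
      omega
    rcases h1 with ⟨rfl, rfl⟩ | ⟨rfl, rfl⟩
    · exact one_no n _ hE
    · have hodd : Odd n := by
        rcases hc with h | h
        · omega
        · exact h.2
      exact three_no n hodd _ hE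

/-- The expansion with a logarithm. -/
theorem log_term (h p : ℕ) (hh : Odd h) (hm : 3 ≤ h + 2 * p - 2) (n : ℤ) (hn : n ≠ 0)
    (hc : 1 ≤ p ∨ Odd n) :
    ∃ c z : ℂ, c ≠ 0 ∧ ‖z‖ = 1 ∧ Ex ((h : ℝ) + p - 3 / 2) (fun r : ℕ =>
      Complex.exp (Real.pi * Complex.I * (n / (2 * r))) * (seifertTree h p n).wrt r -
        c * z ^ r * (((r : ℝ) ^ ((h : ℝ) + p - 3 / 2) * Real.log r : ℝ) : ℂ)) := by
  set t : ℝ := (((h + 2 * p - 2 : ℕ) : ℝ) + 1) / 2 with ht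
  have hodd : Odd (h + 2 * p - 2) := by
    obtain ⟨k, hk⟩ := hh
    exact ⟨k + p - 1, by omega⟩
  obtain ⟨lam, hl0, hl⟩ := s2_HL p n hc
  obtain ⟨D, hD⟩ := hl
  have hB := phi_ex (s2 p n) (s2_abs p n) lam D hD n (h + 2 * p - 2) hm (F2 h p) (F2_analytic h p)
      (fun r => r - 1 - r / 2) (Φ2 h p) (Real.pi ^ 2) (by positivity)
      (by
        filter_upwards [eventually_ge_atTop 10] with r hr
        exact (sqrt_lt_half' r hr).le)
      (by
        filter_upwards [eventually_ge_atTop 1] with r hr i _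
        exact Φ2_eq h p r i (by omega) hr)
      (by
        filter_upwards with r i hi
        exact Φ2_bound h p r i (by omega) (by omega))
  rw [← ht] at hB
  have hA := A_ex h p hh hm n
  rw [← ht] at hA
  set z : ℂ := -E (n / 2) with hz
  have hz1 : ‖z‖ = 1 := by rw [hz, norm_neg, E_norm]
  have hB' := hB.mul_term 0 z hz1
  rw [add_zero] at hB'
  have key := ((Ex.sub hA hB').mul_term ((h : ℝ) / 2 - 1) 1 norm_one).const_mul
    ((Real.sqrt 2 ^ 2 * (Real.sqrt 2)⁻¹ ^ h : ℝ) : ℂ)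
  have e1 : t + ((h : ℝ) / 2 - 1) = (h : ℝ) + p - 3 / 2 := by
    rw [ht, Nat.cast_sub (by omega)]
    push_cast
    ring
  rw [e1] at key
  have hd : ((Real.sqrt 2 ^ 2 * (Real.sqrt 2)⁻¹ ^ h : ℝ) : ℂ) ≠ 0 := by
    have : Real.sqrt 2 ^ 2 * (Real.sqrt 2)⁻¹ ^ h ≠ 0 := by positivity
    exact_mod_cast this
  refine ⟨-(((Real.sqrt 2 ^ 2 * (Real.sqrt 2)⁻¹ ^ h : ℝ) : ℂ) *
    (((F2 h p 0 : ℝ) : ℂ) * lc lam n (h + 2 * p - 2))), z,
    neg_ne_zero.2 (mul_ne_zero hd (mul_ne_zero (by exact_mod_cast F2_zero_ne h p)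
      (lc_ne lam n _ hodd hl0 (by exact_mod_cast hn)))), hz1, Ex.congr key ?_⟩
  filter_upwards [eventually_ge_atTop 2] with r hr
  have hr' : (0 : ℝ) < r := by
    have : 0 < r := by omega
    exact_mod_cast this
  rw [wrt_split h p hh n r hr, gr_eq h r (by omega), Real.rpow_zero, Complex.ofReal_one, one_mul,
    one_pow, mul_one]
  have hE : Complex.exp (Real.pi * Complex.I * (n / (2 * r))) * E (-(n / (2 * r))) = 1 := by
    have : Complex.exp (Real.pi * Complex.I * (n / (2 * r))) = E (n / (2 * r)) := by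
      unfold E; push_cast; rfl
    rw [this, ← E_add, add_neg_cancel, E_zero]
  have hrp : (r : ℝ) ^ ((h : ℝ) / 2 - 1) * (r : ℝ) ^ t = (r : ℝ) ^ ((h : ℝ) + p - 3 / 2) := by
    rw [← Real.rpow_add hr', ← e1]
    congr 1
    ring
  have hrpc : (((r : ℝ) ^ ((h : ℝ) + p - 3 / 2) * Real.log r : ℝ) : ℂ) =
      (((r : ℝ) ^ ((h : ℝ) / 2 - 1) : ℝ) : ℂ) * (((r : ℝ) ^ t * Real.log r : ℝ) : ℂ) := by
    rw [← hrp]; push_cast; ring
  rw [hrpc, Complex.ofReal_mul (Real.sqrt 2 ^ 2 * (Real.sqrt 2)⁻¹ ^ h)]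
  generalize ((Real.sqrt 2 ^ 2 * (Real.sqrt 2)⁻¹ ^ h : ℝ) : ℂ) = d
  generalize (((r : ℝ) ^ ((h : ℝ) / 2 - 1) : ℝ) : ℂ) = b
  generalize (((r : ℝ) ^ t * Real.log r : ℝ) : ℂ) = L
  generalize ∑ i ∈ range (r / 2), ((s1 p r i * Φ1 h p r i : ℝ) : ℂ) *
    E (n / (2 * r) * ((i : ℝ) + 1) ^ 2) = A
  generalize ∑ i ∈ range (r - 1 - r / 2), ((s2 p n i * Φ2 h p r i : ℝ) : ℂ) *
          E (n / (2 * r) * ((i : ℝ) + 1) ^ 2) = B
  rw [← hz]
  generalize E (-(n / (2 * r))) = e4 at hE ⊢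
  generalize Complex.exp (Real.pi * Complex.I * (n / (2 * r))) = e5 at hE ⊢
  linear_combination (-(d * b * (A - z ^ r * B))) * hE

/-- The expansion with a logarithm, in explicit form. -/
theorem log_term' (h p : ℕ) (hh : Odd h) (hm : 3 ≤ h + 2 * p - 2) (n : ℤ) (hn : n ≠ 0)
    (hc : 1 ≤ p ∨ Odd n) :
    ∃ (c z : ℂ) (N : ℕ) (β w : Fin N → ℂ) (e : Fin N → ℝ) (C : ℝ), c ≠ 0 ∧ ‖z‖ = 1 ∧
      (∀ j, ‖w j‖ = 1) ∧ ∀ᶠ r : ℕ in atTop,
      ‖Complex.exp (Real.pi * Complex.I * (n / (2 * r))) * (seifertTree h p n).wrt r -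
        ∑ j, β j * (((r : ℝ) ^ e j : ℝ) : ℂ) * w j ^ r -
        c * z ^ r * (((r : ℝ) ^ ((h : ℝ) + p - 3 / 2) * Real.log r : ℝ) : ℂ)‖ ≤
        C * (r : ℝ) ^ ((h : ℝ) + p - 3 / 2) := by
  obtain ⟨c, z, hc0, hz, hex⟩ := log_term h p hh hm n hn hc
  obtain ⟨ι, _, β, w, e, hw, C, hC⟩ := hex.extract
  let eq := (Fintype.equivFin ι).symm
  refine ⟨c, z, Fintype.card ι, fun j => β (eq j), fun j => w (eq j), fun j => e (eq j), C, hc0, hz,
    fun j => hw _, ?_⟩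
  filter_upwards [hC] with r hr
  have h1 : ∑ j : Fin (Fintype.card ι), β (eq j) * (((r : ℝ) ^ e (eq j) : ℝ) : ℂ) * w (eq j) ^ r =
      ∑ i, β i * (((r : ℝ) ^ e i : ℝ) : ℂ) * w i ^ r :=
    Equiv.sum_comp eq (fun i => β i * (((r : ℝ) ^ e i : ℝ) : ℂ) * w i ^ r)
  rw [h1, sub_right_comm]
  exact hr

end Pool.Agent.H905.WG
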