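import Mathlib
import Pool.Graph.R_seed8.H524R3.Leaf

/-!
# The product of the contributions of two leaves of framings a and -a, a odd, r = 1 mod a
-/

set_option autoImplicit false

open Finset

namespace Pool.Agent.H905.WG

open H524R3

/-- The summand of the Gauss sum. -/
noncomputable def gt (a r : ℕ) (w : ℤ) (v : ℕ) : ℂ := E ((a * (v : ℝ) ^ 2 + 2 * w * v) / (2 * r))

noncomputable def GG (a r : ℕ) (w : ℤ) : ℂ := ∑ v ∈ range (2 * r), gt a r w v

theorem gt_period (a r : ℕ) (hr : 0 < r) (w : ℤ) (v : ℕ) : gt a r w (v + 2 * r) = gt a r w v := by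
  have hr' : (r : ℝ) ≠ 0 := by exact_mod_cast hr.ne'
  unfold gt
  have e : ((a : ℝ) * ((v + 2 * r : ℕ) : ℝ) ^ 2 + 2 * w * ((v + 2 * r : ℕ) : ℝ)) / (2 * r) =
      (a * (v : ℝ) ^ 2 + 2 * w * v) / (2 * r) + ((2 * (a * v + a * r + w) : ℤ) : ℝ) := by
    push_cast
    field_simp
    ring
  rw [e, E_add, E_even _ (even_two_mul _), mul_one]

theorem sum_shift {f : ℕ → ℂ} {N : ℕ} (hf : ∀ v, f (v + N) = f v) (b : ℕ) :
    ∑ v ∈ range N, f (v + b) = ∑ v ∈ range N, f v := by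
  induction b with
  | zero => rfl
  | succ b ih =>
    rw [← ih]
    have h := sum_range_shift (fun v => f (v + b)) N (by
      show f (N + b) = f (0 + b)
      rw [zero_add, add_comm, hf])
    rw [← h]
    refine sum_congr rfl fun v _ => ?_
    show f (v + (b + 1)) = f (v + 1 + b)
    congr 1
    omega

theorem GG_succ (a r b k : ℕ) (hr : 0 < r) (hab : a * b = 1 + 2 * r * k) (w : ℤ) :
    GG a r w = E ((a * (b : ℝ) ^ 2 + 2 * w * b) / (2 * r)) * GG a r (w + 1) := by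
  have hr' : (r : ℝ) ≠ 0 := by exact_mod_cast hr.ne'
  unfold GG
  rw [← sum_shift (gt_period a r hr w) b, mul_sum]
  refine sum_congr rfl fun v _ => ?_
  unfold gt
  rw [← E_add]
  have hab' : (a : ℝ) * b = 1 + 2 * r * k := by exact_mod_cast hab
  have e : ((a : ℝ) * ((v + b : ℕ) : ℝ) ^ 2 + 2 * w * ((v + b : ℕ) : ℝ)) / (2 * r) =
      (a * (b : ℝ) ^ 2 + 2 * w * b) / (2 * r) + (a * (v : ℝ) ^ 2 + 2 * ((w + 1 : ℤ) : ℝ) * v) / (2 * r) +
        ((2 * (k * v) : ℤ) : ℝ) := by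
    push_cast
    field_simp
    linear_combination (2 * (v : ℝ)) * hab'
  rw [e, E_add, E_even _ (even_two_mul _), mul_one]

theorem GG_neg (a r : ℕ) (hr : 0 < r) (w : ℤ) : GG a r (-w) = GG a r w := by
  have hr' : (r : ℝ) ≠ 0 := by exact_mod_cast hr.ne'
  unfold GG
  have h0 : gt a r w (2 * r) = gt a r w 0 := by
    have := gt_period a r hr w 0
    rwa [zero_add] at this
  rw [← sum_range_neg (fun v => gt a r w v) (2 * r) h0]
  refine sum_congr rfl fun v hv => ?_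
  have hv' : v ≤ 2 * r := (mem_range.mp hv).le
  unfold gt
  rw [Nat.cast_sub hv']
  have e : ((a : ℝ) * (((2 * r : ℕ) : ℝ) - v) ^ 2 + 2 * w * (((2 * r : ℕ) : ℝ) - v)) / (2 * r) =
      (a * (v : ℝ) ^ 2 + 2 * ((-w : ℤ) : ℝ) * v) / (2 * r) + ((2 * (a * r - a * v + w) : ℤ) : ℝ) := by
    push_cast
    field_simp
    ring
  rw [e, E_add, E_even _ (even_two_mul _), mul_one]

theorem GG_norm (a r : ℕ) (hr : 0 < r) (hc : Nat.Coprime a (2 * r)) (w : ℤ) :
    ‖GG a r w‖ ^ 2 = 2 * r := by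
  have hr' : (r : ℝ) ≠ 0 := by exact_mod_cast hr.ne'
  have h1 : GG a r w * (starRingEnd ℂ) (GG a r w) = (2 * r : ℂ) := by
    have h2 : GG a r w * (starRingEnd ℂ) (GG a r w) =
        ∑ v' ∈ range (2 * r), ∑ v ∈ range (2 * r), gt a r w (v + v') * (starRingEnd ℂ) (gt a r w v') := by
      have h3 : (starRingEnd ℂ) (GG a r w) = ∑ v' ∈ range (2 * r), (starRingEnd ℂ) (gt a r w v') := by
        unfold GG; rw [map_sum]
      rw [h3, mul_sum]
      refine sum_congr rfl fun v' _ => ?_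
      rw [← sum_mul, sum_shift (gt_period a r hr w) v']
      rfl
    rw [h2, sum_comm]
    have h4 : ∀ v ∈ range (2 * r), ∑ v' ∈ range (2 * r), gt a r w (v + v') * (starRingEnd ℂ) (gt a r w v') =
        if v = 0 then (2 * r : ℂ) else 0 := by
      intro v hv
      rw [mem_range] at hv
      have h5 : ∀ v' ∈ range (2 * r), gt a r w (v + v') * (starRingEnd ℂ) (gt a r w v') =
          gt a r w v * E (v' * ((2 * (a * v) : ℤ) : ℝ) / ((2 * r : ℕ) : ℝ)) := by
        intro v' _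
        unfold gt
        rw [E_conj, ← E_add, ← E_add]
        congr 1
        push_cast
        field_simp
        ring
      rw [sum_congr rfl h5, ← mul_sum]
      by_cases h0 : v = 0
      · subst h0
        rw [if_pos rfl]
        have h6 : gt a r w 0 = 1 := by unfold gt; simp [E_zero]
        rw [h6, one_mul]
        simp [E_zero]
      · rw [if_neg h0, sum_E_even (2 * r) (2 * (a * v)) (by omega) (even_two_mul _) ?_, mul_zero]
        intro k hk
        have h7 : (a : ℤ) * v = 2 * r * k := by push_cast at hk; linarith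
        have h8 : ((2 * r : ℕ) : ℤ) ∣ (a : ℤ) * v := ⟨k, by push_cast; exact h7⟩
        have h9 : (2 * r) ∣ a * v := by exact_mod_cast h8
        have h10 := hc.symm.dvd_of_dvd_mul_left h9
        exact absurd (Nat.le_of_dvd (by omega) h10) (by omega)
    rw [sum_congr rfl h4, sum_ite_eq' (range (2 * r)) 0, if_pos (by rw [mem_range]; omega)]
  rw [Complex.mul_conj, Complex.normSq_eq_norm_sq] at h1
  exact_mod_cast h1

/-- The oscillating summand. -/
noncomputable def Fa (a r u v : ℕ) : ℂ :=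
  ((Real.sin (Real.pi * (v / r)) * Real.sin (Real.pi * (v * u / r)) : ℝ) : ℂ) *
    E (a * (v : ℝ) ^ 2 / (2 * r))

theorem leaf_a (a r u : ℕ) (hr : 0 < r) :
    leaf r a u = (2 / r : ℝ) * E (-a / (2 * r)) * ∑ v ∈ range r, Fa a r u v := by
  unfold leaf
  rw [sum_Icc_eq_range (fun v => ((sm r 1 v * sm r v u : ℝ) : ℂ) * twist r v ^ (a : ℤ)) r hr
    (by simp [sm]), mul_sum]
  refine sum_congr rfl fun v _ => ?_
  rw [sm_sq, twist_zpow]
  unfold Fa
  have hr' : (r : ℝ) ≠ 0 := by exact_mod_cast hr.ne'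
  have h1 : ((((a : ℕ) : ℤ) : ℝ) * (((v : ℝ) ^ 2 - 1) / (2 * r))) =
      -a / (2 * r) + a * (v : ℝ) ^ 2 / (2 * r) := by
    push_cast; field_simp; ring
  rw [h1, E_add]
  push_cast
  ring

theorem Fa_double (a r u : ℕ) (hr : 0 < r) :
    ∑ v ∈ range (2 * r), Fa a r u v = 2 * ∑ v ∈ range r, Fa a r u v := by
  have hr' : (r : ℝ) ≠ 0 := by exact_mod_cast hr.ne'
  have h0 : Fa a r u 0 = 0 := by simp [Fa]
  have hrr : Fa a r u r = Fa a r u 0 := by
    rw [h0]; unfold Fa; rw [div_self hr', mul_one]; simp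
  rw [two_mul r, sum_range_add, two_mul]
  congr 1
  rw [← sum_range_neg (fun v => Fa a r u v) r hrr]
  refine sum_congr rfl fun v hv => ?_
  have hv' : v ≤ r := (mem_range.mp hv).le
  unfold Fa
  rw [Nat.cast_sub hv', Nat.cast_add]
  have e1 : Real.sin (Real.pi * (((r : ℝ) + v) / r)) = -Real.sin (Real.pi * (((r : ℝ) - v) / r)) := by
    rw [show Real.pi * (((r : ℝ) + v) / r) = Real.pi * (v / r) + Real.pi by field_simp; ring,
      show Real.pi * (((r : ℝ) - v) / r) = Real.pi - Real.pi * (v / r) by field_simp,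
      Real.sin_add_pi, Real.sin_pi_sub]
  have e2 : Real.sin (Real.pi * (((r : ℝ) + v) * u / r)) =
      -Real.sin (Real.pi * (((r : ℝ) - v) * u / r)) := by
    rw [show Real.pi * (((r : ℝ) + v) * u / r) =
        -(Real.pi * (((r : ℝ) - v) * u / r)) + u * (2 * Real.pi) by field_simp; ring,
      Real.sin_add_nat_mul_two_pi, Real.sin_neg]
  have e3 : E (a * ((r : ℝ) + v) ^ 2 / (2 * r)) = E (a * ((r : ℝ) - v) ^ 2 / (2 * r)) := by
    rw [show (a : ℝ) * ((r : ℝ) + v) ^ 2 / (2 * r) =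
      a * ((r : ℝ) - v) ^ 2 / (2 * r) + ((2 * (a * v) : ℤ) : ℝ) by push_cast; field_simp; ring,
      E_add, E_even _ (even_two_mul _), mul_one]
  rw [e1, e2, e3]
  push_cast
  ring

theorem Fa_eq (a r u v : ℕ) : Fa a r u v =
    (gt a r (u - 1) v + gt a r (-(u - 1)) v - gt a r (u + 1) v - gt a r (-(u + 1)) v) / 4 := by
  unfold Fa gt
  have h1 : Real.sin (Real.pi * (v / r)) * Real.sin (Real.pi * (v * u / r)) =
      (Real.cos (Real.pi * (v * (u - 1) / r)) - Real.cos (Real.pi * (v * (u + 1) / r))) / 2 := by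
    have h2 : Real.pi * ((v : ℝ) * (u - 1) / r) = Real.pi * (v * u / r) - Real.pi * (v / r) := by ring
    have h3 : Real.pi * ((v : ℝ) * (u + 1) / r) = Real.pi * (v * u / r) + Real.pi * (v / r) := by ring
    rw [h2, h3, Real.cos_sub, Real.cos_add]; ring
  rw [h1]
  have h4 : ((Real.cos (Real.pi * (v * (u - 1) / r)) : ℝ) : ℂ) =
      (E (v * (u - 1) / r) + E (-(v * (u - 1) / r))) / 2 := sin_eq_E _
  have h5 : ((Real.cos (Real.pi * (v * (u + 1) / r)) : ℝ) : ℂ) =
      (E (v * (u + 1) / r) + E (-(v * (u + 1) / r))) / 2 := sin_eq_E _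
  rw [Complex.ofReal_div, Complex.ofReal_sub, h4, h5]
  have e1 : ((a : ℝ) * (v : ℝ) ^ 2 + 2 * (((u : ℤ) - 1 : ℤ) : ℝ) * v) / (2 * r) =
      v * ((u : ℝ) - 1) / r + a * (v : ℝ) ^ 2 / (2 * r) := by
    push_cast
    rw [add_div, mul_assoc, mul_div_mul_left _ _ (by norm_num : (2 : ℝ) ≠ 0)]
    ring
  have e2 : ((a : ℝ) * (v : ℝ) ^ 2 + 2 * ((-((u : ℤ) - 1) : ℤ) : ℝ) * v) / (2 * r) =
      -(v * ((u : ℝ) - 1) / r) + a * (v : ℝ) ^ 2 / (2 * r) := by
    push_cast
    rw [add_div, mul_assoc, mul_div_mul_left _ _ (by norm_num : (2 : ℝ) ≠ 0)]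
    ring
  have e3 : ((a : ℝ) * (v : ℝ) ^ 2 + 2 * (((u : ℤ) + 1 : ℤ) : ℝ) * v) / (2 * r) =
      v * ((u : ℝ) + 1) / r + a * (v : ℝ) ^ 2 / (2 * r) := by
    push_cast
    rw [add_div, mul_assoc, mul_div_mul_left _ _ (by norm_num : (2 : ℝ) ≠ 0)]
    ring
  have e4 : ((a : ℝ) * (v : ℝ) ^ 2 + 2 * ((-((u : ℤ) + 1) : ℤ) : ℝ) * v) / (2 * r) =
      -(v * ((u : ℝ) + 1) / r) + a * (v : ℝ) ^ 2 / (2 * r) := by
    push_cast
    rw [add_div, mul_assoc, mul_div_mul_left _ _ (by norm_num : (2 : ℝ) ≠ 0)]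
    ring
  rw [e1, e2, e3, e4, E_add, E_add, E_add, E_add]
  push_cast
  ring

/-- The product of the contributions of the leaves of framings a and -a at a vertex of colour u. -/
theorem leaf_mul_leaf_odd (a r s u : ℕ) (hr : 0 < r) (ha : Odd a) (hs : r = a * s + 1) :
    leaf r a u * leaf r (-a) u = ((2 / r * Real.sin (Real.pi * (u * s / r)) ^ 2 : ℝ) : ℂ) := by
  have hr' : (r : ℝ) ≠ 0 := by exact_mod_cast hr.ne'
  obtain ⟨k, hk⟩ := ha
  -- the inverse of a modulo 2 r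
  have hsr : s ≤ r := by nlinarith
  obtain ⟨b, hb⟩ : ∃ b, b + s = r := ⟨r - s, by omega⟩
  have hab : a * b = 1 + 2 * r * k := by
    have h1 : a * b + a * s = a * r := by rw [← mul_add, hb]
    have h2 : a * r = 2 * r * k + r := by rw [hk]; ring
    omega
  have hcop : Nat.Coprime a (2 * r) := by
    rw [← Nat.isCoprime_iff_coprime]
    refine ⟨b, -k, ?_⟩
    have h1 : ((a * b : ℕ) : ℤ) = ((1 + 2 * r * k : ℕ) : ℤ) := by rw [hab]
    push_cast at h1 ⊢
    linear_combination h1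
  have hG1 := GG_succ a r b k hr hab ((u : ℤ) - 1)
  have hG2 := GG_succ a r b k hr hab (u : ℤ)
  rw [sub_add_cancel] at hG1
  have hsum : ∑ v ∈ range r, Fa a r u v = (GG a r ((u : ℤ) - 1) - GG a r ((u : ℤ) + 1)) / 4 := by
    have h1 := Fa_double a r u hr
    have h2 : ∑ v ∈ range (2 * r), Fa a r u v =
        (GG a r (u - 1) + GG a r (-(u - 1)) - GG a r (u + 1) - GG a r (-(u + 1))) / 4 := by
      unfold GG
      rw [← sum_add_distrib, ← sum_sub_distrib, ← sum_sub_distrib, sum_div]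
      exact sum_congr rfl fun v _ => Fa_eq a r u v
    rw [h2, GG_neg a r hr, GG_neg a r hr] at h1
    linear_combination (-1 / 2) * h1
  have hbs : (b : ℝ) = r - s := by
    have : (b : ℝ) + s = r := by exact_mod_cast hb
    linarith
  have hab' : (a : ℝ) * b = 1 + 2 * r * k := by exact_mod_cast hab
  have hE : GG a r ((u : ℤ) - 1) = E (-(2 * (u * s / r))) * GG a r ((u : ℤ) + 1) := by
    rw [hG1, hG2, ← mul_assoc, ← E_add]
    congr 1
    have e : ((a : ℝ) * (b : ℝ) ^ 2 + 2 * (((u : ℤ) - 1 : ℤ) : ℝ) * b) / (2 * r) +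
        ((a : ℝ) * (b : ℝ) ^ 2 + 2 * ((u : ℤ) : ℝ) * b) / (2 * r) =
        -(2 * ((u : ℝ) * s / r)) + ((2 * (u + k * b) : ℤ) : ℝ) := by
      push_cast
      field_simp
      linear_combination (2 * (b : ℝ)) * hab' + 4 * (u : ℝ) * hbs
    rw [e, E_add, E_even _ (even_two_mul _), mul_one]
  have hn1 : ‖(1 - E (-(2 * (u * s / r))) : ℂ)‖ ^ 2 = 4 * Real.sin (Real.pi * (u * s / r)) ^ 2 := by
    rw [← Complex.normSq_eq_norm_sq, E_eq, Complex.normSq_apply]
    simp only [Complex.sub_re, Complex.one_re, Complex.sub_im, Complex.one_im]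
    have h4 : Real.pi * (-(2 * ((u : ℝ) * s / r))) = -(2 * (Real.pi * (u * s / r))) := by ring
    rw [h4, Real.cos_neg, Real.sin_neg]
    have h5 := Real.sin_sq_add_cos_sq (2 * (Real.pi * ((u : ℝ) * s / r)))
    have h6 := Real.cos_two_mul (Real.pi * ((u : ℝ) * s / r))
    have h7 := Real.sin_sq_add_cos_sq (Real.pi * ((u : ℝ) * s / r))
    nlinarith
  have hn2 := GG_norm a r hr hcop ((u : ℤ) + 1)
  rw [leaf_neg, Complex.mul_conj, Complex.normSq_eq_norm_sq]
  congr 1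
  rw [leaf_a a r u hr, hsum, hE]
  have h8 : ‖((2 / r : ℝ) : ℂ) * E (-a / (2 * r)) *
      ((E (-(2 * (u * s / r))) * GG a r ((u : ℤ) + 1) - GG a r ((u : ℤ) + 1)) / 4)‖ =
      2 / r * (‖GG a r ((u : ℤ) + 1)‖ * ‖(1 - E (-(2 * (u * s / r))) : ℂ)‖ / 4) := by
    have e : (E (-(2 * (u * s / r))) * GG a r ((u : ℤ) + 1) - GG a r ((u : ℤ) + 1)) =
        -(GG a r ((u : ℤ) + 1) * (1 - E (-(2 * (u * s / r))))) := by ring
    rw [e, norm_mul, norm_mul, E_norm, mul_one, norm_div, norm_neg, norm_mul, Complex.norm_real,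
      Real.norm_of_nonneg (by positivity)]
    norm_num
  rw [h8, mul_pow, div_pow, div_pow, mul_pow, hn2, hn1]
  field_simp
  ring

end Pool.Agent.H905.WG
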