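import Mathlib
import Pool.Agent.H905.WG.Main
import Pool.Agent.H905.WG.MA1

/-!
# Trees with pairs of leaves a, -a
-/

set_option autoImplicit false

open Finset

namespace Pool.Agent.H905.WG

open H524R3 Pool.Agent.H905.WR

variable {m : ℕ}

/-- Two more leaves of framings a and -a at the vertex 0: two more exceptional fibres (a, 1), (a, -1). -/
def addPairOf (Γ : PlumbingTree m) (a : ℕ) : PlumbingTree (m + 2) :=
  addLeaf (addLeaf Γ 0 a) 0 (-a)

/-- A pair of leaves a, -a for each member a of the list. -/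
def addPairsOf (Γ : PlumbingTree m) : (l : List ℕ) → PlumbingTree (m + 2 * l.length)
  | [] => Γ
  | a :: l => addPairOf (addPairsOf Γ l) a

/-- The plumbing tree of the Seifert manifold of Euler number n over the nonorientable surface of genus h
with p pairs of exceptional fibres (2, 1), (2, -1) and a pair (a, 1), (a, -1) for each a in the list. -/
def seifertTreeOf (h p : ℕ) (l : List ℕ) (n : ℤ) : PlumbingTree (0 + 2 * p + 2 * l.length + 3 * h) :=
  addCrosses (addPairsOf (addPairs (oneVertex n) p) l) h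

theorem tot_addPairOf (Γ : PlumbingTree m) (a r : ℕ) (hr : 2 ≤ r) (g : ℕ → ℂ) :
    tot (addPairOf Γ a) r (fun k => g (k 0)) =
      tot Γ r (fun k => (leaf r a (k 0) * leaf r (-a) (k 0)) / ((sm r 1 (k 0) : ℝ) : ℂ) ^ 2 * g (k 0)) := by
  unfold addPairOf
  rw [tot_addLeaf _ _ _ r hr, tot_addLeaf _ _ _ r hr]
  apply tot_congr
  intro k hk
  have h0 := hk 0
  rw [mem_Icc] at h0
  have hs : ((sm r 1 (k 0) : ℝ) : ℂ) ≠ 0 := by
    exact_mod_cast (sm_pos r (k 0) h0.1 (by omega)).ne'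
  have e1 : ∀ (x y : ℕ), (Fin.snoc (α := fun _ => ℕ) (Fin.snoc (α := fun _ => ℕ) k x :
      Fin (m + 2) → ℕ) y : Fin (m + 3) → ℕ) 0 = k 0 := by
    intro x y
    have h1 : (0 : Fin (m + 3)) = (0 : Fin (m + 2)).castSucc := rfl
    have h2 : (0 : Fin (m + 2)) = (0 : Fin (m + 1)).castSucc := rfl
    rw [h1, Fin.snoc_castSucc, h2, Fin.snoc_castSucc]
  have e2 : ∀ x : ℕ, (Fin.snoc (α := fun _ => ℕ) k x : Fin (m + 2) → ℕ) 0 = k 0 := by
    intro x
    have h2 : (0 : Fin (m + 2)) = (0 : Fin (m + 1)).castSucc := rfl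
    rw [h2, Fin.snoc_castSucc]
  simp only [e1, e2]
  simp only [← sum_mul, sum_edge]
  field_simp

/-- The product of the contributions of the pairs. -/
noncomputable def pr (l : List ℕ) (r u : ℕ) : ℂ :=
  (l.map fun a : ℕ => (leaf r (a : ℤ) u * leaf r (-(a : ℤ)) u) / ((sm r 1 u : ℝ) : ℂ) ^ 2).prod

theorem tot_addPairsOf (Γ : PlumbingTree m) (r : ℕ) (hr : 2 ≤ r) (l : List ℕ) : ∀ g : ℕ → ℂ,
    tot (addPairsOf Γ l) r (fun k => g (k 0)) = tot Γ r (fun k => pr l r (k 0) * g (k 0)) := by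
  induction l with
  | nil =>
    intro g
    simp only [pr, List.map_nil, List.prod_nil, one_mul]
    rfl
  | cons a l ih =>
    intro g
    show tot (addPairOf (addPairsOf Γ l) a) r (fun k => g (k 0)) = _
    rw [tot_addPairOf _ a r hr g,
      ih (fun u => (leaf r a u * leaf r (-a) u) / ((sm r 1 u : ℝ) : ℂ) ^ 2 * g u)]
    apply tot_congr
    intro k _
    simp only [pr, List.map_cons, List.prod_cons]
    ring

theorem wrt_of (h p : ℕ) (l : List ℕ) (n : ℤ) (r : ℕ) (hr : 2 ≤ r) :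
    (seifertTreeOf h p l n).wrt r = ∑ u ∈ Icc 1 (r - 1), tm h p n r u * pr l r u := by
  rw [wrt_eq_tot]
  unfold seifertTreeOf
  rw [tot_addCrosses _ r hr h (fun _ => 1)]
  rw [tot_addPairsOf _ r hr l
    (fun u => ((((-1 : ℝ) ^ (u + 1) : ℝ) : ℂ) / ((sm r 1 u : ℝ) : ℂ)) ^ h * 1)]
  rw [tot_addPairs _ r hr p
    (fun u => pr l r u * (((((-1 : ℝ) ^ (u + 1) : ℝ) : ℂ) / ((sm r 1 u : ℝ) : ℂ)) ^ h * 1))]
  rw [tot_oneVertex n r hr (fun u => (((wv r u : ℝ) : ℂ) / ((sm r 1 u : ℝ) : ℂ)) ^ p *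
    (pr l r u * (((((-1 : ℝ) ^ (u + 1) : ℝ) : ℂ) / ((sm r 1 u : ℝ) : ℂ)) ^ h * 1)))]
  refine sum_congr rfl fun u _ => ?_
  unfold tm
  ring

/-- The factor of the pair a, -a at the colour i + 1 or r - (i + 1), x = (i + 1) / r. -/
noncomputable def wf (a ρ : ℕ) (x : ℝ) : ℝ :=
  Real.sin (Real.pi * (((ρ : ℝ) + 1) / a) - Real.pi * x / a) ^ 2

noncomputable def Wl (l : List ℕ) (ρ : ℕ) (x : ℝ) : ℝ := (l.map fun a : ℕ => wf a ρ x).prod

/-- One pair of leaves at both ends. -/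
theorem pair_end (a r i : ℕ) (u : ℕ) (hi : i < r / 2) (ha : Odd a) (hdiv : a ∣ r - 1) (hr : 2 ≤ r)
    (hu : u = i + 1 ∨ u = r - (i + 1)) :
    (leaf r a u * leaf r (-a) u) / ((sm r 1 u : ℝ) : ℂ) ^ 2 =
      ((wf a i (((i : ℝ) + 1) / r) * (sn r i)⁻¹ ^ 2 : ℝ) : ℂ) := by
  obtain ⟨s, hs⟩ := hdiv
  have hs' : r = a * s + 1 := by omega
  have hr0 : (0 : ℝ) < r := by
    have : 0 < r := by omega
    exact_mod_cast this
  have ha0 : (0 : ℝ) < a := by exact_mod_cast ha.pos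
  have hrs : (r : ℝ) = a * s + 1 := by exact_mod_cast hs'
  rw [leaf_mul_leaf_odd a r s u (by omega) ha hs']
  have hsm : sm r 1 u = Real.sqrt (2 / r) * sn r i := by
    rcases hu with h | h
    · rw [h]; exact sm_end1 r i
    · rw [h]; exact sm_end2 r i (by omega) (by omega)
  have hsin : Real.sin (Real.pi * (u * s / r)) ^ 2 = wf a i (((i : ℝ) + 1) / r) := by
    unfold wf
    have e0 : Real.pi * (((i : ℝ) + 1) * s / r) =
        Real.pi * (((i : ℝ) + 1) / a) - Real.pi * (((i : ℝ) + 1) / r) / a := by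
      field_simp
      rw [hrs]
      ring
    rcases hu with h | h
    · rw [h, ← e0]; push_cast; rfl
    · rw [h, Nat.cast_sub (by omega), ← e0]
      have e : Real.pi * (((r : ℝ) - ((i + 1 : ℕ) : ℝ)) * s / r) =
          s * Real.pi - Real.pi * (((i : ℝ) + 1) * s / r) := by
        push_cast
        field_simp
      rw [e, Real.sin_nat_mul_pi_sub, neg_sq, mul_pow, ← pow_mul, mul_comm s 2, pow_mul]
      norm_num
  rw [hsin, hsm]
  have hsn := (sn_pos r i hi).ne'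
  have hsq : Real.sqrt (2 / (r : ℝ)) ^ 2 = 2 / r := Real.sq_sqrt (by positivity)
  rw [← Complex.ofReal_pow, ← Complex.ofReal_div]
  congr 1
  rw [mul_pow, hsq]
  field_simp

theorem pr_end (l : List ℕ) (r i : ℕ) (u : ℕ) (hi : i < r / 2) (hl : ∀ a ∈ l, Odd a ∧ a ∣ r - 1)
    (hr : 2 ≤ r) (hu : u = i + 1 ∨ u = r - (i + 1)) :
    pr l r u = ((Wl l i (((i : ℝ) + 1) / r) * (sn r i)⁻¹ ^ (2 * l.length) : ℝ) : ℂ) := by
  induction l with
  | nil => simp [pr, Wl]
  | cons a l ih =>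
    have h1 := ih fun b hb => hl b (List.mem_cons_of_mem _ hb)
    have h2 := hl a List.mem_cons_self
    unfold pr Wl at h1 ⊢
    rw [List.map_cons, List.prod_cons, h1, pair_end a r i u hi h2.1 h2.2 hr hu, List.map_cons,
      List.prod_cons, List.length_cons]
    push_cast
    ring

/-- The model of the invariant, for all r. -/
noncomputable def ZL (h p : ℕ) (l : List ℕ) (n : ℤ) (r : ℕ) : ℂ :=
  E (-(n / (2 * r))) * (gr h r : ℂ) *
      (∑ i ∈ range (r / 2), ((s1 p r i * (Φ1 (h + 2 * l.length) p r i * Wl l i (((i : ℝ) + 1) / r)) : ℝ) : ℂ) *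
          E (n / (2 * r) * ((i : ℝ) + 1) ^ 2) -
        (-E (n / 2)) ^ r * ∑ i ∈ range (r - 1 - r / 2),
          ((s2 p n i * (Φ2 (h + 2 * l.length) p r i * Wl l i (((i : ℝ) + 1) / r)) : ℝ) : ℂ) *
          E (n / (2 * r) * ((i : ℝ) + 1) ^ 2))

theorem wrt_ZL (h p : ℕ) (hh : Odd h) (l : List ℕ) (n : ℤ) (r : ℕ) (hr : 2 ≤ r)
    (hl : ∀ a ∈ l, Odd a ∧ a ∣ r - 1) : (seifertTreeOf h p l n).wrt r = ZL h p l n r := by
  rw [wrt_of h p l n r hr, sum_split _ r hr]
  have h1 : ∑ i ∈ range (r / 2), tm h p n r (i + 1) * pr l r (i + 1) = E (-(n / (2 * r))) * (gr h r : ℂ) *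
      ∑ i ∈ range (r / 2), ((s1 p r i * (Φ1 (h + 2 * l.length) p r i * Wl l i (((i : ℝ) + 1) / r)) : ℝ) : ℂ) *
        E (n / (2 * r) * ((i : ℝ) + 1) ^ 2) := by
    rw [mul_sum]
    refine sum_congr rfl fun i hi => ?_
    rw [mem_range] at hi
    rw [tm_end1 h p hh n r i (by omega) hi, pr_end l r i (i + 1) hi hl hr (Or.inl rfl)]
    unfold Φ1
    rw [pow_add (sn r i)⁻¹ h]
    push_cast
    ring
  have h2 : ∑ i ∈ range (r - 1 - r / 2), tm h p n r (r - (i + 1)) * pr l r (r - (i + 1)) =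
      E (-(n / (2 * r))) * (gr h r : ℂ) * (-((-E (n / 2)) ^ r)) *
      ∑ i ∈ range (r - 1 - r / 2), ((s2 p n i * (Φ2 (h + 2 * l.length) p r i *
        Wl l i (((i : ℝ) + 1) / r)) : ℝ) : ℂ) * E (n / (2 * r) * ((i : ℝ) + 1) ^ 2) := by
    rw [mul_sum]
    refine sum_congr rfl fun i hi => ?_
    rw [mem_range] at hi
    have hi' : i < r / 2 := by omega
    rw [tm_end2 h p hh n r i (by omega) hi', pr_end l r i (r - (i + 1)) hi' hl hr (Or.inr rfl)]
    unfold Φ2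
    rw [pow_add (sn r i)⁻¹ h]
    push_cast
    ring
  rw [h1, h2]
  unfold ZL
  ring

end Pool.Agent.H905.WG
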