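import Mathlib
import Pool.Agent.H905.WG.Main

/-!
# Residue classes
-/

set_option autoImplicit false

open Finset Filter Topology

namespace Pool.Agent.H905.WG

open H524R3 Pool.Agent.H905.WR

theorem abel_bound (c : ℕ → ℝ) (M : ℝ) (hM : ∀ k, |∑ i ∈ range k, c i| ≤ M) (I : ℕ) :
    |∑ i ∈ range I, c i / ((i : ℝ) + 1)| ≤ M := by
  have hM0 : 0 ≤ M := (abs_nonneg _).trans (hM 0)
  have key : ∀ I : ℕ, ∑ i ∈ range I, c i / ((i : ℝ) + 1) = (∑ i ∈ range I, c i) / ((I : ℝ) + 1) +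
      ∑ i ∈ range I, (∑ j ∈ range (i + 1), c j) * (1 / ((i : ℝ) + 1) - 1 / (((i + 1 : ℕ) : ℝ) + 1)) := by
    intro I
    induction I with
    | zero => simp
    | succ I ih =>
      rw [sum_range_succ, ih, sum_range_succ (fun i => (∑ j ∈ range (i + 1), c j) *
        (1 / ((i : ℝ) + 1) - 1 / (((i + 1 : ℕ) : ℝ) + 1))), sum_range_succ c I]
      have h1 : (I : ℝ) + 1 ≠ 0 := by positivity
      have h2 : ((I + 1 : ℕ) : ℝ) + 1 ≠ 0 := by positivity
      field_simp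
      ring
  rw [key]
  have h1 : |(∑ i ∈ range I, c i) / ((I : ℝ) + 1)| ≤ M * (1 / ((I : ℝ) + 1)) := by
    rw [abs_div, abs_of_pos (by positivity : (0 : ℝ) < (I : ℝ) + 1), div_eq_mul_one_div]
    exact mul_le_mul_of_nonneg_right (hM I) (by positivity)
  have h2 : |∑ i ∈ range I, (∑ j ∈ range (i + 1), c j) *
      (1 / ((i : ℝ) + 1) - 1 / (((i + 1 : ℕ) : ℝ) + 1))| ≤ M * (1 - 1 / ((I : ℝ) + 1)) := by
    have h3 : ∀ i ∈ range I, |(∑ j ∈ range (i + 1), c j) *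
        (1 / ((i : ℝ) + 1) - 1 / (((i + 1 : ℕ) : ℝ) + 1))| ≤
        M * (1 / ((i : ℝ) + 1) - 1 / (((i + 1 : ℕ) : ℝ) + 1)) := by
      intro i _
      have h4 : 0 ≤ 1 / ((i : ℝ) + 1) - 1 / (((i + 1 : ℕ) : ℝ) + 1) := by
        rw [sub_nonneg]
        apply div_le_div_of_nonneg_left (by norm_num) (by positivity)
        push_cast; linarith
      rw [abs_mul, abs_of_nonneg h4]
      exact mul_le_mul_of_nonneg_right (hM _) h4
    refine (abs_sum_le_sum_abs _ _).trans ((sum_le_sum h3).trans ?_)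
    rw [← mul_sum, sum_range_sub' (fun i : ℕ => 1 / ((i : ℝ) + 1))]
    simp
  calc |(∑ i ∈ range I, c i) / ((I : ℝ) + 1) + ∑ i ∈ range I, (∑ j ∈ range (i + 1), c j) *
      (1 / ((i : ℝ) + 1) - 1 / (((i + 1 : ℕ) : ℝ) + 1))| ≤ M * (1 / ((I : ℝ) + 1)) +
        M * (1 - 1 / ((I : ℝ) + 1)) := (abs_add_le _ _).trans (add_le_add h1 h2)
    _ = M := by ring

theorem HL_res (B ρ : ℕ) (hB : 0 < B) (hρ : ρ < B) :
    HL (fun i => if i % B = ρ then 1 else 0) (1 / B) := by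
  have hB' : (0 : ℝ) < B := by exact_mod_cast hB
  obtain ⟨D, hD⟩ := HL_one
  have hpart : ∀ k, |∑ i ∈ range k, ((if i % B = ρ then (1 : ℝ) else 0) - 1 / B)| ≤ 1 := by
    intro k
    rw [sum_sub_distrib, sum_const, card_range, nsmul_eq_mul]
    have h1 : ∑ i ∈ range k, (if i % B = ρ then (1 : ℝ) else 0) = (k.count (· ≡ ρ [MOD B]) : ℝ) := by
      rw [Nat.count_eq_card_filter_range, Finset.sum_boole]
      congr 2
      ext i
      simp only [mem_filter, mem_range]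
      refine and_congr_right fun _ => ?_
      unfold Nat.ModEq
      rw [Nat.mod_eq_of_lt hρ]
    rw [h1, Nat.count_modEq_card k hB]
    have h2 := Nat.div_add_mod k B
    have h3 := Nat.mod_lt k hB
    have h2' : (B : ℝ) * ((k / B : ℕ) : ℝ) + ((k % B : ℕ) : ℝ) = k := by exact_mod_cast h2
    have h3' : ((k % B : ℕ) : ℝ) < B := by exact_mod_cast h3
    have h4 : (0 : ℝ) ≤ ((k % B : ℕ) : ℝ) := Nat.cast_nonneg _
    have h5 : (k : ℝ) * (1 / B) = ((k / B : ℕ) : ℝ) + ((k % B : ℕ) : ℝ) / B := by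
      rw [← h2']; field_simp
    have h6 : ((k % B : ℕ) : ℝ) / B < 1 := by rw [div_lt_one hB']; exact h3'
    have h7 : 0 ≤ ((k % B : ℕ) : ℝ) / B := by positivity
    rw [h5, abs_le]
    push_cast
    split_ifs <;> constructor <;> push_cast <;> linarith
  refine ⟨1 + 1 / B * D, fun I => ?_⟩
  have h1 := abel_bound _ 1 hpart I
  have h2 := hD I
  have e : ∑ i ∈ range I, (if i % B = ρ then (1 : ℝ) else 0) / ((i : ℝ) + 1) -
      1 / B * Real.log ((I : ℝ) + 1) =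
      ∑ i ∈ range I, ((if i % B = ρ then (1 : ℝ) else 0) - 1 / B) / ((i : ℝ) + 1) +
      1 / B * (∑ i ∈ range I, 1 / ((i : ℝ) + 1) - 1 * Real.log ((I : ℝ) + 1)) := by
    have : ∑ i ∈ range I, ((if i % B = ρ then (1 : ℝ) else 0) - 1 / B) / ((i : ℝ) + 1) =
        ∑ i ∈ range I, (if i % B = ρ then (1 : ℝ) else 0) / ((i : ℝ) + 1) -
        1 / B * ∑ i ∈ range I, 1 / ((i : ℝ) + 1) := by
      rw [mul_sum, ← sum_sub_distrib]
      refine sum_congr rfl fun i _ => ?_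
      ring
    rw [this]; ring
  rw [e]
  refine (abs_add_le _ _).trans (add_le_add h1 ?_)
  rw [abs_mul, abs_of_pos (by positivity : (0 : ℝ) < 1 / B)]
  exact mul_le_mul_of_nonneg_left h2 (by positivity)

/-- Multiplication with the indicator function of a residue class. -/
theorem Ex.mul_delta {s : ℝ} {f : ℕ → ℂ} (hf : Ex s f) (A : ℕ) (hA : 0 < A) :
    Ex s (fun r => (if A ∣ r - 1 then (1 : ℂ) else 0) * f r) := by
  have hA' : (A : ℂ) ≠ 0 := by exact_mod_cast hA.ne'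
  have hAr : (A : ℝ) ≠ 0 := by exact_mod_cast hA.ne'
  have h1 := (Ex.sum (range A) (fun j r => E (-(2 * j / A)) *
    ((((r : ℝ) ^ (0 : ℝ) : ℝ) : ℂ) * (E (2 * j / A)) ^ r * f r)) fun j _ => by
      have := (hf.mul_term 0 (E (2 * j / A)) (E_norm _)).const_mul (E (-(2 * j / A)))
      rwa [add_zero] at this).const_mul ((A : ℂ)⁻¹)
  refine Ex.congr h1 ?_
  filter_upwards [eventually_ge_atTop 1] with r hr
  have h2 : ∀ j ∈ range A, E (-(2 * j / A)) * ((((r : ℝ) ^ (0 : ℝ) : ℝ) : ℂ) * (E (2 * j / A)) ^ r * f r) =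
      E (j * ((2 * ((r : ℤ) - 1) : ℤ) : ℝ) / A) * f r := by
    intro j _
    rw [Real.rpow_zero, Complex.ofReal_one, one_mul, ← mul_assoc, E_pow, ← E_add]
    congr 2
    push_cast
    ring
  rw [sum_congr rfl h2, ← sum_mul]
  by_cases hd : A ∣ r - 1
  · rw [if_pos hd, one_mul]
    obtain ⟨k, hk⟩ := hd
    have h3 : ∀ j ∈ range A, E (j * ((2 * ((r : ℤ) - 1) : ℤ) : ℝ) / A) = 1 := by
      intro j _
      have h4 : (j : ℝ) * ((2 * ((r : ℤ) - 1) : ℤ) : ℝ) / A = ((2 * (j * k) : ℤ) : ℝ) := by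
        have h5 : (r : ℝ) = A * k + 1 := by
          have : r = A * k + 1 := by omega
          exact_mod_cast this
        push_cast
        rw [h5]
        field_simp
        ring
      rw [h4, E_even _ (even_two_mul _)]
    rw [sum_congr rfl h3, sum_const, card_range, nsmul_eq_mul, mul_one, ← mul_assoc,
      inv_mul_cancel₀ hA', one_mul]
  · rw [if_neg hd, zero_mul, sum_E_even A (2 * ((r : ℤ) - 1)) hA (even_two_mul _) ?_, zero_mul,
      mul_zero]
    intro k hk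
    apply hd
    have h5 : (r : ℤ) - 1 = A * k := by linarith
    have h6 : (A : ℤ) ∣ ((r - 1 : ℕ) : ℤ) := ⟨k, by push_cast [Nat.cast_sub hr]; exact h5⟩
    exact_mod_cast h6

/-- The logarithm along a residue class. -/
theorem not_ex_log_delta (s : ℝ) (c : ℂ) (hc : c ≠ 0) (z : ℂ) (hz : ‖z‖ = 1) (A : ℕ) (hA : 0 < A) :
    ¬ Ex s (fun n => (if A ∣ n - 1 then (1 : ℂ) else 0) *
      (c * z ^ n * (((n : ℝ) ^ s * Real.log n : ℝ) : ℂ))) := by
  intro h
  have hnorm : ∀ n : ℕ, 1 ≤ n → ‖c * z ^ n * (((n : ℝ) ^ s * Real.log n : ℝ) : ℂ)‖ =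
      ‖c‖ * ((n : ℝ) ^ s * Real.log n) := by
    intro n hn
    have hn' : (1 : ℝ) ≤ n := by exact_mod_cast hn
    rw [norm_mul, norm_mul, norm_pow, hz, one_pow, mul_one, Complex.norm_real, Real.norm_eq_abs,
      abs_of_nonneg]
    exact mul_nonneg (Real.rpow_nonneg (by linarith) _) (Real.log_nonneg hn')
  obtain ⟨C, hC⟩ := h.bounded ‖c‖ (by
    filter_upwards [eventually_ge_atTop 1] with n hn
    have hn' : (1 : ℝ) ≤ n := by exact_mod_cast hn
    have h1 : ‖(if A ∣ n - 1 then (1 : ℂ) else 0)‖ ≤ 1 := by split_ifs <;> simp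
    rw [norm_mul, hnorm n hn]
    have h2 : 0 ≤ (n : ℝ) ^ s := Real.rpow_nonneg (by linarith) _
    have h3 : 0 ≤ Real.log n := Real.log_nonneg hn'
    calc ‖(if A ∣ n - 1 then (1 : ℂ) else 0)‖ * (‖c‖ * ((n : ℝ) ^ s * Real.log n)) ≤
        1 * (‖c‖ * ((n : ℝ) ^ s * Real.log n)) := mul_le_mul_of_nonneg_right h1 (by positivity)
      _ ≤ ‖c‖ * ((n : ℝ) ^ s * (1 + Real.log n)) := by
        rw [one_mul]
        apply mul_le_mul_of_nonneg_left _ (norm_nonneg c)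
        apply mul_le_mul_of_nonneg_left _ h2
        linarith)
  have hlog : Tendsto (fun n : ℕ => ‖c‖ * Real.log (n : ℝ)) atTop atTop :=
    (Real.tendsto_log_atTop.comp tendsto_natCast_atTop_atTop).const_mul_atTop (norm_pos_iff.2 hc)
  obtain ⟨n₀, hn₀⟩ := eventually_atTop.1 ((hlog.eventually (eventually_gt_atTop C)).and
    (hC.and (eventually_ge_atTop 1)))
  have hle : n₀ ≤ A * n₀ + 1 := by nlinarith
  obtain ⟨h1, h2, h3⟩ := hn₀ (A * n₀ + 1) hle
  set n := A * n₀ + 1 with hn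
  have hd : A ∣ n - 1 := ⟨n₀, by omega⟩
  have hn' : (0 : ℝ) < n := by exact_mod_cast h3
  have hp := Real.rpow_pos_of_pos hn' s
  rw [if_pos hd, one_mul, hnorm n h3] at h2
  have h4 : ‖c‖ * ((n : ℝ) ^ s * Real.log n) = (‖c‖ * Real.log n) * (n : ℝ) ^ s := by ring
  rw [h4] at h2
  have := le_of_mul_le_mul_right h2 hp
  linarith

end Pool.Agent.H905.WG
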