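import Mathlib
import Pool.Agent.H905.WG.MA2
import Pool.Agent.H905.WG.MA3
import Pool.Agent.H905.WG.Final

/-!
# Seifert manifolds with pairs of exceptional fibres of odd multiplicities
-/

set_option autoImplicit false

open Finset Filter Topology

namespace Pool.Agent.H905.WG

open H524R3 Pool.Agent.H905.WR

theorem wf_period (a : ℕ) (ha : 0 < a) (ρ t : ℕ) (x : ℝ) : wf a (ρ + a * t) x = wf a ρ x := by
  have ha' : (a : ℝ) ≠ 0 := by exact_mod_cast ha.ne'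
  unfold wf
  have e : Real.pi * (((ρ + a * t : ℕ) : ℝ) + 1) / a - Real.pi * x / a =
      (Real.pi * (((ρ : ℝ) + 1) / a) - Real.pi * x / a) + t * Real.pi := by
    push_cast
    field_simp
    ring
  rw [← mul_div_assoc, e, Real.sin_add_nat_mul_pi, mul_pow, ← pow_mul, mul_comm t 2, pow_mul]
  norm_num

theorem wf_mod (a B i : ℕ) (ha : 0 < a) (hB : a ∣ B) (x : ℝ) : wf a i x = wf a (i % B) x := by
  obtain ⟨c, hc⟩ := hB
  have h := Nat.mod_add_div i B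
  conv_lhs => rw [← h, hc, mul_assoc, wf_period a ha]
  rw [hc]

theorem Wl_mod (l : List ℕ) (B i : ℕ) (hl : ∀ a ∈ l, 0 < a ∧ a ∣ B) (x : ℝ) :
    Wl l i x = Wl l (i % B) x := by
  unfold Wl
  congr 1
  apply List.map_congr_left
  intro a ha
  exact wf_mod a B i (hl a ha).1 (hl a ha).2 x

theorem wf_bound (a ρ : ℕ) (x : ℝ) : 0 ≤ wf a ρ x ∧ wf a ρ x ≤ 1 :=
  ⟨sq_nonneg _, Real.sin_sq_le_one _⟩

theorem Wl_bound (l : List ℕ) (ρ : ℕ) (x : ℝ) : 0 ≤ Wl l ρ x ∧ Wl l ρ x ≤ 1 := by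
  induction l with
  | nil => simp [Wl]
  | cons a l ih =>
    have e : Wl (a :: l) ρ x = wf a ρ x * Wl l ρ x := by simp [Wl]
    rw [e]
    exact ⟨mul_nonneg (wf_bound a ρ x).1 ih.1, mul_le_one₀ (wf_bound a ρ x).2 ih.1 ih.2⟩

theorem wf_analytic (a ρ : ℕ) : AnalyticAt ℝ (wf a ρ) 0 := by
  have h1 : AnalyticAt ℝ (fun x : ℝ => Real.pi * (((ρ : ℝ) + 1) / a) - Real.pi * x / a) 0 :=
    analyticAt_const.sub ((analyticAt_const.mul analyticAt_id).div_const)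
  exact (AnalyticAt.comp (g := Real.sin) Real.analyticAt_sin h1).pow 2

theorem Wl_analytic (l : List ℕ) (ρ : ℕ) : AnalyticAt ℝ (Wl l ρ) 0 := by
  induction l with
  | nil =>
    have e : Wl [] ρ = fun _ => 1 := by funext x; simp [Wl]
    rw [e]; exact analyticAt_const
  | cons a l ih =>
    have e : Wl (a :: l) ρ = fun x => wf a ρ x * Wl l ρ x := by funext x; simp [Wl]
    rw [e]; exact (wf_analytic a ρ).mul ih

theorem Wl_pos (l : List ℕ) (hl : ∀ a ∈ l, 2 ≤ a) : 0 < Wl l 0 0 := by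
  induction l with
  | nil => simp [Wl]
  | cons a l ih =>
    have e : Wl (a :: l) 0 0 = wf a 0 0 * Wl l 0 0 := by simp [Wl]
    rw [e]
    refine mul_pos ?_ (ih fun b hb => hl b (List.mem_cons_of_mem _ hb))
    have ha : (2 : ℝ) ≤ a := by exact_mod_cast hl a List.mem_cons_self
    unfold wf
    have hpi := Real.pi_pos
    have : 0 < Real.sin (Real.pi * ((((0 : ℕ) : ℝ) + 1) / a) - Real.pi * 0 / a) := by
      apply Real.sin_pos_of_pos_of_lt_pi
      · simp only [Nat.cast_zero, zero_add, mul_zero, zero_div, sub_zero]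
        positivity
      · simp only [Nat.cast_zero, zero_add, mul_zero, zero_div, sub_zero]
        have : (1 : ℝ) / a < 1 := by rw [div_lt_one (by linarith)]; linarith
        nlinarith
    positivity

/-- The sum over the residue classes. -/
theorem sum_res (B : ℕ) (hB : 0 < B) (N : ℕ) (ε : ℕ → ℝ) (Φ : ℕ → ℝ) (W : ℕ → ℕ → ℝ) (e : ℕ → ℂ)
    (hW : ∀ i, W i i = W (i % B) i) :
    ∑ i ∈ range N, ((ε i * (Φ i * W i i) : ℝ) : ℂ) * e i =
      ∑ ρ ∈ range B, ∑ i ∈ range N,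
        (((if i % B = ρ then ε i else 0) * (Φ i * W ρ i) : ℝ) : ℂ) * e i := by
  rw [sum_comm]
  refine sum_congr rfl fun i _ => ?_
  have h1 : ∀ ρ ∈ range B, (((if i % B = ρ then ε i else 0) * (Φ i * W ρ i) : ℝ) : ℂ) * e i =
      if i % B = ρ then ((ε i * (Φ i * W i i) : ℝ) : ℂ) * e i else 0 := by
    intro ρ _
    by_cases h : i % B = ρ
    · rw [if_pos h, if_pos h, hW i, h]
    · rw [if_neg h, if_neg h]; simp
  rw [sum_congr rfl h1, sum_ite_eq (range B) (i % B), if_pos (mem_range.2 (Nat.mod_lt i hB))]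

theorem lc_mul (lam n : ℝ) (q : ℕ) : lc lam n q = (lam : ℂ) * lc 1 n q := by
  unfold lc
  split_ifs
  · push_cast; ring
  · ring

/-- The signs on a residue class. -/
theorem HL_class (ε : ℕ → ℝ) (B ρ : ℕ) (hB : 0 < B) (hρ : ρ < B)
    (hε : ∀ i, i % B = ρ → ε i = ε ρ) : HL (fun i => if i % B = ρ then ε i else 0) (ε ρ / B) := by
  have h1 := (HL_res B ρ hB hρ).lin (HL_res B ρ hB hρ) (ε ρ) 0
  have e1 : (fun i => ε ρ * (if i % B = ρ then (1 : ℝ) else 0) + 0 * (if i % B = ρ then (1 : ℝ) else 0)) =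
      fun i => if i % B = ρ then ε i else 0 := by
    funext i
    by_cases h : i % B = ρ
    · rw [if_pos h, if_pos h, hε i h]; ring
    · rw [if_neg h, if_neg h]; ring
  rw [e1] at h1
  have e2 : ε ρ * (1 / B : ℝ) + 0 * (1 / B) = ε ρ / B := by ring
  rw [e2] at h1
  exact h1

/-- The end near r. -/
theorem end2_L (h' p : ℕ) (hm : 3 ≤ h' + 2 * p - 2) (l : List ℕ) (n : ℝ) (B : ℕ) (hB : 0 < B)
    (hl : ∀ a ∈ l, 0 < a ∧ a ∣ B) (ε : ℕ → ℝ) (hε1 : ∀ i, |ε i| ≤ 1)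
    (hε : ∀ i, ε i = ε (i % B)) :
    Ex ((((h' + 2 * p - 2 : ℕ) : ℝ) + 1) / 2) (fun r : ℕ => ∑ i ∈ range (r - 1 - r / 2),
      ((ε i * (Φ2 h' p r i * Wl l i (((i : ℝ) + 1) / r)) : ℝ) : ℂ) *
        E (n / (2 * r) * ((i : ℝ) + 1) ^ 2) -
      ((F2 h' p 0 * ((∑ ρ ∈ range B, ε ρ * Wl l ρ 0) / B) : ℝ) : ℂ) * lc 1 n (h' + 2 * p - 2) *
        (((r : ℝ) ^ ((((h' + 2 * p - 2 : ℕ) : ℝ) + 1) / 2) * Real.log r : ℝ) : ℂ)) := by
  set t : ℝ := (((h' + 2 * p - 2 : ℕ) : ℝ) + 1) / 2 with ht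
  have key : ∀ ρ ∈ range B, Ex t (fun r : ℕ => ∑ i ∈ range (r - 1 - r / 2),
      (((if i % B = ρ then ε i else 0) * (Φ2 h' p r i * Wl l ρ (((i : ℝ) + 1) / r)) : ℝ) : ℂ) *
        E (n / (2 * r) * ((i : ℝ) + 1) ^ 2) -
      ((F2 h' p 0 * Wl l ρ 0 : ℝ) : ℂ) * lc (ε ρ / B) n (h' + 2 * p - 2) *
        (((r : ℝ) ^ t * Real.log r : ℝ) : ℂ)) := by
    intro ρ hρ
    rw [mem_range] at hρ
    obtain ⟨D, hD⟩ := HL_class ε B ρ hB hρ fun i hi => by rw [hε i, hi]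
    exact phi_ex (fun i => if i % B = ρ then ε i else 0)
      (fun i => by split_ifs; exacts [hε1 i, by simp]) (ε ρ / B) D hD n
      (h' + 2 * p - 2) hm (fun x => F2 h' p x * Wl l ρ x) ((F2_analytic h' p).mul (Wl_analytic l ρ))
      (fun r => r - 1 - r / 2) (fun r i => Φ2 h' p r i * Wl l ρ (((i : ℝ) + 1) / r)) (Real.pi ^ 2)
      (by positivity)
      (by
        filter_upwards [eventually_ge_atTop 10] with r hr
        exact (sqrt_lt_half' r hr).le)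
      (by
        filter_upwards [eventually_ge_atTop 1] with r hr i _
        rw [Φ2_eq h' p r i (by omega) hr]
        ring)
      (by
        filter_upwards with r i hi
        have h1 := Φ2_bound h' p r i (by omega) (by omega)
        have h2 := Wl_bound l ρ (((i : ℝ) + 1) / r)
        rw [abs_mul, abs_of_nonneg h2.1]
        calc |Φ2 h' p r i| * Wl l ρ (((i : ℝ) + 1) / r) ≤ |Φ2 h' p r i| * 1 :=
              mul_le_mul_of_nonneg_left h2.2 (abs_nonneg _)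
          _ ≤ _ := by rw [mul_one]; exact h1)
  refine Ex.congr (Ex.sum (range B) _ key) (Eventually.of_forall fun r => ?_)
  rw [sum_sub_distrib, sum_res B hB (r - 1 - r / 2) ε (fun i => Φ2 h' p r i)
    (fun ρ i => Wl l ρ (((i : ℝ) + 1) / r)) (fun i => E (n / (2 * r) * ((i : ℝ) + 1) ^ 2))
    (fun i => Wl_mod l B i hl _)]
  congr 1
  have e1 : ∀ ρ ∈ range B, ((F2 h' p 0 * Wl l ρ 0 : ℝ) : ℂ) * lc (ε ρ / B) n (h' + 2 * p - 2) *
        (((r : ℝ) ^ t * Real.log r : ℝ) : ℂ) = ((ε ρ * Wl l ρ 0 : ℝ) : ℂ) *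
      (((F2 h' p 0 / B : ℝ) : ℂ) * lc 1 n (h' + 2 * p - 2) * (((r : ℝ) ^ t * Real.log r : ℝ) : ℂ)) := by
    intro ρ _
    rw [lc_mul (ε ρ / B)]
    push_cast
    ring
  rw [sum_congr rfl e1, ← sum_mul, ← Complex.ofReal_sum]
  push_cast
  ring

/-- The end near 0, without logarithm of the leading order. -/
theorem end1_L (h' p : ℕ) (hh : Odd h') (hm : 3 ≤ h' + 2 * p - 2) (l : List ℕ) (n : ℝ) (B : ℕ)
    (hB : 0 < B) (hl : ∀ a ∈ l, 0 < a ∧ a ∣ B) (ε : ℕ → ℝ) (hε1 : ∀ i, |ε i| ≤ 1)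
    (hε : ∀ i, ε i = ε (i % B)) (hc : 1 ≤ p ∨ ∑ ρ ∈ range B, ε ρ * Wl l ρ 0 = 0) :
    Ex ((((h' + 2 * p - 2 : ℕ) : ℝ) + 1) / 2) (fun r : ℕ => ∑ i ∈ range (r / 2),
      ((ε i * (Φ1 h' p r i * Wl l i (((i : ℝ) + 1) / r)) : ℝ) : ℂ) *
        E (n / (2 * r) * ((i : ℝ) + 1) ^ 2)) := by
  set t : ℝ := (((h' + 2 * p - 2 : ℕ) : ℝ) + 1) / 2 with ht
  have ht2 : (2 : ℝ) ≤ t := by
    have : (3 : ℝ) ≤ ((h' + 2 * p - 2 : ℕ) : ℝ) := by exact_mod_cast hm
    rw [ht]; linarith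
  by_cases h3 : h' ≤ 3
  · refine Ex.err 2 ?_
    filter_upwards [eventually_ge_atTop 2] with r hr
    have hr' : (2 : ℝ) ≤ r := by exact_mod_cast hr
    have hterm : ∀ i ∈ range (r / 2), ‖((ε i * (Φ1 h' p r i * Wl l i (((i : ℝ) + 1) / r)) : ℝ) : ℂ) *
        E (n / (2 * r) * ((i : ℝ) + 1) ^ 2)‖ ≤ r * (1 / ((i : ℝ) + 1)) := by
      intro i hi
      rw [mem_range] at hi
      have h2 := Wl_bound l i (((i : ℝ) + 1) / r)
      rw [norm_mul, E_norm, mul_one, Complex.norm_real, Real.norm_eq_abs, abs_mul, abs_mul,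
        abs_of_nonneg h2.1]
      calc |ε i| * (|Φ1 h' p r i| * Wl l i (((i : ℝ) + 1) / r)) ≤ 1 * ((r / ((i : ℝ) + 1)) * 1) :=
            mul_le_mul (hε1 i) (mul_le_mul (Φ1_bound' h' p r i h3 hi) h2.2 h2.1 (by positivity))
              (mul_nonneg (abs_nonneg _) h2.1) (by norm_num)
        _ = r * (1 / ((i : ℝ) + 1)) := by ring
    refine (norm_sum_le _ _).trans ((sum_le_sum hterm).trans ?_)
    rw [← mul_sum]
    have h1 := sum_inv_le (r / 2)
    have h2 : Real.log ((r / 2 : ℕ) : ℝ) ≤ ((r / 2 : ℕ) : ℝ) := Real.log_le_self (Nat.cast_nonneg _)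
    have h4 : ((r / 2 : ℕ) : ℝ) ≤ r := by exact_mod_cast Nat.div_le_self r 2
    have h5 : (r : ℝ) ^ (2 : ℝ) ≤ (r : ℝ) ^ t :=
      Real.rpow_le_rpow_of_exponent_le (by linarith) ht2
    rw [Real.rpow_two] at h5
    calc (r : ℝ) * ∑ i ∈ range (r / 2), 1 / ((i : ℝ) + 1) ≤ r * (1 + r) := by
          apply mul_le_mul_of_nonneg_left _ (by linarith)
          linarith
      _ ≤ 2 * (r : ℝ) ^ 2 := by nlinarith
      _ ≤ 2 * (r : ℝ) ^ t := by linarith
  · have h5 : 5 ≤ h' := by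
      obtain ⟨k, hk⟩ := hh
      omega
    have key : ∀ ρ ∈ range B, Ex ((((h' - 2 : ℕ) : ℝ) + 1) / 2) (fun r : ℕ => ∑ i ∈ range (r / 2),
        (((if i % B = ρ then ε i else 0) * (Φ1 h' p r i * Wl l ρ (((i : ℝ) + 1) / r)) : ℝ) : ℂ) *
          E (n / (2 * r) * ((i : ℝ) + 1) ^ 2) -
        ((F1 h' p 0 * Wl l ρ 0 : ℝ) : ℂ) * lc (ε ρ / B) n (h' - 2) *
          (((r : ℝ) ^ ((((h' - 2 : ℕ) : ℝ) + 1) / 2) * Real.log r : ℝ) : ℂ)) := by
      intro ρ hρ
      rw [mem_range] at hρ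
      obtain ⟨D, hD⟩ := HL_class ε B ρ hB hρ fun i hi => by rw [hε i, hi]
      exact phi_ex (fun i => if i % B = ρ then ε i else 0)
        (fun i => by split_ifs; exacts [hε1 i, by simp]) (ε ρ / B) D hD n
        (h' - 2) (by omega) (fun x => F1 h' p x * Wl l ρ x) ((F1_analytic h' p).mul (Wl_analytic l ρ))
        (fun r => r / 2) (fun r i => Φ1 h' p r i * Wl l ρ (((i : ℝ) + 1) / r)) (Real.pi ^ 2)
        (by positivity)
        (by
          filter_upwards [eventually_ge_atTop 6] with r hr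
          exact (sqrt_lt_half r hr).le)
        (by
          filter_upwards [eventually_ge_atTop 1] with r hr i _
          rw [Φ1_eq h' p r i (by omega) hr]
          ring)
        (by
          filter_upwards with r i hi
          have h1 := Φ1_bound h' p r i (by omega) hi
          have h2 := Wl_bound l ρ (((i : ℝ) + 1) / r)
          rw [abs_mul, abs_of_nonneg h2.1]
          calc |Φ1 h' p r i| * Wl l ρ (((i : ℝ) + 1) / r) ≤ |Φ1 h' p r i| * 1 :=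
                mul_le_mul_of_nonneg_left h2.2 (abs_nonneg _)
            _ ≤ _ := by rw [mul_one]; exact h1)
    have hsum : Ex ((((h' - 2 : ℕ) : ℝ) + 1) / 2) (fun r : ℕ => ∑ i ∈ range (r / 2),
        ((ε i * (Φ1 h' p r i * Wl l i (((i : ℝ) + 1) / r)) : ℝ) : ℂ) *
          E (n / (2 * r) * ((i : ℝ) + 1) ^ 2) -
        ((F1 h' p 0 * ((∑ ρ ∈ range B, ε ρ * Wl l ρ 0) / B) : ℝ) : ℂ) * lc 1 n (h' - 2) *
          (((r : ℝ) ^ ((((h' - 2 : ℕ) : ℝ) + 1) / 2) * Real.log r : ℝ) : ℂ)) := by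
      refine Ex.congr (Ex.sum (range B) _ key) (Eventually.of_forall fun r => ?_)
      rw [sum_sub_distrib, sum_res B hB (r / 2) ε (fun i => Φ1 h' p r i)
        (fun ρ i => Wl l ρ (((i : ℝ) + 1) / r)) (fun i => E (n / (2 * r) * ((i : ℝ) + 1) ^ 2))
        (fun i => Wl_mod l B i hl _)]
      congr 1
      have e1 : ∀ ρ ∈ range B, ((F1 h' p 0 * Wl l ρ 0 : ℝ) : ℂ) * lc (ε ρ / B) n (h' - 2) *
            (((r : ℝ) ^ ((((h' - 2 : ℕ) : ℝ) + 1) / 2) * Real.log r : ℝ) : ℂ) =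
          ((ε ρ * Wl l ρ 0 : ℝ) : ℂ) * (((F1 h' p 0 / B : ℝ) : ℂ) * lc 1 n (h' - 2) *
            (((r : ℝ) ^ ((((h' - 2 : ℕ) : ℝ) + 1) / 2) * Real.log r : ℝ) : ℂ)) := by
        intro ρ _
        rw [lc_mul (ε ρ / B)]
        push_cast
        ring
      rw [sum_congr rfl e1, ← sum_mul, ← Complex.ofReal_sum]
      push_cast
      ring
    have hexp : (((h' - 2 : ℕ) : ℝ) + 1) / 2 ≤ t := by
      have : ((h' - 2 : ℕ) : ℝ) ≤ ((h' + 2 * p - 2 : ℕ) : ℝ) := by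
        have : h' - 2 ≤ h' + 2 * p - 2 := by omega
        exact_mod_cast this
      rw [ht]; linarith
    rcases hc with hc | hc
    · have hexp' : (((h' - 2 : ℕ) : ℝ) + 1) / 2 < t := by
        have : ((h' - 2 : ℕ) : ℝ) < ((h' + 2 * p - 2 : ℕ) : ℝ) := by
          have : h' - 2 < h' + 2 * p - 2 := by omega
          exact_mod_cast this
        rw [ht]; linarith
      refine Ex.congr (Ex.add (hsum.mono hexp) (log_absorb _ _ hexp'
        (((F1 h' p 0 * ((∑ ρ ∈ range B, ε ρ * Wl l ρ 0) / B) : ℝ) : ℂ) * lc 1 n (h' - 2))))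
        (Eventually.of_forall fun r => ?_)
      ring
    · rw [hc, zero_div, mul_zero, Complex.ofReal_zero] at hsum
      refine Ex.congr (hsum.mono hexp) (Eventually.of_forall fun r => ?_)
      ring

end Pool.Agent.H905.WG
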