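import Mathlib
import Pool.Agent.H905.WG.MA4

/-!
# No expansion with pairs of exceptional fibres of odd multiplicities
-/

set_option autoImplicit false

open Finset Filter Topology

namespace Pool.Agent.H905.WG

open H524R3 Pool.Agent.H905.WR

theorem alt_period (A i : ℕ) : (-1 : ℝ) ^ i = (-1) ^ (i % (2 * A)) := by
  have h := Nat.mod_add_div i (2 * A)
  conv_lhs => rw [← h, pow_add, mul_assoc, pow_mul, neg_one_sq, one_pow, mul_one]

theorem odd_period (A i : ℕ) : Odd (i % (2 * A) + 1) ↔ Odd (i + 1) := by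
  have h := Nat.mod_add_div i (2 * A)
  rw [mul_assoc] at h
  constructor
  · rintro ⟨k, hk⟩
    exact ⟨k + A * (i / (2 * A)), by omega⟩
  · rintro ⟨k, hk⟩
    exact ⟨k - A * (i / (2 * A)), by omega⟩

theorem sgn_sq (n : ℤ) : sgn n * sgn n = 1 := by
  unfold sgn; split_ifs <;> norm_num

theorem sgn_pow_odd (n : ℤ) (k : ℕ) (hk : Odd k) : sgn n ^ k = sgn n := by
  obtain ⟨j, hj⟩ := hk
  rw [hj, pow_succ, pow_mul, sq, sgn_sq, one_pow, one_mul]

theorem sgn_pow_even (n : ℤ) (k : ℕ) (hk : Even k) : sgn n ^ k = 1 := by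
  obtain ⟨j, hj⟩ := hk
  rw [hj, ← two_mul, pow_mul, sq, sgn_sq, one_pow]

theorem s2_period (p : ℕ) (n : ℤ) (A i : ℕ) : s2 p n i = s2 p n (i % (2 * A)) := by
  have h1 := odd_period A i
  unfold s2
  by_cases ho : Odd (i + 1)
  · have ho' := h1.2 ho
    rw [if_pos (Or.inr ho), if_pos (Or.inr ho'), ho.neg_one_pow, ho'.neg_one_pow,
      sgn_pow_odd n _ ho, sgn_pow_odd n _ ho']
  · have ho' : ¬ Odd (i % (2 * A) + 1) := fun h => ho (h1.1 h)
    have e := Nat.not_odd_iff_even.1 ho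
    have e' := Nat.not_odd_iff_even.1 ho'
    rw [e.neg_one_pow, e'.neg_one_pow, sgn_pow_even n _ e, sgn_pow_even n _ e']
    by_cases hp : p = 0
    · rw [if_pos (Or.inl hp), if_pos (Or.inl hp)]
    · rw [if_neg (by tauto), if_neg (by tauto)]

theorem s2_sign (p : ℕ) (n : ℤ) (hc : 1 ≤ p ∨ Odd n) (i : ℕ) : 0 ≤ s2 p n i * s2 p n 0 := by
  have h0 : s2 p n 0 = -sgn n := by
    unfold s2
    rw [if_pos (Or.inr (by decide))]
    norm_num
  rw [h0]
  unfold s2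
  by_cases ho : Odd (i + 1)
  · rw [if_pos (Or.inr ho), ho.neg_one_pow, sgn_pow_odd n _ ho]
    have := sgn_sq n
    nlinarith
  · have e := Nat.not_odd_iff_even.1 ho
    by_cases hp : p = 0
    · have hn : Odd n := by
        rcases hc with h | h
        · omega
        · exact h
      have hs : sgn n = -1 := by
        unfold sgn; rw [if_neg (Int.not_even_iff_odd.2 hn)]
      rw [if_pos (Or.inl hp), e.neg_one_pow, sgn_pow_even n _ e, hs]
      norm_num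
    · rw [if_neg (by tauto)]
      simp

theorem s2_sum_ne (p : ℕ) (n : ℤ) (hc : 1 ≤ p ∨ Odd n) (l : List ℕ) (hl : ∀ a ∈ l, 2 ≤ a) (B : ℕ)
    (hB : 0 < B) : ∑ ρ ∈ range B, s2 p n ρ * Wl l ρ 0 ≠ 0 := by
  intro h
  have h0 : s2 p n 0 = -sgn n := by
    unfold s2
    rw [if_pos (Or.inr (by decide))]
    norm_num
  have h1 : ∑ ρ ∈ range B, (s2 p n ρ * s2 p n 0) * Wl l ρ 0 = 0 := by
    have e : ∑ ρ ∈ range B, (s2 p n ρ * s2 p n 0) * Wl l ρ 0 =
        s2 p n 0 * ∑ ρ ∈ range B, s2 p n ρ * Wl l ρ 0 := by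
      rw [mul_sum]
      refine sum_congr rfl fun ρ _ => ?_
      ring
    rw [e, h, mul_zero]
  have h2 := (sum_eq_zero_iff_of_nonneg (fun ρ _ =>
    mul_nonneg (s2_sign p n hc ρ) (Wl_bound l ρ 0).1)).1 h1 0 (mem_range.2 hB)
  rw [h0] at h2
  have h3 := sgn_sq n
  have h4 := Wl_pos l hl
  have h5 : -sgn n * -sgn n = 1 := by linarith
  rw [h5, one_mul] at h2
  linarith

theorem alt_sum_zero (l : List ℕ) (A : ℕ) (hA : Odd A) (hl : ∀ a ∈ l, 0 < a ∧ a ∣ A) :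
    ∑ ρ ∈ range (2 * A), (-1 : ℝ) ^ ρ * Wl l ρ 0 = 0 := by
  rw [two_mul, sum_range_add, ← sum_add_distrib]
  refine sum_eq_zero fun ρ _ => ?_
  have h1 : Wl l (A + ρ) 0 = Wl l ρ 0 := by
    rw [Wl_mod l A (A + ρ) hl, Wl_mod l A ρ hl, Nat.add_mod_left]
  rw [h1, pow_add, hA.neg_one_pow]
  ring

/-- The end near 0 with its signs. -/
theorem A_L (h' p : ℕ) (hh : Odd h') (hm : 3 ≤ h' + 2 * p - 2) (l : List ℕ) (n : ℝ) (A : ℕ)
    (hA : Odd A) (hl : ∀ a ∈ l, 0 < a ∧ a ∣ A) :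
    Ex ((((h' + 2 * p - 2 : ℕ) : ℝ) + 1) / 2) (fun r : ℕ => ∑ i ∈ range (r / 2),
      ((s1 p r i * (Φ1 h' p r i * Wl l i (((i : ℝ) + 1) / r)) : ℝ) : ℂ) *
        E (n / (2 * r) * ((i : ℝ) + 1) ^ 2)) := by
  have hB : 0 < 2 * A := by have := hA.pos; omega
  have hl' : ∀ a ∈ l, 0 < a ∧ a ∣ 2 * A := fun a ha => ⟨(hl a ha).1, (hl a ha).2.mul_left 2⟩
  have ha := end1_L h' p hh hm l n (2 * A) hB hl' (fun i => (-1) ^ i)
    (fun i => by rw [abs_pow, abs_neg, abs_one, one_pow]) (alt_period A)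
    (Or.inr (alt_sum_zero l A hA hl))
  by_cases hp : p = 0
  · refine Ex.congr ha (Eventually.of_forall fun r => ?_)
    refine sum_congr rfl fun i _ => ?_
    unfold s1
    rw [if_pos (Or.inl hp), mul_one]
  · have hb := end1_L h' p hh hm l n (2 * A) hB hl' (fun _ => 1) (fun _ => by simp) (fun _ => rfl)
      (Or.inl (by omega))
    have hb' := (hb.mul_term 0 (-1) (by rw [norm_neg, norm_one])).const_mul (1 / 2)
    rw [add_zero] at hb'
    refine Ex.congr (Ex.add (ha.const_mul (1 / 2)) hb') (Eventually.of_forall fun r => ?_)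
    rw [Real.rpow_zero, Complex.ofReal_one, one_mul, mul_sum, mul_sum, mul_sum, ← sum_add_distrib]
    refine sum_congr rfl fun i _ => ?_
    have hs : s1 p r i = 1 / 2 * (-1) ^ i + 1 / 2 * (-1) ^ r := by
      unfold s1
      by_cases ho : Odd (i + 1 + r)
      · rw [if_pos (Or.inr ho), mul_one]
        have h1 : (-1 : ℝ) ^ (i + 1 + r) = -1 := ho.neg_one_pow
        have h2 : (-1 : ℝ) ^ (i + 1 + r) = -((-1) ^ i * (-1) ^ r) := by
          rw [pow_add, pow_succ]; ring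
        rcases neg_one_pow_eq_or ℝ i with e | e <;> rcases neg_one_pow_eq_or ℝ r with e' | e' <;>
          rw [e, e'] at h2 <;> rw [e, e'] <;> linarith
      · rw [if_neg (by tauto), mul_zero]
        have h1 : (-1 : ℝ) ^ (i + 1 + r) = 1 := (Nat.not_odd_iff_even.1 ho).neg_one_pow
        have h2 : (-1 : ℝ) ^ (i + 1 + r) = -((-1) ^ i * (-1) ^ r) := by
          rw [pow_add, pow_succ]; ring
        rcases neg_one_pow_eq_or ℝ i with e | e <;> rcases neg_one_pow_eq_or ℝ r with e' | e' <;>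
          rw [e, e'] at h2 <;> rw [e, e'] <;> linarith
    rw [hs]
    push_cast
    ring

theorem odd_prod (l : List ℕ) (hl : ∀ a ∈ l, Odd a) : Odd l.prod := by
  induction l with
  | nil => simp
  | cons a l ih =>
    rw [List.prod_cons]
    exact (hl a List.mem_cons_self).mul (ih fun b hb => hl b (List.mem_cons_of_mem _ hb))

/-- The logarithm of the model. -/
theorem log_L (h p : ℕ) (hh : Odd h) (l : List ℕ) (hl : ∀ a ∈ l, Odd a ∧ 3 ≤ a)
    (hm : 5 ≤ h + 2 * p + 2 * l.length) (n : ℤ) (hn : n ≠ 0) (hc : 1 ≤ p ∨ Odd n) :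
    ∃ c z : ℂ, c ≠ 0 ∧ ‖z‖ = 1 ∧ Ex ((h : ℝ) + p + l.length - 3 / 2) (fun r : ℕ =>
      Complex.exp (Real.pi * Complex.I * (n / (2 * r))) * ZL h p l n r -
        c * z ^ r * (((r : ℝ) ^ ((h : ℝ) + p + l.length - 3 / 2) * Real.log r : ℝ) : ℂ)) := by
  have hA : Odd l.prod := odd_prod l fun a ha => (hl a ha).1
  have hl1 : ∀ a ∈ l, 0 < a ∧ a ∣ l.prod := fun a ha => ⟨(hl a ha).1.pos, List.dvd_prod ha⟩
  have hl2 : ∀ a ∈ l, 0 < a ∧ a ∣ 2 * l.prod := fun a ha => ⟨(hl1 a ha).1, (hl1 a ha).2.mul_left 2⟩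
  have hB0 : 0 < 2 * l.prod := by have := hA.pos; omega
  have hodd' : Odd (h + 2 * l.length) := by
    obtain ⟨k, hk⟩ := hh
    exact ⟨k + l.length, by omega⟩
  have hm' : 3 ≤ (h + 2 * l.length) + 2 * p - 2 := by omega
  have hoddm : Odd ((h + 2 * l.length) + 2 * p - 2) := by
    obtain ⟨k, hk⟩ := hh
    exact ⟨k + l.length + p - 1, by omega⟩
  set h' := h + 2 * l.length with hh'
  set t : ℝ := (((h' + 2 * p - 2 : ℕ) : ℝ) + 1) / 2 with ht
  have hA1 := A_L h' p hodd' hm' l n l.prod hA hl1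
  rw [← ht] at hA1
  have hB1 := end2_L h' p hm' l n (2 * l.prod) hB0 hl2 (s2 p n) (s2_abs p n) (s2_period p n l.prod)
  rw [← ht] at hB1
  set S : ℝ := (∑ ρ ∈ range (2 * l.prod), s2 p n ρ * Wl l ρ 0) / ((2 * l.prod : ℕ) : ℝ) with hS
  have hS0 : S ≠ 0 := by
    refine div_ne_zero (s2_sum_ne p n hc l (fun a ha => by have := (hl a ha).2; omega) _ hB0) ?_
    exact_mod_cast hB0.ne'
  set z : ℂ := -E (n / 2) with hz
  have hz1 : ‖z‖ = 1 := by rw [hz, norm_neg, E_norm]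
  have hB' := hB1.mul_term 0 z hz1
  rw [add_zero] at hB'
  have key := ((Ex.sub hA1 hB').mul_term ((h : ℝ) / 2 - 1) 1 norm_one).const_mul
    ((Real.sqrt 2 ^ 2 * (Real.sqrt 2)⁻¹ ^ h : ℝ) : ℂ)
  have e1 : t + ((h : ℝ) / 2 - 1) = (h : ℝ) + p + l.length - 3 / 2 := by
    rw [ht, Nat.cast_sub (by omega), hh']
    push_cast
    ring
  rw [e1] at key
  have hd : ((Real.sqrt 2 ^ 2 * (Real.sqrt 2)⁻¹ ^ h : ℝ) : ℂ) ≠ 0 := by
    have : Real.sqrt 2 ^ 2 * (Real.sqrt 2)⁻¹ ^ h ≠ 0 := by positivity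
    exact_mod_cast this
  have hlc : lc 1 n (h' + 2 * p - 2) ≠ 0 := lc_ne 1 n _ hoddm one_ne_zero (by exact_mod_cast hn)
  refine ⟨-(((Real.sqrt 2 ^ 2 * (Real.sqrt 2)⁻¹ ^ h : ℝ) : ℂ) *
    (((F2 h' p 0 * S : ℝ) : ℂ) * lc 1 n (h' + 2 * p - 2))), z,
    neg_ne_zero.2 (mul_ne_zero hd (mul_ne_zero (by exact_mod_cast mul_ne_zero (F2_zero_ne h' p) hS0)
      hlc)), hz1, Ex.congr key ?_⟩
  filter_upwards [eventually_ge_atTop 2] with r hr
  have hr' : (0 : ℝ) < r := by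
    have : 0 < r := by omega
    exact_mod_cast this
  unfold ZL
  rw [gr_eq h r (by omega), Real.rpow_zero, Complex.ofReal_one, one_mul, one_pow, mul_one]
  have hE : Complex.exp (Real.pi * Complex.I * (n / (2 * r))) * E (-(n / (2 * r))) = 1 := by
    have : Complex.exp (Real.pi * Complex.I * (n / (2 * r))) = E (n / (2 * r)) := by
      unfold E; push_cast; rfl
    rw [this, ← E_add, add_neg_cancel, E_zero]
  have hrp : (r : ℝ) ^ ((h : ℝ) / 2 - 1) * (r : ℝ) ^ t = (r : ℝ) ^ ((h : ℝ) + p + l.length - 3 / 2) := by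
    rw [← Real.rpow_add hr', ← e1]
    congr 1
    ring
  have hrpc : (((r : ℝ) ^ ((h : ℝ) + p + l.length - 3 / 2) * Real.log r : ℝ) : ℂ) =
      (((r : ℝ) ^ ((h : ℝ) / 2 - 1) : ℝ) : ℂ) * (((r : ℝ) ^ t * Real.log r : ℝ) : ℂ) := by
    rw [← hrp]; push_cast; ring
  rw [hrpc, Complex.ofReal_mul (Real.sqrt 2 ^ 2 * (Real.sqrt 2)⁻¹ ^ h)]
  generalize ((Real.sqrt 2 ^ 2 * (Real.sqrt 2)⁻¹ ^ h : ℝ) : ℂ) = d
  generalize (((r : ℝ) ^ ((h : ℝ) / 2 - 1) : ℝ) : ℂ) = b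
  generalize (((r : ℝ) ^ t * Real.log r : ℝ) : ℂ) = L
  generalize ∑ i ∈ range (r / 2), ((s1 p r i * (Φ1 h' p r i * Wl l i (((i : ℝ) + 1) / r)) : ℝ) : ℂ) *
    E (n / (2 * r) * ((i : ℝ) + 1) ^ 2) = A
  generalize ∑ i ∈ range (r - 1 - r / 2), ((s2 p n i * (Φ2 h' p r i *
    Wl l i (((i : ℝ) + 1) / r)) : ℝ) : ℂ) * E (n / (2 * r) * ((i : ℝ) + 1) ^ 2) = B
  rw [← hz]
  generalize E (-(n / (2 * r))) = e4 at hE ⊢
  generalize Complex.exp (Real.pi * Complex.I * (n / (2 * r))) = e5 at hE ⊢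
  linear_combination (-(d * b * (A - z ^ r * B))) * hE

/-- No expansion with pairs of exceptional fibres of odd multiplicities. -/
theorem no_exp_L (h p : ℕ) (hh : Odd h) (l : List ℕ) (hl : ∀ a ∈ l, Odd a ∧ 3 ≤ a)
    (hm : 5 ≤ h + 2 * p + 2 * l.length) (n : ℤ) (hn : n ≠ 0) (hc : 1 ≤ p ∨ Odd n) (α β : ℝ) :
    ¬ HasExpansion 2 (fun k => Complex.exp (Real.pi * Complex.I * (α + β / (k + 2))) *
      (seifertTreeOf h p l n).wrt (k + 2)) := by
  intro H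
  simp only [← E_eq_exp] at H
  obtain ⟨c, z, hc0, hz, hex⟩ := log_L h p hh l hl hm n hn hc
  set t : ℝ := (h : ℝ) + p + l.length - 3 / 2 with ht
  have hA : 0 < l.prod := (odd_prod l fun a ha => (hl a ha).1).pos
  have H' : HasExpansion 2 (fun k => (fun r : ℕ => E (α + β / r) * (seifertTreeOf h p l n).wrt r) (k + 2)) := by
    have e : (fun k => (fun r : ℕ => E (α + β / r) * (seifertTreeOf h p l n).wrt r) (k + 2)) =
        fun k : ℕ => E (α + β / (k + 2)) * (seifertTreeOf h p l n).wrt (k + 2) := by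
      funext k
      show E (α + β / ((k + 2 : ℕ) : ℝ)) * _ = _
      push_cast
      rfl
    rw [e]; exact H
  have hex1 := ex_of_hasExpansion 2 (fun r : ℕ => E (α + β / r) * (seifertTreeOf h p l n).wrt r) H' t
  have hex2 := ((hex1.mul_E (n / 2 - β)).const_mul (E (-α))).mul_delta l.prod hA
  have hex3 := hex.mul_delta l.prod hA
  refine not_ex_log_delta t c hc0 z hz l.prod hA (Ex.congr (Ex.sub hex2 hex3) ?_)
  filter_upwards [eventually_ge_atTop 2] with r hr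
  have hr' : (0 : ℝ) < r := by
    have : 0 < r := by omega
    exact_mod_cast this
  by_cases hd : l.prod ∣ r - 1
  · rw [if_pos hd]
    have hZ := wrt_ZL h p hh l n r hr fun a ha => ⟨(hl a ha).1, (List.dvd_prod ha).trans hd⟩
    have hE : E (-α) * (E ((n / 2 - β) / r) * (E (α + β / r) * (seifertTreeOf h p l n).wrt r)) =
        Complex.exp (Real.pi * Complex.I * (n / (2 * r))) * ZL h p l n r := by
      have h1 : Complex.exp (Real.pi * Complex.I * (n / (2 * r))) = E (n / (2 * r)) := by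
        unfold E; push_cast; rfl
      rw [h1, hZ, ← mul_assoc, ← mul_assoc, ← E_add, ← E_add]
      congr 2
      field_simp
      ring
    rw [hE]
    ring
  · rw [if_neg hd]
    ring

/-- The logarithm along the r = 1 modulo the product of the odd multiplicities, in explicit form. -/
theorem log_L' (h p : ℕ) (hh : Odd h) (l : List ℕ) (hl : ∀ a ∈ l, Odd a ∧ 3 ≤ a)
    (hm : 5 ≤ h + 2 * p + 2 * l.length) (n : ℤ) (hn : n ≠ 0) (hc : 1 ≤ p ∨ Odd n) :
    ∃ (c z : ℂ) (N : ℕ) (β w : Fin N → ℂ) (e : Fin N → ℝ) (C : ℝ), c ≠ 0 ∧ ‖z‖ = 1 ∧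
      (∀ j, ‖w j‖ = 1) ∧ ∀ᶠ r : ℕ in atTop, l.prod ∣ r - 1 →
      ‖Complex.exp (Real.pi * Complex.I * (n / (2 * r))) * (seifertTreeOf h p l n).wrt r -
        ∑ j, β j * (((r : ℝ) ^ e j : ℝ) : ℂ) * w j ^ r -
        c * z ^ r * (((r : ℝ) ^ ((h : ℝ) + p + l.length - 3 / 2) * Real.log r : ℝ) : ℂ)‖ ≤
        C * (r : ℝ) ^ ((h : ℝ) + p + l.length - 3 / 2) := by
  obtain ⟨c, z, hc0, hz, hex⟩ := log_L h p hh l hl hm n hn hc
  obtain ⟨ι, _, β, w, e, hw, C, hC⟩ := hex.extract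
  let eq := (Fintype.equivFin ι).symm
  refine ⟨c, z, Fintype.card ι, fun j => β (eq j), fun j => w (eq j), fun j => e (eq j), C, hc0, hz,
    fun j => hw _, ?_⟩
  filter_upwards [hC, eventually_ge_atTop 2] with r hr hr2 hd
  rw [wrt_ZL h p hh l n r hr2 fun a ha => ⟨(hl a ha).1, (List.dvd_prod ha).trans hd⟩]
  have h1 : ∑ j : Fin (Fintype.card ι), β (eq j) * (((r : ℝ) ^ e (eq j) : ℝ) : ℂ) * w (eq j) ^ r =
      ∑ i, β i * (((r : ℝ) ^ e i : ℝ) : ℂ) * w i ^ r :=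
    Equiv.sum_comp eq (fun i => β i * (((r : ℝ) ^ e i : ℝ) : ℂ) * w i ^ r)
  rw [h1, sub_right_comm]
  exact hr

end Pool.Agent.H905.WG
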