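import Mathlib
import Pool.Agent.H905.WG.Anal

/-!
# The coefficient of `1 / y` in `1 / (sin y ^ a cos y ^ b)`, a and b odd, is at least one
-/

set_option autoImplicit false

open Finset Filter Topology

namespace Pool.Agent.H905.WG

/-- `F y = Q y + c y ^ s + y ^ (s + 1) V y` near `0`, where `Q` is a polynomial of degree less than `s`
and `V` is analytic at `0`. -/
def Co (s : ℕ) (F : ℝ → ℝ) (c : ℝ) : Prop :=
  ∃ (Q : Polynomial ℝ) (V : ℝ → ℝ), AnalyticAt ℝ V 0 ∧ (∀ k, s ≤ k → Q.coeff k = 0) ∧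
    ∀ᶠ y in 𝓝 (0 : ℝ), F y = Q.eval y + c * y ^ s + y ^ (s + 1) * V y

theorem Co.add {s : ℕ} {F G : ℝ → ℝ} {c d : ℝ} (hF : Co s F c) (hG : Co s G d) :
    Co s (fun y => F y + G y) (c + d) := by
  obtain ⟨Q, V, hV, hQ, h⟩ := hF
  obtain ⟨R, W, hW, hR, h'⟩ := hG
  refine ⟨Q + R, fun y => V y + W y, hV.add hW, fun k hk => ?_, ?_⟩
  · rw [Polynomial.coeff_add, hQ k hk, hR k hk, add_zero]
  · filter_upwards [h, h'] with y h1 h2
    rw [h1, h2, Polynomial.eval_add]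
    ring

theorem Co.congr {s : ℕ} {F G : ℝ → ℝ} {c : ℝ} (hF : Co s F c) (hFG : ∀ᶠ y in 𝓝 (0 : ℝ), F y = G y) :
    Co s G c := by
  obtain ⟨Q, V, hV, hQ, h⟩ := hF
  refine ⟨Q, V, hV, hQ, ?_⟩
  filter_upwards [h, hFG] with y h1 h2
  rw [← h2, h1]

theorem Co.shift {s : ℕ} {F : ℝ → ℝ} {c : ℝ} (hF : Co s F c) : Co (s + 2) (fun y => y ^ 2 * F y) c := by
  obtain ⟨Q, V, hV, hQ, h⟩ := hF
  refine ⟨Polynomial.X ^ 2 * Q, V, hV, fun k hk => ?_, ?_⟩
  · rw [Polynomial.coeff_X_pow_mul', if_pos (by omega), hQ _ (by omega)]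
  · filter_upwards [h] with y h1
    rw [h1, Polynomial.eval_mul, Polynomial.eval_pow, Polynomial.eval_X]
    ring

theorem dslope_analytic {V : ℝ → ℝ} (hV : AnalyticAt ℝ V 0) : AnalyticAt ℝ (dslope V 0) 0 := by
  obtain ⟨p, hp⟩ := hV
  exact ⟨_, hp.has_fpower_series_dslope_fslope⟩

theorem eq_dslope (V : ℝ → ℝ) (y : ℝ) : V y = V 0 + y * dslope V 0 y := by
  have h1 := sub_smul_dslope V 0 y
  rw [sub_zero, smul_eq_mul] at h1
  rw [h1]; ring

theorem Co.base {F : ℝ → ℝ} (hF : AnalyticAt ℝ F 0) : Co 0 F (F 0) := by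
  refine ⟨0, dslope F 0, dslope_analytic hF, fun k _ => by simp, Eventually.of_forall fun y => ?_⟩
  have := eq_dslope F y
  simp only [Polynomial.eval_zero, pow_zero, mul_one, zero_add, pow_one]
  exact this

theorem decomp (F : ℝ → ℝ) (hF : AnalyticAt ℝ F 0) (s : ℕ) :
    ∃ (Q : Polynomial ℝ) (V : ℝ → ℝ), AnalyticAt ℝ V 0 ∧ (∀ k, s ≤ k → Q.coeff k = 0) ∧
      ∀ y, F y = Q.eval y + y ^ s * V y := by
  induction s with
  | zero => exact ⟨0, F, hF, fun k _ => by simp, fun y => by simp⟩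
  | succ s ih =>
    obtain ⟨Q, V, hV, hQ, h⟩ := ih
    refine ⟨Q + Polynomial.C (V 0) * Polynomial.X ^ s, dslope V 0, dslope_analytic hV,
      fun k hk => ?_, fun y => ?_⟩
    · rw [Polynomial.coeff_add, hQ k (by omega), Polynomial.coeff_C_mul, Polynomial.coeff_X_pow,
        if_neg (by omega)]
      ring
    · have h1 := eq_dslope V y
      rw [h y, Polynomial.eval_add, Polynomial.eval_mul, Polynomial.eval_pow, Polynomial.eval_X,
        Polynomial.eval_C]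
      linear_combination (y ^ s) * h1

theorem sc_ne : ∀ᶠ y in 𝓝 (0 : ℝ), sc y ≠ 0 :=
  sc_analytic.continuousAt.eventually_ne (by rw [sc_zero]; norm_num)

theorem cos_ne : ∀ᶠ y in 𝓝 (0 : ℝ), Real.cos y ≠ 0 :=
  Real.continuous_cos.continuousAt.eventually_ne (by rw [Real.cos_zero]; norm_num)

/-- `cos y / sin y ^ (s + 1)` has no term `1 / y`. -/
theorem residue_zero (t : ℕ) : Co (t + 1) (fun y => (sc y)⁻¹ ^ (t + 2) * Real.cos y) 0 := by
  have hU : AnalyticAt ℝ (fun y => (sc y)⁻¹ ^ (t + 1)) 0 :=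
    (sc_analytic.inv (by rw [sc_zero]; norm_num)).pow (t + 1)
  obtain ⟨P, W, hW, hP, h⟩ := decomp _ hU (t + 1)
  have ht : ((t : ℝ) + 1) ≠ 0 := by positivity
  refine ⟨P - Polynomial.C ((t : ℝ) + 1)⁻¹ * (Polynomial.X * Polynomial.derivative P),
    fun y => -(deriv W y) / ((t : ℝ) + 1), ?_, fun k hk => ?_, ?_⟩
  · exact hW.deriv.neg.div_const
  · obtain ⟨j, rfl⟩ : ∃ j, k = j + 1 := ⟨k - 1, by omega⟩
    rw [Polynomial.coeff_sub, Polynomial.coeff_C_mul, Polynomial.coeff_X_mul,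
      Polynomial.coeff_derivative, hP _ hk]
    ring
  · filter_upwards [sc_ne, sc_analytic.eventually_analyticAt, hW.eventually_analyticAt] with y h0 hsc hWy
    have d1 : HasDerivAt sc (deriv sc y) y := hsc.differentiableAt.hasDerivAt
    have dW : HasDerivAt W (deriv W y) y := hWy.differentiableAt.hasDerivAt
    have d2 : HasDerivAt (fun y => y * sc y) (1 * sc y + y * deriv sc y) y := (hasDerivAt_id y).mul d1
    have e1 : Real.sin = fun y => y * sc y := funext sin_eq_sc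
    have d3 : HasDerivAt (fun y => y * sc y) (Real.cos y) y := by
      rw [← e1]; exact Real.hasDerivAt_sin y
    have hcos : Real.cos y = 1 * sc y + y * deriv sc y := d3.unique d2
    have d4 : HasDerivAt (fun y => (sc y)⁻¹ ^ (t + 1))
        (((t + 1 : ℕ) : ℝ) * (sc y)⁻¹ ^ (t + 1 - 1) * (-(deriv sc y) / (sc y) ^ 2)) y :=
      (d1.inv h0).pow (t + 1)
    have e2 : (fun y => (sc y)⁻¹ ^ (t + 1)) = fun y => P.eval y + y ^ (t + 1) * W y := funext h
    have d5 : HasDerivAt (fun y => P.eval y + y ^ (t + 1) * W y)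
        ((Polynomial.derivative P).eval y +
          ((((t + 1 : ℕ) : ℝ) * y ^ (t + 1 - 1)) * W y + y ^ (t + 1) * deriv W y)) y :=
      (P.hasDerivAt y).add ((hasDerivAt_pow (t + 1) y).mul dW)
    rw [← e2] at d5
    have e3 := d4.unique d5
    have e4 := h y
    have hI : (sc y)⁻¹ * sc y = 1 := inv_mul_cancel₀ h0
    have e5 : -(deriv sc y) / (sc y) ^ 2 = -(deriv sc y) * (sc y)⁻¹ ^ 2 := by
      rw [div_eq_mul_inv, inv_pow]
    rw [e5] at e3
    simp only [Nat.add_sub_cancel] at e3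
    push_cast at e3
    simp only [Polynomial.eval_sub, Polynomial.eval_mul, Polynomial.eval_C, Polynomial.eval_X]
    rw [hcos]
    generalize (sc y)⁻¹ = I at *
    generalize sc y = S at *
    generalize deriv sc y = S' at *
    generalize deriv W y = W' at *
    generalize W y = w at *
    generalize P.eval y = a at *
    generalize (Polynomial.derivative P).eval y = a' at *
    have hinv : ((t : ℝ) + 1) * ((t : ℝ) + 1)⁻¹ = 1 := mul_inv_cancel₀ ht
    rw [div_eq_mul_inv]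
    generalize ((t : ℝ) + 1)⁻¹ = k at *
    generalize ((t : ℝ) + 1) = m at *
    linear_combination (I ^ (t + 1)) * hI + e4 - (y * k) * e3 +
      (y ^ (t + 1) * w + I ^ (t + 2) * y * S') * (-hinv)

theorem alg3 (y S C I J : ℝ) (hI : I * S = 1) (hJ : J * C = 1) (h : (y * S) ^ 2 + C ^ 2 = 1)
    (a b : ℕ) : y ^ 2 * (I ^ a * J ^ (b + 2)) + I ^ (a + 2) * J ^ b = I ^ (a + 2) * J ^ (b + 2) := by
  linear_combination I ^ (a + 2) * J ^ (b + 2) * h - y ^ 2 * I ^ a * J ^ (b + 2) * (I * S + 1) * hI -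
    I ^ (a + 2) * J ^ b * (J * C + 1) * hJ

theorem alg4 (y S C I J : ℝ) (hI : I * S = 1) (hJ : J * C = 1) (h : (y * S) ^ 2 + C ^ 2 = 1)
    (a : ℕ) : y ^ 2 * (I ^ a * J ^ 1) + I ^ (a + 2) * C = I ^ (a + 2) * J ^ 1 := by
  linear_combination I ^ (a + 2) * J * h - y ^ 2 * I ^ a * J * (I * S + 1) * hI -
    I ^ (a + 2) * C * hJ

theorem G_analytic (a b : ℕ) : AnalyticAt ℝ (fun y => (sc y)⁻¹ ^ a * (Real.cos y)⁻¹ ^ b) 0 :=
  ((sc_analytic.inv (by rw [sc_zero]; norm_num)).pow a).mul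
    ((Real.analyticAt_cos.inv (by rw [Real.cos_zero]; norm_num)).pow b)

theorem sq_add (y : ℝ) : (y * sc y) ^ 2 + Real.cos y ^ 2 = 1 := by
  rw [← sin_eq_sc]; exact Real.sin_sq_add_cos_sq y

theorem G_zero (b : ℕ) : ∃ c : ℝ, 1 ≤ c ∧
    Co (2 * 0) (fun y => (sc y)⁻¹ ^ (2 * 0 + 1) * (Real.cos y)⁻¹ ^ b) c := by
  refine ⟨1, le_rfl, ?_⟩
  have h := Co.base (G_analytic (2 * 0 + 1) b)
  simp only [sc_zero, Real.cos_zero, inv_one, one_pow, mul_one] at h
  exact h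

theorem G_co (b : ℕ) : ∀ t : ℕ, ∃ c : ℝ, 1 ≤ c ∧
    Co (2 * t) (fun y => (sc y)⁻¹ ^ (2 * t + 1) * (Real.cos y)⁻¹ ^ (2 * b + 1)) c := by
  induction b with
  | zero =>
    intro t
    induction t with
    | zero => exact G_zero _
    | succ t ih =>
      obtain ⟨c, hc, h⟩ := ih
      refine ⟨c + 0, by linarith, Co.congr (h.shift.add (residue_zero (2 * t + 1))) ?_⟩
      filter_upwards [sc_ne, cos_ne] with y h1 h2
      exact alg4 y (sc y) (Real.cos y) _ _ (inv_mul_cancel₀ h1) (inv_mul_cancel₀ h2) (sq_add y)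
        (2 * t + 1)
  | succ b ihb =>
    intro t
    induction t with
    | zero => exact G_zero _
    | succ t ih =>
      obtain ⟨c, hc, h⟩ := ih
      obtain ⟨d, hd, h'⟩ := ihb (t + 1)
      refine ⟨c + d, by linarith, Co.congr (h.shift.add h') ?_⟩
      filter_upwards [sc_ne, cos_ne] with y h1 h2
      exact alg3 y (sc y) (Real.cos y) _ _ (inv_mul_cancel₀ h1) (inv_mul_cancel₀ h2) (sq_add y)
        (2 * t + 1) (2 * b + 1)

/-- The form with a bound for the remainder. -/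
def CoB (s : ℕ) (F : ℝ → ℝ) (c : ℝ) : Prop :=
  ∃ (Q : ℕ → ℝ) (C δ : ℝ), 0 < δ ∧ ∀ x : ℝ, 0 < x → x < δ →
    |F x - (∑ k ∈ range s, Q k * x ^ k + c * x ^ s)| ≤ C * x ^ (s + 1)

theorem CoB.of {s : ℕ} {G : ℝ → ℝ} {c : ℝ} (hG : Co s G c) (κ ρ : ℝ) (F : ℝ → ℝ)
    (hF : ∀ x, F x = κ * G (ρ * x)) : CoB s F (κ * c * ρ ^ s) := by
  obtain ⟨Q, V, hV, hQ, h⟩ := hG
  have hVb : ∀ᶠ y in 𝓝 (0 : ℝ), |V y| ≤ |V 0| + 1 := by
    have h1 : Tendsto (fun y => |V y|) (𝓝 0) (𝓝 |V 0|) := hV.continuousAt.abs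
    filter_upwards [h1.eventually (eventually_lt_nhds (lt_add_one |V 0|))] with y hy using hy.le
  have hlim : Tendsto (fun x : ℝ => ρ * x) (𝓝 0) (𝓝 0) := by
    have : Tendsto (fun x : ℝ => ρ * x) (𝓝 0) (𝓝 (ρ * 0)) := (continuous_const.mul continuous_id).tendsto 0
    rwa [mul_zero] at this
  obtain ⟨δ, hδ, hb⟩ := Metric.eventually_nhds_iff.1 (hlim.eventually (h.and hVb))
  refine ⟨fun k => κ * Q.coeff k * ρ ^ k, |κ| * |ρ| ^ (s + 1) * (|V 0| + 1), δ, hδ, fun x hx0 hx => ?_⟩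
  have h1 := hb (y := x) (by rw [Real.dist_eq, sub_zero, abs_of_pos hx0]; exact hx)
  obtain ⟨h2, h3⟩ := h1
  have hdeg : Q.natDegree ≤ s := Polynomial.natDegree_le_iff_coeff_eq_zero.2 fun N hN => hQ N hN.le
  have h4 := Polynomial.eval_eq_sum_range' (Nat.lt_succ_of_le hdeg) (ρ * x)
  rw [sum_range_succ, hQ s le_rfl, zero_mul, add_zero] at h4
  rw [hF, h2, h4]
  have e : κ * (∑ i ∈ range s, Q.coeff i * (ρ * x) ^ i + c * (ρ * x) ^ s + (ρ * x) ^ (s + 1) * V (ρ * x)) -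
      (∑ k ∈ range s, κ * Q.coeff k * ρ ^ k * x ^ k + κ * c * ρ ^ s * x ^ s) =
      κ * ρ ^ (s + 1) * V (ρ * x) * x ^ (s + 1) := by
    have e1 : ∑ k ∈ range s, κ * Q.coeff k * ρ ^ k * x ^ k =
        κ * ∑ i ∈ range s, Q.coeff i * (ρ * x) ^ i := by
      rw [mul_sum]
      refine sum_congr rfl fun i _ => ?_
      rw [mul_pow]; ring
    rw [e1, mul_pow, mul_pow]
    ring
  rw [e, abs_mul, abs_mul, abs_mul, abs_pow, abs_of_pos (pow_pos hx0 (s + 1))]
  apply mul_le_mul_of_nonneg_right _ (by positivity)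
  exact mul_le_mul_of_nonneg_left h3 (by positivity)

theorem sc_two (y : ℝ) : sc (2 * y) = sc y * Real.cos y := by
  by_cases hy : y = 0
  · rw [hy, mul_zero, sc_zero, Real.cos_zero, mul_one]
  · have h1 := sin_eq_sc (2 * y)
    rw [Real.sin_two_mul, sin_eq_sc y] at h1
    have h2 : 2 * y ≠ 0 := mul_ne_zero two_ne_zero hy
    apply mul_left_cancel₀ h2
    rw [← h1]; ring

theorem F2_coB (b p : ℕ) : ∃ c : ℝ, 0 < c ∧ CoB (2 * (b + p)) (F2 (2 * b + 3) p) c := by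
  obtain ⟨c, hc, h⟩ := G_co b (b + p)
  have hpi := Real.pi_pos
  refine ⟨_, ?_, CoB.of h (Real.pi⁻¹ ^ (2 * b + 1) * ((2 * (Real.pi / 2) ^ 2)⁻¹) ^ p) (Real.pi / 2) _
    fun x => ?_⟩
  · positivity
  · unfold F2
    have e : Real.pi * x = 2 * (Real.pi / 2 * x) := by ring
    have e' : Real.pi * x / 2 = Real.pi / 2 * x := by ring
    rw [e', e, sc_two]
    generalize Real.pi / 2 * x = y
    by_cases hz : sc y * Real.cos y = 0
    · rcases mul_eq_zero.1 hz with h0 | h0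
      · rw [h0]; simp
      · rw [h0]; simp
    · have h1 : sc y ≠ 0 := left_ne_zero_of_mul hz
      have h2 : Real.cos y ≠ 0 := right_ne_zero_of_mul hz
      have e3 : (Real.pi * (sc y * Real.cos y)) ^ 2 * (Real.pi * (sc y * Real.cos y))⁻¹ ^ (2 * b + 3) =
          (Real.pi * (sc y * Real.cos y))⁻¹ ^ (2 * b + 1) := by
        have : (Real.pi * (sc y * Real.cos y)) ^ 2 * (Real.pi * (sc y * Real.cos y))⁻¹ ^ 2 = 1 := by
          rw [← mul_pow, mul_inv_cancel₀ (mul_ne_zero hpi.ne' hz), one_pow]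
        rw [show 2 * b + 3 = 2 + (2 * b + 1) by ring, pow_add, ← mul_assoc, this, one_mul]
      have e4 : ((2 * (Real.pi / 2 * sc y) ^ 2)⁻¹) ^ p =
          ((2 * (Real.pi / 2) ^ 2)⁻¹) ^ p * (sc y)⁻¹ ^ (2 * p) := by
        rw [mul_pow, ← mul_assoc, mul_inv, mul_pow, pow_mul, inv_pow (sc y) 2]
      rw [e3, e4, mul_inv, mul_inv, mul_pow, mul_pow, show 2 * (b + p) + 1 = (2 * b + 1) + 2 * p by ring,
        pow_add (sc y)⁻¹]
      ring

theorem F1_coB (b p : ℕ) : ∃ c : ℝ, 0 < c ∧ CoB (2 * b) (F1 (2 * b + 3) p) c := by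
  obtain ⟨c, hc, h⟩ := G_co (b + p) b
  have hpi := Real.pi_pos
  refine ⟨_, ?_, CoB.of h (Real.pi⁻¹ ^ (2 * b + 1) * (2⁻¹ : ℝ) ^ p) (Real.pi / 2) _
    fun x => ?_⟩
  · positivity
  · unfold F1
    have e : Real.pi * x = 2 * (Real.pi / 2 * x) := by ring
    have e' : Real.pi * x / 2 = Real.pi / 2 * x := by ring
    rw [e', e, sc_two]
    generalize Real.pi / 2 * x = y
    by_cases hz : sc y * Real.cos y = 0
    · rcases mul_eq_zero.1 hz with h0 | h0
      · rw [h0]; simp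
      · rw [h0]; simp
    · have h1 : sc y ≠ 0 := left_ne_zero_of_mul hz
      have h2 : Real.cos y ≠ 0 := right_ne_zero_of_mul hz
      have e3 : (Real.pi * (sc y * Real.cos y)) ^ 2 * (Real.pi * (sc y * Real.cos y))⁻¹ ^ (2 * b + 3) =
          (Real.pi * (sc y * Real.cos y))⁻¹ ^ (2 * b + 1) := by
        have : (Real.pi * (sc y * Real.cos y)) ^ 2 * (Real.pi * (sc y * Real.cos y))⁻¹ ^ 2 = 1 := by
          rw [← mul_pow, mul_inv_cancel₀ (mul_ne_zero hpi.ne' hz), one_pow]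
        rw [show 2 * b + 3 = 2 + (2 * b + 1) by ring, pow_add, ← mul_assoc, this, one_mul]
      have e4 : ((2 * Real.cos y ^ 2)⁻¹) ^ p = (2⁻¹ : ℝ) ^ p * (Real.cos y)⁻¹ ^ (2 * p) := by
        rw [mul_inv, mul_pow, pow_mul, inv_pow (Real.cos y) 2]
      rw [e3, e4, mul_inv, mul_inv, mul_pow, mul_pow, show 2 * (b + p) + 1 = (2 * b + 1) + 2 * p by ring,
        pow_add (Real.cos y)⁻¹]
      ring

end Pool.Agent.H905.WG
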