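import Mathlib
import Pool.Agent.H905.WG.Zero1
import Pool.Agent.H905.WG.Main

/-!
# Euler number zero
-/

set_option autoImplicit false

open Finset Filter Topology

namespace Pool.Agent.H905.WG

open H524R3 Pool.Agent.H905.WR

theorem powsum_ex (q : ℕ) (hq : 2 ≤ q) (ε : ℕ → ℝ) (hε : ∀ i, |ε i| ≤ 1) (N : ℕ → ℕ)
    (hN : ∀ᶠ r : ℕ in atTop, (r : ℝ) / 4 ≤ N r) :
    Ex 1 (fun r : ℕ => (((r : ℝ) ^ q * ∑ i ∈ range (N r), ε i / ((i : ℝ) + 1) ^ q : ℝ) : ℂ)) := by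
  obtain ⟨c, hc⟩ := conv q hq ε hε
  have h1 : Ex 1 (fun r : ℕ => (c : ℂ) * (((r : ℝ) ^ (q : ℝ) : ℝ) : ℂ) * 1 ^ r) := Ex.term _ _ _ norm_one
  have h2 : Ex 1 (fun r : ℕ =>
      (((r : ℝ) ^ q * (∑ i ∈ range (N r), ε i / ((i : ℝ) + 1) ^ q - c) : ℝ) : ℂ)) := by
    refine Ex.err (4 ^ (q - 1)) ?_
    filter_upwards [hN, eventually_ge_atTop 1] with r h3 hr
    have hr' : (0 : ℝ) < r := by exact_mod_cast hr
    have hN0 : (0 : ℝ) < N r := by linarith [h3, (by positivity : (0 : ℝ) < (r : ℝ) / 4)]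
    have hN1 : 1 ≤ N r := by exact_mod_cast hN0
    rw [Complex.norm_real, Real.norm_eq_abs, abs_mul, abs_of_pos (pow_pos hr' q), Real.rpow_one]
    have h4 : 1 / ((N r : ℕ) : ℝ) ^ (q - 1) ≤ 1 / ((r : ℝ) / 4) ^ (q - 1) :=
      div_le_div_of_nonneg_left (by norm_num) (by positivity) (pow_le_pow_left₀ (by positivity) h3 _)
    calc (r : ℝ) ^ q * |∑ i ∈ range (N r), ε i / ((i : ℝ) + 1) ^ q - c| ≤
          (r : ℝ) ^ q * (1 / ((r : ℝ) / 4) ^ (q - 1)) :=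
          mul_le_mul_of_nonneg_left ((hc _ hN1).trans h4) (by positivity)
      _ = 4 ^ (q - 1) * r := by
          obtain ⟨k, rfl⟩ : ∃ k, q = k + 2 := ⟨q - 2, by omega⟩
          have hk : k + 2 - 1 = k + 1 := by omega
          rw [hk, div_pow]
          field_simp
          ring
  refine Ex.congr (Ex.add h1 h2) (Eventually.of_forall fun r => ?_)
  rw [Real.rpow_natCast]
  push_cast
  ring

theorem logsum_ex (ε : ℕ → ℝ) (lam D : ℝ)
    (hlam : ∀ I : ℕ, |∑ i ∈ range I, ε i / ((i : ℝ) + 1) - lam * Real.log ((I : ℝ) + 1)| ≤ D)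
    (N : ℕ → ℕ) (hN : ∀ᶠ r : ℕ in atTop, (r : ℝ) / 4 ≤ N r) (hN' : ∀ᶠ r : ℕ in atTop, N r + 1 ≤ r) :
    Ex 1 (fun r : ℕ => (((r : ℝ) * ∑ i ∈ range (N r), ε i / ((i : ℝ) + 1) -
      lam * (r * Real.log r) : ℝ) : ℂ)) := by
  refine Ex.err (D + |lam| * 2) ?_
  filter_upwards [hN, hN', eventually_ge_atTop 1] with r h1 h2 hr
  have hr' : (0 : ℝ) < r := by exact_mod_cast hr
  rw [Complex.norm_real, Real.norm_eq_abs, Real.rpow_one]
  have h2' : ((N r : ℕ) : ℝ) + 1 ≤ r := by exact_mod_cast h2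
  have h3 : Real.log (((N r : ℕ) : ℝ) + 1) ≤ Real.log r := Real.log_le_log (by positivity) h2'
  have h4 : Real.log ((r : ℝ) / 4) ≤ Real.log (((N r : ℕ) : ℝ) + 1) :=
    Real.log_le_log (by positivity) (by linarith)
  rw [Real.log_div hr'.ne' (by norm_num)] at h4
  have h5 : Real.log 4 ≤ 2 := by
    have : Real.log 4 = 2 * Real.log 2 := by
      rw [show (4 : ℝ) = 2 ^ 2 by norm_num, Real.log_pow]; norm_num
    rw [this]
    linarith [Real.log_two_lt_d9]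
  have h6 := hlam (N r)
  have e : (r : ℝ) * ∑ i ∈ range (N r), ε i / ((i : ℝ) + 1) - lam * (r * Real.log r) =
      r * ((∑ i ∈ range (N r), ε i / ((i : ℝ) + 1) - lam * Real.log (((N r : ℕ) : ℝ) + 1)) +
        lam * (Real.log (((N r : ℕ) : ℝ) + 1) - Real.log r)) := by ring
  rw [e, abs_mul, abs_of_pos hr', mul_comm]
  apply mul_le_mul_of_nonneg_right _ hr'.le
  refine (abs_add_le _ _).trans (add_le_add h6 ?_)
  rw [abs_mul]
  apply mul_le_mul_of_nonneg_left _ (abs_nonneg _)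
  rw [abs_le]
  constructor <;> linarith

theorem phi0_ex (ε : ℕ → ℝ) (hε : ∀ i, |ε i| ≤ 1) (lam : ℝ) (hlam : HL ε lam)
    (s : ℕ) (F : ℝ → ℝ) (c : ℝ) (hF : CoB s F c) (N : ℕ → ℕ)
    (hN : ∀ᶠ r : ℕ in atTop, (r : ℝ) / 4 ≤ N r) (hN' : ∀ᶠ r : ℕ in atTop, N r + 1 ≤ r)
    (Φ : ℕ → ℕ → ℝ) (K : ℝ) (hK0 : 0 ≤ K)
    (hΦ : ∀ᶠ r : ℕ in atTop, ∀ i < N r,
      Φ r i = F (((i : ℝ) + 1) / r) * (r / ((i : ℝ) + 1)) ^ (s + 1))
    (hK : ∀ᶠ r : ℕ in atTop, ∀ i < N r, |Φ r i| ≤ K * (r / ((i : ℝ) + 1)) ^ (s + 1)) :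
    Ex 1 (fun r : ℕ => ((∑ i ∈ range (N r), ε i * Φ r i : ℝ) : ℂ) -
      ((lam * c * (r * Real.log r) : ℝ) : ℂ)) := by
  obtain ⟨D, hD⟩ := hlam
  obtain ⟨Q, C, δ, hδ, hb⟩ := hF
  have hmain := Ex.sum (range s) (fun k (r : ℕ) => (Q k : ℂ) *
    (((r : ℝ) ^ (s + 1 - k) * ∑ i ∈ range (N r), ε i / ((i : ℝ) + 1) ^ (s + 1 - k) : ℝ) : ℂ))
    (fun k hk => (powsum_ex (s + 1 - k) (by rw [mem_range] at hk; omega) ε hε N hN).const_mul _)
  have hlog := (logsum_ex ε lam D hD N hN hN').const_mul (c : ℂ)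
  set M : ℝ := |C| + K * δ⁻¹ ^ (s + 1) + ∑ k ∈ range s, |Q k| * δ⁻¹ ^ (s + 1 - k) + |c| * δ⁻¹ with hM
  have hM0 : 0 ≤ M := by
    rw [hM]
    have : 0 ≤ ∑ k ∈ range s, |Q k| * δ⁻¹ ^ (s + 1 - k) := sum_nonneg fun k _ => by positivity
    positivity
  have hrem : Ex 1 (fun r : ℕ => ((∑ i ∈ range (N r), ε i * (Φ r i -
      (∑ k ∈ range s, Q k * (r / ((i : ℝ) + 1)) ^ (s + 1 - k) + c * (r / ((i : ℝ) + 1)))) : ℝ) : ℂ)) := by
    refine Ex.err M ?_
    filter_upwards [hN', hΦ, hK, eventually_ge_atTop 1] with r h1 h2 h3 hr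
    have hr' : (0 : ℝ) < r := by exact_mod_cast hr
    rw [Complex.norm_real, Real.norm_eq_abs, Real.rpow_one]
    have hterm : ∀ i ∈ range (N r), |ε i * (Φ r i -
        (∑ k ∈ range s, Q k * (r / ((i : ℝ) + 1)) ^ (s + 1 - k) + c * (r / ((i : ℝ) + 1))))| ≤ M := by
      intro i hi
      rw [mem_range] at hi
      have hi0 : (0 : ℝ) < (i : ℝ) + 1 := by positivity
      have hx0 : 0 < ((i : ℝ) + 1) / r := by positivity
      rw [abs_mul]
      refine (mul_le_mul (hε i) le_rfl (abs_nonneg _) (by norm_num)).trans ?_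
      rw [one_mul]
      have hwx : r / ((i : ℝ) + 1) = (((i : ℝ) + 1) / r)⁻¹ := by rw [inv_div]
      have hs0 : 0 ≤ ∑ k ∈ range s, |Q k| * δ⁻¹ ^ (s + 1 - k) := sum_nonneg fun k _ => by positivity
      rcases lt_or_ge (((i : ℝ) + 1) / r) δ with hx | hx
      · have h4 := hb _ hx0 hx
        rw [h2 i hi, hwx]
        generalize ((i : ℝ) + 1) / r = x at *
        have hxx : x * x⁻¹ = 1 := mul_inv_cancel₀ hx0.ne'
        have e : F x * x⁻¹ ^ (s + 1) - (∑ k ∈ range s, Q k * x⁻¹ ^ (s + 1 - k) + c * x⁻¹) =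
            (F x - (∑ k ∈ range s, Q k * x ^ k + c * x ^ s)) * x⁻¹ ^ (s + 1) := by
          have e1 : (∑ k ∈ range s, Q k * x ^ k) * x⁻¹ ^ (s + 1) =
              ∑ k ∈ range s, Q k * x⁻¹ ^ (s + 1 - k) := by
            rw [sum_mul]
            refine sum_congr rfl fun k hk => ?_
            rw [mem_range] at hk
            obtain ⟨j, hj⟩ : ∃ j, s + 1 = k + j := ⟨s + 1 - k, by omega⟩
            have hj' : s + 1 - k = j := by omega
            rw [hj', hj, pow_add, mul_assoc, ← mul_assoc (x ^ k), ← mul_pow, hxx, one_pow, one_mul]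
          have e2 : x ^ s * x⁻¹ ^ (s + 1) = x⁻¹ := by
            rw [pow_succ, ← mul_assoc, ← mul_pow, hxx, one_pow, one_mul]
          rw [sub_mul, add_mul, e1, mul_assoc c, e2]
        rw [e, abs_mul, abs_of_pos (by positivity : 0 < x⁻¹ ^ (s + 1))]
        calc |F x - (∑ k ∈ range s, Q k * x ^ k + c * x ^ s)| * x⁻¹ ^ (s + 1) ≤
              (|C| * x ^ (s + 1)) * x⁻¹ ^ (s + 1) := by
              apply mul_le_mul_of_nonneg_right _ (by positivity)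
              exact h4.trans (mul_le_mul_of_nonneg_right (le_abs_self C) (by positivity))
          _ = |C| := by rw [mul_assoc, ← mul_pow, hxx, one_pow, mul_one]
          _ ≤ M := by
              rw [hM]
              have a1 : 0 ≤ K * δ⁻¹ ^ (s + 1) := by positivity
              have a2 : 0 ≤ |c| * δ⁻¹ := by positivity
              linarith
      · have h5 := h3 i hi
        rw [hwx] at h5 ⊢
        generalize ((i : ℝ) + 1) / r = x at *
        have hxi : x⁻¹ ≤ δ⁻¹ := inv_anti₀ hδ hx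
        have hxi0 : 0 < x⁻¹ := by positivity
        refine (abs_sub _ _).trans ?_
        have h6 : |Φ r i| ≤ K * δ⁻¹ ^ (s + 1) :=
          h5.trans (mul_le_mul_of_nonneg_left (pow_le_pow_left₀ hxi0.le hxi _) hK0)
        have h7 : |∑ k ∈ range s, Q k * x⁻¹ ^ (s + 1 - k) + c * x⁻¹| ≤
            ∑ k ∈ range s, |Q k| * δ⁻¹ ^ (s + 1 - k) + |c| * δ⁻¹ := by
          refine (abs_add_le _ _).trans (add_le_add ?_ ?_)
          · refine (abs_sum_le_sum_abs _ _).trans (sum_le_sum fun k _ => ?_)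
            rw [abs_mul, abs_of_pos (by positivity : 0 < x⁻¹ ^ (s + 1 - k))]
            exact mul_le_mul_of_nonneg_left (pow_le_pow_left₀ hxi0.le hxi _) (abs_nonneg _)
          · rw [abs_mul, abs_of_pos hxi0]
            exact mul_le_mul_of_nonneg_left hxi (abs_nonneg _)
        rw [hM]
        have a3 := abs_nonneg C
        linarith
    refine (abs_sum_le_sum_abs _ _).trans ((sum_le_sum hterm).trans ?_)
    rw [sum_const, card_range, nsmul_eq_mul, mul_comm]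
    apply mul_le_mul_of_nonneg_left _ hM0
    have : N r ≤ r := by omega
    exact_mod_cast this
  refine Ex.congr (Ex.add (Ex.add hmain hlog) hrem) ?_
  filter_upwards [eventually_ge_atTop 1] with r hr
  have e0 : ∑ k ∈ range s, (Q k : ℂ) *
      (((r : ℝ) ^ (s + 1 - k) * ∑ i ∈ range (N r), ε i / ((i : ℝ) + 1) ^ (s + 1 - k) : ℝ) : ℂ) =
      ((∑ i ∈ range (N r), ε i * ∑ k ∈ range s, Q k * (r / ((i : ℝ) + 1)) ^ (s + 1 - k) : ℝ) : ℂ) := by
    rw [show ∑ k ∈ range s, (Q k : ℂ) *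
      (((r : ℝ) ^ (s + 1 - k) * ∑ i ∈ range (N r), ε i / ((i : ℝ) + 1) ^ (s + 1 - k) : ℝ) : ℂ) =
      ((∑ k ∈ range s, Q k * ((r : ℝ) ^ (s + 1 - k) *
        ∑ i ∈ range (N r), ε i / ((i : ℝ) + 1) ^ (s + 1 - k)) : ℝ) : ℂ) by push_cast; rfl]
    congr 1
    simp only [mul_sum]
    rw [sum_comm]
    refine sum_congr rfl fun i _ => sum_congr rfl fun k _ => ?_
    rw [div_pow]
    ring
  have e1 : (c : ℂ) * (((r : ℝ) * ∑ i ∈ range (N r), ε i / ((i : ℝ) + 1) -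
      lam * (r * Real.log r) : ℝ) : ℂ) =
      ((∑ i ∈ range (N r), ε i * (c * (r / ((i : ℝ) + 1))) - lam * c * (r * Real.log r) : ℝ) : ℂ) := by
    rw [← Complex.ofReal_mul]
    congr 1
    rw [mul_sub, mul_sum, mul_sum]
    congr 1
    · refine sum_congr rfl fun i _ => ?_
      ring
    · ring
  rw [e0, e1, ← Complex.ofReal_add, ← Complex.ofReal_add, ← Complex.ofReal_sub]
  congr 1
  have e2 : ∑ i ∈ range (N r), ε i * Φ r i =
      ∑ i ∈ range (N r), ε i * ∑ k ∈ range s, Q k * (r / ((i : ℝ) + 1)) ^ (s + 1 - k) +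
      ∑ i ∈ range (N r), ε i * (c * (r / ((i : ℝ) + 1))) +
      ∑ i ∈ range (N r), ε i * (Φ r i -
        (∑ k ∈ range s, Q k * (r / ((i : ℝ) + 1)) ^ (s + 1 - k) + c * (r / ((i : ℝ) + 1)))) := by
    rw [← sum_add_distrib, ← sum_add_distrib]
    refine sum_congr rfl fun i _ => ?_
    ring
  rw [e2]
  ring

end Pool.Agent.H905.WG
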