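import Mathlib
import Pool.Agent.H905.WG.Zero2
import Pool.Agent.H905.WG.Final

/-!
# Euler number zero: the logarithm
-/

set_option autoImplicit false

open Finset Filter Topology

namespace Pool.Agent.H905.WG

open H524R3 Pool.Agent.H905.WR

/-- A logarithm excludes an expansion in every 2-framing. -/
theorem no_exp_of_ex (Z : ℕ → ℂ) (t : ℝ) (c z : ℂ) (hc : c ≠ 0) (hz : ‖z‖ = 1)
    (hZ : Ex t (fun r : ℕ => Z r - c * z ^ r * (((r : ℝ) ^ t * Real.log r : ℝ) : ℂ))) (α β : ℝ) :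
    ¬ HasExpansion 2 (fun k => Complex.exp (Real.pi * Complex.I * (α + β / (k + 2))) * Z (k + 2)) := by
  intro H
  simp only [← E_eq_exp] at H
  have H' : HasExpansion 2 (fun k => (fun r : ℕ => E (α + β / r) * Z r) (k + 2)) := by
    have e : (fun k => (fun r : ℕ => E (α + β / r) * Z r) (k + 2)) =
        fun k : ℕ => E (α + β / (k + 2)) * Z (k + 2) := by
      funext k
      show E (α + β / ((k + 2 : ℕ) : ℝ)) * _ = _
      push_cast
      rfl
    rw [e]; exact H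
  have hex := ex_of_hasExpansion 2 (fun r : ℕ => E (α + β / r) * Z r) H' t
  have hex2 := (hex.mul_E (-β)).const_mul (E (-α))
  refine not_ex_log t c hc z hz (Ex.congr (Ex.sub hex2 hZ) ?_)
  filter_upwards [eventually_ge_atTop 2] with r hr
  have hr' : (0 : ℝ) < r := by
    have : 0 < r := by omega
    exact_mod_cast this
  have hE : E (-α) * (E (-β / r) * (E (α + β / r) * Z r)) = Z r := by
    rw [← mul_assoc, ← mul_assoc, ← E_add, ← E_add]
    have : -α + -β / r + (α + β / r) = 0 := by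
      field_simp
      ring
    rw [this, E_zero, one_mul]
  rw [hE]
  ring

theorem wrt_zero (h p : ℕ) (hh : Odd h) (r : ℕ) (hr : 2 ≤ r) :
    (seifertTree h p 0).wrt r = (gr h r : ℂ) *
      (((∑ i ∈ range (r / 2), s1 p r i * Φ1 h p r i : ℝ) : ℂ) -
        (-1) ^ r * ((∑ i ∈ range (r - 1 - r / 2), s2 p 0 i * Φ2 h p r i : ℝ) : ℂ)) := by
  rw [wrt_split h p hh 0 r hr]
  simp only [Int.cast_zero, zero_div, neg_zero, zero_mul, E_zero, mul_one, one_mul]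
  rw [Complex.ofReal_sum, Complex.ofReal_sum]

theorem half_ev : ∀ᶠ r : ℕ in atTop, (r : ℝ) / 4 ≤ ((r / 2 : ℕ) : ℝ) := by
  filter_upwards [eventually_ge_atTop 4] with r hr
  have h1 : r ≤ 4 * (r / 2) := by omega
  have h2 : (r : ℝ) ≤ 4 * ((r / 2 : ℕ) : ℝ) := by exact_mod_cast h1
  linarith

theorem half_ev' : ∀ᶠ r : ℕ in atTop, (r : ℝ) / 4 ≤ ((r - 1 - r / 2 : ℕ) : ℝ) := by
  filter_upwards [eventually_ge_atTop 8] with r hr
  have h1 : r ≤ 4 * (r - 1 - r / 2) := by omega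
  have h2 : (r : ℝ) ≤ 4 * ((r - 1 - r / 2 : ℕ) : ℝ) := by exact_mod_cast h1
  linarith

theorem A0_ex (b p : ℕ) (hp : 1 ≤ p) : ∃ c : ℝ, 0 < c ∧ Ex 1 (fun r : ℕ =>
    ((∑ i ∈ range (r / 2), s1 p r i * Φ1 (2 * b + 3) p r i : ℝ) : ℂ) -
      (-1) ^ r * ((c * (r * Real.log r) : ℝ) : ℂ)) := by
  obtain ⟨c, hc, hF⟩ := F1_coB b p
  have h1 : ∀ᶠ r : ℕ in atTop, r / 2 + 1 ≤ r := by
    filter_upwards [eventually_ge_atTop 2] with r hr
    omega
  have h2 : ∀ᶠ r : ℕ in atTop, ∀ i < r / 2, Φ1 (2 * b + 3) p r i =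
      F1 (2 * b + 3) p (((i : ℝ) + 1) / r) * (r / ((i : ℝ) + 1)) ^ (2 * b + 1) := by
    filter_upwards [eventually_ge_atTop 1] with r hr i _
    exact Φ1_eq (2 * b + 3) p r i (by omega) hr
  have h3 : ∀ᶠ r : ℕ in atTop, ∀ i < r / 2, |Φ1 (2 * b + 3) p r i| ≤
      Real.pi ^ 2 * (r / ((i : ℝ) + 1)) ^ (2 * b + 1) := by
    filter_upwards with r i hi
    exact Φ1_bound (2 * b + 3) p r i (by omega) hi
  have ha := phi0_ex (fun i => (-1) ^ i) (fun i => by rw [abs_pow, abs_neg, abs_one, one_pow]) 0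
    HL_alt (2 * b) _ c hF (fun r => r / 2) half_ev h1 (Φ1 (2 * b + 3) p) (Real.pi ^ 2) (by positivity) h2 h3
  have hb := phi0_ex (fun _ => 1) (fun _ => by simp) 1
    HL_one (2 * b) _ c hF (fun r => r / 2) half_ev h1 (Φ1 (2 * b + 3) p) (Real.pi ^ 2) (by positivity) h2 h3
  have hb' := (hb.mul_term 0 (-1) (by rw [norm_neg, norm_one])).const_mul (1 / 2)
  rw [add_zero] at hb'
  refine ⟨c / 2, by positivity, Ex.congr (Ex.add (ha.const_mul (1 / 2)) hb')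
    (Eventually.of_forall fun r => ?_)⟩
  have hsum : ∑ i ∈ range (r / 2), s1 p r i * Φ1 (2 * b + 3) p r i =
      1 / 2 * ∑ i ∈ range (r / 2), (-1) ^ i * Φ1 (2 * b + 3) p r i +
      1 / 2 * (-1) ^ r * ∑ i ∈ range (r / 2), 1 * Φ1 (2 * b + 3) p r i := by
    rw [mul_sum, mul_sum, ← sum_add_distrib]
    refine sum_congr rfl fun i _ => ?_
    have hs : s1 p r i = 1 / 2 * (-1) ^ i + 1 / 2 * (-1) ^ r := by
      unfold s1
      by_cases ho : Odd (i + 1 + r)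
      · rw [if_pos (Or.inr ho), mul_one]
        have h1 : (-1 : ℝ) ^ (i + 1 + r) = -1 := ho.neg_one_pow
        have h2 : (-1 : ℝ) ^ (i + 1 + r) = -((-1) ^ i * (-1) ^ r) := by
          rw [pow_add, pow_succ]; ring
        rcases neg_one_pow_eq_or ℝ i with e | e <;> rcases neg_one_pow_eq_or ℝ r with e' | e' <;>
          rw [e, e'] at h2 <;> rw [e, e'] <;> linarith
      · have hp0 : ¬ (p = 0 ∨ Odd (i + 1 + r)) := by
          rintro (h | h)
          · omega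
          · exact ho h
        rw [if_neg hp0, mul_zero]
        have h1 : (-1 : ℝ) ^ (i + 1 + r) = 1 := (Nat.not_odd_iff_even.1 ho).neg_one_pow
        have h2 : (-1 : ℝ) ^ (i + 1 + r) = -((-1) ^ i * (-1) ^ r) := by
          rw [pow_add, pow_succ]; ring
        rcases neg_one_pow_eq_or ℝ i with e | e <;> rcases neg_one_pow_eq_or ℝ r with e' | e' <;>
          rw [e, e'] at h2 <;> rw [e, e'] <;> linarith
    rw [hs]
    ring
  rw [hsum, Real.rpow_zero]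
  push_cast
  ring

theorem HL_s2_zero (p : ℕ) (hp : 1 ≤ p) : HL (s2 p 0) (-1 / 2) := by
  have h1 := HL_one.lin HL_alt (-1 / 2) (-1 / 2)
  have e : s2 p 0 = fun i => -1 / 2 * 1 + -1 / 2 * (-1) ^ i := by
    funext i
    unfold s2
    have hs : sgn 0 = 1 := by unfold sgn; simp
    rw [hs, one_pow, mul_one]
    by_cases ho : Odd (i + 1)
    · rw [if_pos (Or.inr ho), ho.neg_one_pow]
      have hi : Even i := by
        obtain ⟨k, hk⟩ := ho
        exact ⟨k, by omega⟩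
      rw [hi.neg_one_pow]
      norm_num
    · have hp0 : ¬ (p = 0 ∨ Odd (i + 1)) := by
        rintro (h | h)
        · omega
        · exact ho h
      rw [if_neg hp0]
      have hi : Odd i := by
        rw [Nat.not_odd_iff_even] at ho
        obtain ⟨k, hk⟩ := ho
        exact ⟨k - 1, by omega⟩
      rw [hi.neg_one_pow]
      norm_num
  rw [e]
  have e2 : (-1 / 2 : ℝ) * 1 + -1 / 2 * 0 = -1 / 2 := by ring
  rw [e2] at h1
  exact h1

theorem B0_ex (b p : ℕ) (hp : 1 ≤ p) : ∃ c : ℝ, 0 < c ∧ Ex 1 (fun r : ℕ =>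
    ((∑ i ∈ range (r - 1 - r / 2), s2 p 0 i * Φ2 (2 * b + 3) p r i : ℝ) : ℂ) +
      ((c * (r * Real.log r) : ℝ) : ℂ)) := by
  obtain ⟨c, hc, hF⟩ := F2_coB b p
  have e1 : 2 * (b + p) + 1 = 2 * b + 3 + 2 * p - 2 := by omega
  have h1 : ∀ᶠ r : ℕ in atTop, r - 1 - r / 2 + 1 ≤ r := by
    filter_upwards [eventually_ge_atTop 2] with r hr
    omega
  have h2 : ∀ᶠ r : ℕ in atTop, ∀ i < r - 1 - r / 2, Φ2 (2 * b + 3) p r i =
      F2 (2 * b + 3) p (((i : ℝ) + 1) / r) * (r / ((i : ℝ) + 1)) ^ (2 * (b + p) + 1) := by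
    filter_upwards [eventually_ge_atTop 1] with r hr i _
    rw [e1]
    exact Φ2_eq (2 * b + 3) p r i (by omega) hr
  have h3 : ∀ᶠ r : ℕ in atTop, ∀ i < r - 1 - r / 2, |Φ2 (2 * b + 3) p r i| ≤
      Real.pi ^ 2 * (r / ((i : ℝ) + 1)) ^ (2 * (b + p) + 1) := by
    filter_upwards with r i hi
    rw [e1]
    exact Φ2_bound (2 * b + 3) p r i (by omega) (by omega)
  have hb := phi0_ex (s2 p 0) (s2_abs p 0) (-1 / 2) (HL_s2_zero p hp) (2 * (b + p)) _ c hF
    (fun r => r - 1 - r / 2) half_ev' h1 (Φ2 (2 * b + 3) p) (Real.pi ^ 2) (by positivity) h2 h3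
  refine ⟨c / 2, by positivity, Ex.congr hb (Eventually.of_forall fun r => ?_)⟩
  push_cast
  ring

/-- The logarithm for Euler number zero. -/
theorem log_zero (b p : ℕ) (hp : 1 ≤ p) : ∃ c : ℝ, 0 < c ∧
    Ex ((((2 * b + 3 : ℕ) : ℝ)) / 2) (fun r : ℕ => (seifertTree (2 * b + 3) p 0).wrt r -
      (c : ℂ) * (-1) ^ r * (((r : ℝ) ^ (((2 * b + 3 : ℕ) : ℝ) / 2) * Real.log r : ℝ) : ℂ)) := by
  obtain ⟨c1, hc1, hA⟩ := A0_ex b p hp
  obtain ⟨c2, hc2, hB⟩ := B0_ex b p hp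
  have hB' := hB.mul_term 0 (-1) (by rw [norm_neg, norm_one])
  rw [add_zero] at hB'
  set h : ℕ := 2 * b + 3 with hh
  have hodd : Odd h := ⟨b + 1, by omega⟩
  have key := ((Ex.sub hA hB').mul_term ((h : ℝ) / 2 - 1) 1 norm_one).const_mul
    ((Real.sqrt 2 ^ 2 * (Real.sqrt 2)⁻¹ ^ h : ℝ) : ℂ)
  have e1 : (1 : ℝ) + ((h : ℝ) / 2 - 1) = (h : ℝ) / 2 := by ring
  rw [e1] at key
  refine ⟨(Real.sqrt 2 ^ 2 * (Real.sqrt 2)⁻¹ ^ h) * (c1 + c2), by positivity, Ex.congr key ?_⟩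
  filter_upwards [eventually_ge_atTop 2] with r hr
  have hr' : (0 : ℝ) < r := by
    have : 0 < r := by omega
    exact_mod_cast this
  rw [wrt_zero h p hodd r hr, gr_eq h r (by omega), Real.rpow_zero, Complex.ofReal_one, one_mul,
    one_pow, mul_one]
  have hrp : (r : ℝ) ^ ((h : ℝ) / 2) = (r : ℝ) ^ ((h : ℝ) / 2 - 1) * r := by
    conv_rhs => rw [← Real.rpow_one (r : ℝ), ← Real.rpow_mul hr'.le, one_mul]
    rw [← Real.rpow_add hr']
    congr 1
    ring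
  rw [hrp]
  push_cast
  ring

/-- The logarithm for Euler number zero, in explicit form. -/
theorem log_zero' (h p : ℕ) (hh : Odd h) (h3 : 3 ≤ h) (hp : 1 ≤ p) :
    ∃ (c : ℝ) (N : ℕ) (β w : Fin N → ℂ) (e : Fin N → ℝ) (C : ℝ), 0 < c ∧
      (∀ j, ‖w j‖ = 1) ∧ ∀ᶠ r : ℕ in atTop,
      ‖(seifertTree h p 0).wrt r - ∑ j, β j * (((r : ℝ) ^ e j : ℝ) : ℂ) * w j ^ r -
        (c : ℂ) * (-1) ^ r * (((r : ℝ) ^ ((h : ℝ) / 2) * Real.log r : ℝ) : ℂ)‖ ≤
        C * (r : ℝ) ^ ((h : ℝ) / 2) := by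
  obtain ⟨b, rfl⟩ : ∃ b, h = 2 * b + 3 := by
    obtain ⟨k, hk⟩ := hh
    exact ⟨k - 1, by omega⟩
  obtain ⟨c, hc0, hex⟩ := log_zero b p hp
  obtain ⟨ι, _, β, w, e, hw, C, hC⟩ := hex.extract
  let eq := (Fintype.equivFin ι).symm
  refine ⟨c, Fintype.card ι, fun j => β (eq j), fun j => w (eq j), fun j => e (eq j), C, hc0,
    fun j => hw _, ?_⟩
  filter_upwards [hC] with r hr
  have h1 : ∑ j : Fin (Fintype.card ι), β (eq j) * (((r : ℝ) ^ e (eq j) : ℝ) : ℂ) * w (eq j) ^ r =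
      ∑ i, β i * (((r : ℝ) ^ e i : ℝ) : ℂ) * w i ^ r :=
    Equiv.sum_comp eq (fun i => β i * (((r : ℝ) ^ e i : ℝ) : ℂ) * w i ^ r)
  rw [h1, sub_right_comm]
  exact hr

theorem no_exp_zero (h p : ℕ) (hh : Odd h) (h3 : 3 ≤ h) (hp : 1 ≤ p) (α β : ℝ) :
    ¬ HasExpansion 2 (fun k => Complex.exp (Real.pi * Complex.I * (α + β / (k + 2))) *
      (seifertTree h p 0).wrt (k + 2)) := by
  obtain ⟨b, rfl⟩ : ∃ b, h = 2 * b + 3 := by
    obtain ⟨k, hk⟩ := hh
    exact ⟨k - 1, by omega⟩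
  obtain ⟨c, hc0, hex⟩ := log_zero b p hp
  exact no_exp_of_ex _ _ (c : ℂ) (-1) (by exact_mod_cast hc0.ne') (by rw [norm_neg, norm_one]) hex α β

/-- No expansion, all Euler numbers. -/
theorem no_exp_total (h p : ℕ) (n : ℤ) (hh : Odd h)
    (hc : (1 ≤ p ∧ (n ≠ 0 ∨ 3 ≤ h ∨ p = 1)) ∨ (3 ≤ h ∧ Odd n)) (α β : ℝ) :
    ¬ HasExpansion 2 (fun k => Complex.exp (Real.pi * Complex.I * (α + β / (k + 2))) *
      (seifertTree h p n).wrt (k + 2)) := by
  by_cases hn : n = 0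
  · subst hn
    have hp : 1 ≤ p ∧ (3 ≤ h ∨ p = 1) := by
      rcases hc with ⟨h1, h2⟩ | ⟨_, h2⟩
      · refine ⟨h1, ?_⟩
        rcases h2 with h2 | h2 | h2
        · exact absurd rfl h2
        · exact Or.inl h2
        · exact Or.inr h2
      · exact absurd h2 (by decide)
    by_cases h3 : 3 ≤ h
    · exact no_exp_zero h p hh h3 hp.1 α β
    · have h1 : h = 1 := by
        obtain ⟨k, hk⟩ := hh
        omega
      have h2 : p = 1 := by
        rcases hp.2 with h | h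
        · omega
        · exact h
      rw [h1, h2]
      refine one_no 0 _ fun k => ?_
      rw [← E_eq_exp, E_norm]
  · refine no_exp_all h p n hh hn ?_ α β
    rcases hc with ⟨h1, _⟩ | h2
    · exact Or.inl h1
    · exact Or.inr h2

end Pool.Agent.H905.WG
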